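import Pool.Agent.Helper21.W4.Defs

/-!
# Wilf in embedding dimension four: statements, part 1 (arrays and faces)

(p,q,r) ∈ D means p < h1 q r, equivalently q < h2 p r, equivalently r < h3 p q.
All sums and filters run over range B; by PP.bd everything vanishes from B - 1 on.
-/

set_option autoImplicit false

namespace Pool.Agent.Helper21.W4

open Finset

/-- **StAr.** The arrays are finite nonincreasing arrays, the six face sequences are finite
nonincreasing sequences, and they are conjugate in pairs.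

Proof. h1 (q+1) r ≤ h1 q r: otherwise p := h1 q r satisfies p < h1 (q+1) r, so q+1 < h2 p r by
e12, so q < h2 p r, so p < h1 q r = p, absurd. h1 q (r+1) ≤ h1 q r in the same way with e13. If
B ≤ q+1 and h1 q r > 0 then 0 < h1 q r and bd gives q+1 < B, absurd; the same for r. If
h1 q r ≠ 0 then p := h1 q r - 1 < h1 q r, so bd gives p + 1 = h1 q r < B. The arrays h2 and h3 in
the same way, after rewriting the membership with e12, e13 (for h2: q < h2 p r iff p < h1 q r; for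
h3: r < h3 p q iff p < h1 q r). The sequences: special cases (one argument 0). Conjugacy:
q < h2 p 0 iff p < h1 q 0 (e12), r < h3 p 0 iff p < h1 0 r (e13), r < h3 0 q iff 0 < h1 q r iff
q < h2 0 r. -/
def StAr : Prop := ∀ (B : ℕ) (h1 h2 h3 : ℕ → ℕ → ℕ), PP0 B h1 h2 h3 →
  Ar B h1 ∧ Ar B h2 ∧ Ar B h3 ∧
  Sq B (fun p => h2 p 0) ∧ Sq B (fun q => h1 q 0) ∧ Cj (fun p => h2 p 0) (fun q => h1 q 0) ∧
  Sq B (fun p => h3 p 0) ∧ Sq B (fun r => h1 0 r) ∧ Cj (fun p => h3 p 0) (fun r => h1 0 r) ∧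
  Sq B (fun q => h3 0 q) ∧ Sq B (fun r => h2 0 r) ∧ Cj (fun q => h3 0 q) (fun r => h2 0 r)

/-- **StVol.** The three arrays have the same sum.

Proof. By PP0.bd, h3 p q ≤ B (if it is not 0 then it is < B), so h3 p q = ∑ r ∈ range B, if
r < h3 p q then 1 else 0 and vol B h3 = ∑ p q r, [r < h3 p q] = ∑ p q r, [p < h1 q r]
= ∑ q r, ∑ p, [p < h1 q r] = ∑ q r, h1 q r (exchange sums: Finset.sum_comm). The same for h2. -/
def StVol : Prop := ∀ (B : ℕ) (h1 h2 h3 : ℕ → ℕ → ℕ), PP0 B h1 h2 h3 →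
  vol B h1 = vol B h3 ∧ vol B h2 = vol B h3

/-- **StBk.** The same for the interior entries diminished by one.

Proof. Put g1 q r := h1 (q+1) (r+1) - 1, g2 p r := h2 (p+1) (r+1) - 1, g3 p q := h3 (p+1) (q+1) - 1.
Then PP0 B g1 g2 g3: p < g1 q r iff p+1 < h1 (q+1) (r+1) iff q+1 < h2 (p+1) (r+1) iff q < g2 p r,
and so on (bd: p+1 < B etc. follow from p+2 < B etc.). vol B g3 = bk B h3 by definition, and so
on. Apply StVol to g1, g2, g3. -/
def StBk : Prop := StVol → ∀ (B : ℕ) (h1 h2 h3 : ℕ → ℕ → ℕ), PP0 B h1 h2 h3 →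
  bk B h1 = bk B h3 ∧ bk B h2 = bk B h3

/-- **StInt.** The interior sum is the area of the face below plus the number of interior points.

Proof. h = (h - 1) + [0 < h] for natural numbers, so intS B h3 = bk B h3 +
∑ p ∈ range B, #{q ∈ range B : 0 < h3 (p+1) (q+1)}. Now 0 < h3 (p+1) (q+1) iff p+1 < h1 (q+1) 0
(e13) iff q+1 < h2 (p+1) 0 (e12) iff q < h2 (p+1) 0 - 1, and h2 (p+1) 0 - 1 ≤ B (bd), so the
inner number is h2 (p+1) 0 - 1. -/
def StInt : Prop := ∀ (B : ℕ) (h1 h2 h3 : ℕ → ℕ → ℕ), PP0 B h1 h2 h3 →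
  intS B h3 = ar B (fun p => h2 p 0) + bk B h3

/-- **StCard.** The number of points: the origin, the axes, the faces, the interior.

Proof. For a function f with f B = 0: ∑ p ∈ range B, f p = f 0 + ∑ p ∈ range B, f (p+1)
(Finset.sum_range_succ' and sum_range_succ; B ≥ 3 by PP). Apply it twice to h3 (all h3 B q = 0,
h3 p B = 0 by bd): vol B h3 = h3 0 0 + ∑ p, h3 (p+1) 0 + ∑ q, h3 0 (q+1) + intS B h3.
∑ p, h3 (p+1) 0 = ∑ p, (h3 (p+1) 0 - 1) + #{p ∈ range B : 0 < h3 (p+1) 0} = ar B (fun p => h3 p 0) +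
(h1 0 0 - 1), because 0 < h3 (p+1) 0 iff p+1 < h1 0 0 (and h1 0 0 ≤ B). In the same way
∑ q, h3 0 (q+1) = ar B (fun q => h3 0 q) + (h2 0 0 - 1). h3 0 0 = 1 + (h3 0 0 - 1). Use StInt. -/
def StCard : Prop := StInt → ∀ (B : ℕ) (h1 h2 h3 : ℕ → ℕ → ℕ), PP B h1 h2 h3 →
  vol B h3 = 1 + (h1 0 0 - 1) + (h2 0 0 - 1) + (h3 0 0 - 1) + ar B (fun p => h2 p 0) +
    ar B (fun p => h3 p 0) + ar B (fun q => h3 0 q) + bk B h3

/-- **StSw.** The class is invariant under the exchange of the coordinates 1, 2 and under the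
exchange of the coordinates 2, 3.

Proof. Unfold everything; use only e12 and e13.
First: with H1 := h2, H2 := h1, H3 p q := h3 q p: p < H1 q r = h2 q r iff q < h1 p r = H2 p r (e12);
p < h2 q r iff q < h1 p r iff r < h3 q p = H3 p q. s1 for (p,q,r) in the new arrays is s1 for
(q,p,r) in the old ones: q < h1 p r iff p < h2 q 0 ∧ r < h3 q 0 ∧ r < h3 0 p ∧ ¬ (..), and
p < h2 q 0 iff q < h1 p 0. gen: c1 < h1 c2 0 iff c2 < h2 c1 0. The o's are permuted: o12 <-> o21,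
o13 <-> o23, o31 <-> o32.
Second: with H1 q r := h1 r q, H2 := h3, H3 := h2: p < h1 r q iff q < h3 p r (e13) and iff
r < h2 p q (e12). s1 for (p,q,r) is the old s1 for (p,r,q), with q < h3 0 r iff 0 < h1 r q iff
r < h2 0 q. gen: c2 < h2 0 c3 iff c3 < h3 0 c2. The o's: o12 <-> o13, o21 <-> o31, o23 <-> o32. -/
def StSw : Prop := ∀ (B : ℕ) (h1 h2 h3 : ℕ → ℕ → ℕ) (c1 c2 c3 : ℕ), Cls B h1 h2 h3 c1 c2 c3 →
  Cls B h2 h1 (fun p q => h3 q p) c2 c1 c3 ∧ Cls B (fun q r => h1 r q) h3 h2 c1 c3 c2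

/-- **StSwT.** The conclusion, κ and the largest point are invariant under the two exchanges.

Proof. vol B (fun p q => h3 q p) = vol B h3 and NMs B (fun p q => h3 q p) = NMs B h3
(Finset.sum_comm, and the two alternatives in the condition change places: or_comm);
NMs B (fun q r => h1 r q) = NMs B h1; vol B h2 = vol B h3 by StVol. So the two inequalities Tgt say
the same. IsK, IsY: p < h1 q r iff q < h2 p r, so (p,q,r) is a point for h1 iff (q,p,r) is one for h2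
(that is q < h2 p r) iff (p,r,q) is one for the transpose of h1; Two and the sums are symmetric. -/
def StSwT : Prop := StVol → ∀ (B : ℕ) (h1 h2 h3 : ℕ → ℕ → ℕ) (κ : ℕ), PP B h1 h2 h3 →
  (Tgt B h2 h1 (fun p q => h3 q p) κ → Tgt B h1 h2 h3 κ) ∧
  (Tgt B (fun q r => h1 r q) h3 h2 κ → Tgt B h1 h2 h3 κ) ∧
  (IsK h1 κ → IsK h2 κ) ∧ (IsK h1 κ → IsK (fun q r => h1 r q) κ) ∧
  (∀ p q r, IsY h1 p q r → IsY h2 q p r) ∧
  (∀ p q r, IsY h1 p q r → IsY (fun q r => h1 r q) p r q)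

/-- **StCap.** The arrays of a member of the class satisfy Cap.

Proof. Two natural numbers a, b are equal if for all r: r < a iff r < b (eq_of_forall_lt_iff).
h3: let 0 < h3 p q. By e13 and s1, for all r: r < h3 p q iff q < h2 p 0 ∧ r < h3 p 0 ∧ r < h3 0 q ∧
¬ (c1 ≤ p ∧ c2 ≤ q ∧ c3 ≤ r); r = 0 gives q < h2 p 0. So in the block (c1 ≤ p ∧ c2 ≤ q):
r < h3 p q iff r < h3 p 0 ∧ r < h3 0 q ∧ r < c3, and outside the block: iff r < h3 p 0 ∧ r < h3 0 q.
h2: let 0 < h2 p r. q < h2 p r iff q < h2 p 0 ∧ r < h3 p 0 ∧ r < h3 0 q ∧ ¬ (..), and r < h3 0 q iff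
q < h2 0 r; q = 0 gives r < h3 p 0. So h2 p r = min (h2 p 0) (h2 0 r), and if c1 ≤ p ∧ c3 ≤ r the
minimum of this and c2.
h1: let 0 < h1 q r. p < h1 q r iff p < h1 q 0 ∧ p < h1 0 r ∧ r < h3 0 q ∧ ¬ (..) (q < h2 p 0 iff
p < h1 q 0, r < h3 p 0 iff p < h1 0 r); p = 0 gives r < h3 0 q. -/
def StCap : Prop := ∀ (B : ℕ) (h1 h2 h3 : ℕ → ℕ → ℕ) (c1 c2 c3 : ℕ), Cls B h1 h2 h3 c1 c2 c3 →
  Cap h3 c1 c2 c3 ∧ Cap h2 c1 c3 c2 ∧ Cap h1 c2 c3 c1

/-- **StALa.** The main injection. (nm x abbreviates: h (x.1+1) x.2 = h x.1 x.2 or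
h x.1 (x.2+1) = h x.1 x.2.)

Proof. Let R := inR h ci cj ck and let U be the set of the x in range B × range B with nm x and
2 ≤ h x (the right hand side is the sum of h over U). We exhibit pairwise disjoint subsets of U.

S1, the image of the shift. Let T be the set of the x with 2 ≤ h (x.1+1) (x.2+1) and
¬ R (x.1+1) (x.2+1); write p = x.1+1, q = x.2+1. Put φ x := (p-1, q) if h 0 q ≤ h p 0 and
φ x := (p, q-1) otherwise.
(a) h p q = min (h p 0) (h 0 q): outside the block this is Cap. In the block, since ¬ R p q and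
h p q > 0, one of h p 0, h 0 q is ≤ ck, so the minimum with ck changes nothing.
(b) If h 0 q ≤ h p 0 then h p q = h 0 q, and h (p-1) q = h 0 q as well: h (p-1) q ≥ h p q = h 0 q by
monotonicity and h (p-1) q ≤ h 0 q by monotonicity. So h (φ x) = h p q and φ x ∈ U (the
next entry in direction 1 is equal). Similarly in the other case: h p 0 < h 0 q, h p q = h p 0, and
h p q ≤ h p (q-1) ≤ h p 0.
(c) φ is injective on T: if φ x = φ y with the same rule then x = y. If (a,b) = φ x by the first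
rule (x+1 = (a+1,b), h 0 b ≤ h (a+1) 0) and (a,b) = φ y by the second rule (y+1 = (a,b+1),
h a 0 < h 0 (b+1)), then h 0 b ≤ h (a+1) 0 ≤ h a 0 < h 0 (b+1) ≤ h 0 b, absurd.
So ∑ over T of h (x.1+1) (x.2+1) = ∑ over S1 := φ(T) of h.

S2 := {x : nm x, 2 ≤ h x, R x}. S1 ∩ S2 = ∅: if (p-1,q) ∈ R by the first rule, then ck < h 0 q ≤ h p 0,
ci ≤ p-1 ≤ p, cj ≤ q, h p q > 0, so R p q, absurd; if (p,q-1) ∈ R by the second rule, then
ck < h p 0 < h 0 q, ci ≤ p, cj ≤ q-1 ≤ q, so R p q, absurd.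

S4 := {(p+1,0) : h (p+1) 1 ≤ 1, h (p+2) 0 = h (p+1) 0, 2 ≤ h (p+1) 0}: the sum of h over S4 is nd1. In
U. Not in S2 (cj ≥ 1). Not in S1: (p+1,0) = φ x by the first rule needs q = 0, but q = x.2+1 ≥ 1; by
the second rule x+1 = (p+1,1) and h (p+1) 1 ≥ 2, absurd.
S5 := {(0,q+1) : ..}: symmetric (sum nd2; (0,q+1) = φ x by the first rule means x+1 = (1,q+1) and
h 1 (q+1) ≥ 2, absurd; the second rule has first coordinate p ≥ 1).
S6 := {(0,0)} if h 1 0 = h 0 0 or h 0 1 = h 0 0, else empty: sum org (h 0 0 ≥ 2, so it is in U). Not in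
S1 (the targets (p-1,q), (p,q-1) have a coordinate ≥ 1 since p,q ≥ 1: q ≥ 1 resp. p ≥ 1).
S7: for each r counted in dnv let a(r) be the largest a with h a r = h 0 r (it exists: a = 0 works
and h vanishes from B-1 on while h 0 r ≥ h 1 r ≥ 2). The point (a(r), r) is in U: 2 ≤ h 0 r =
h (a r) r, and h a (r+1) = h a r because the rows r and r+1 are equal. Its value is ≥ 2. Not in S1:
first rule: x+1 = (a+1,r), h (a+1) r = h a r = h 0 r contradicts the choice of a; second rule: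
x+1 = (a, r+1), a ≥ 1, h a 0 < h 0 (r+1) = h 0 r (rows equal, at p = 0), but h 0 r = h a r ≤ h a 0,
absurd. Not in S2: r < cj. Not in S4, S6: r ≥ 1. Not in S5: if a(r) = 0 then S5 would need
h 1 r ≤ 1, but h 1 r ≥ 2. Different r give different points. So the sum of h over S7 is ≥ 2 dnv.
S4, S5, S6 are disjoint from each other and from S2 (R needs both coordinates ≥ 1).
Adding up: the sum over U is at least the sum over the disjoint union. (All points are in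
range B × range B by Ar: h ≠ 0 implies p+1 < B and q+1 < B.) -/
def StALa : Prop := ∀ (B : ℕ) (h : ℕ → ℕ → ℕ) (ci cj ck : ℕ), Ar B h → 1 ≤ ci → 1 ≤ cj → 1 ≤ ck →
  2 ≤ h 0 0 → Cap h ci cj ck →
  (∑ x ∈ (range B ×ˢ range B).filter
      (fun x => 2 ≤ h (x.1 + 1) (x.2 + 1) ∧ ¬ inR h ci cj ck (x.1 + 1) (x.2 + 1)),
      h (x.1 + 1) (x.2 + 1)) +
  (∑ x ∈ (range B ×ˢ range B).filter
      (fun x => (h (x.1 + 1) x.2 = h x.1 x.2 ∨ h x.1 (x.2 + 1) = h x.1 x.2) ∧ 2 ≤ h x.1 x.2 ∧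
        inR h ci cj ck x.1 x.2), h x.1 x.2) +
  nd1 B h + nd2 B h + org h + 2 * dnv B h cj ≤
  ∑ x ∈ (range B ×ˢ range B).filter
      (fun x => (h (x.1 + 1) x.2 = h x.1 x.2 ∨ h x.1 (x.2 + 1) = h x.1 x.2) ∧ 2 ≤ h x.1 x.2),
      h x.1 x.2

/-- **StALb.** The points of the cap region.

Proof. Let R := inR h ci cj ck. On R the entry is h = min (min (h p 0) (h 0 q)) ck = ck (Cap in the
block). If ck = 1 then the left hand side is an empty sum (2 ≤ h fails on R). Let ck ≥ 2. The map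
x ↦ (x.1+1, x.2+1) is a bijection from the index set of the left hand side to the set R' of all points
of R in range B × range B (both coordinates of a point of R are ≥ 1, and < B - 1), so the left hand side
is ck * |R'|. A point x of R' with R (x.1+1) x.2 or R x.1 (x.2+1) satisfies nm x, because both entries
are ck; so all points of R' other than the rr points counted in rr belong to the index set of the
sum on the right, each with the value ck. So |R'| ≤ rr + (number of these), multiply by ck. -/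
def StALb : Prop := ∀ (B : ℕ) (h : ℕ → ℕ → ℕ) (ci cj ck : ℕ), Ar B h → 1 ≤ ci → 1 ≤ cj → 1 ≤ ck →
  Cap h ci cj ck →
  (∑ x ∈ (range B ×ˢ range B).filter
      (fun x => 2 ≤ h (x.1 + 1) (x.2 + 1) ∧ inR h ci cj ck (x.1 + 1) (x.2 + 1)),
      h (x.1 + 1) (x.2 + 1)) ≤
  (∑ x ∈ (range B ×ˢ range B).filter
      (fun x => (h (x.1 + 1) x.2 = h x.1 x.2 ∨ h x.1 (x.2 + 1) = h x.1 x.2) ∧ 2 ≤ h x.1 x.2 ∧
        inR h ci cj ck x.1 x.2), h x.1 x.2) + loss B h ci cj ck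

/-- **StALc.** The array lemma.

Proof. Split by the size of the entry. intS B h = ∑ over {2 ≤ h(x+1), not R} + ∑ over {2 ≤ h(x+1), R}
+ #{x : h(x+1) = 1} (entries 0 contribute nothing; x+1 means (x.1+1, x.2+1)). NMs B h = ∑ over
{nm x, 2 ≤ h x} of h + #{x : nm x, h x = 1}. By StALa and StALb it remains to show
#{x : h(x+1) = 1} + one1 + one2 ≤ #{x : nm x, h x = 1} + mx1.
The right hand side is ≥ #{x ∈ range B × range B : h x = 1}: if h x = 1 and not nm x, then both next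
entries are ≤ 1 (monotone) and ≠ 1, so they are 0 and x is counted in mx1. The left hand side
counts disjoint subsets of {x : h x = 1}: the points (x.1+1,x.2+1) with entry 1, the points
(p+1, 0) with entry 1, the points (0, q+1) with entry 1; they are in range B × range B because
the entry is not 0. -/
def StALc : Prop := StALa → StALb → ∀ (B : ℕ) (h : ℕ → ℕ → ℕ) (ci cj ck : ℕ), Ar B h →
  1 ≤ ci → 1 ≤ cj → 1 ≤ ck → 2 ≤ h 0 0 → Cap h ci cj ck →
  intS B h + one1 B h + one2 B h + nd1 B h + nd2 B h + org h + 2 * dnv B h cj ≤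
    NMs B h + mx1 B h + loss B h ci cj ck

/-- **StMx.** The entries 1 with both neighbours 0.

Proof. Let x = (p,q) be counted in mx1 B h3: h3 p q = 1, h3 (p+1) q = 0, h3 p (q+1) = 0.
p = q = 0 is impossible (h3 0 0 ≥ 2).
q = 0, p ≥ 1: 0 < h3 p 0 gives p < h1 0 0; h3 (p+1) 0 = 0 gives ¬ p+1 < h1 0 0; so p = h1 0 0 - 1.
h3 p 1 = 0 gives ¬ p < h1 1 0, ¬ 1 < h3 p 0 gives ¬ p < h1 0 1. So h1 1 0 ≤ p < h1 0 0 and
h1 0 1 ≤ p < h1 0 0: the first if is 1, and there is at most one such point.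
p = 0, q ≥ 1: in the same way q = h2 0 0 - 1, h2 1 0 ≤ q (¬ q < h2 1 0, since h3 1 q = 0),
h2 0 1 ≤ q (¬ 1 < h3 0 q, which is equivalent to ¬ 0 < h1 q 1 and to ¬ q < h2 0 1).
p, q ≥ 1: 0 < h3 p q gives q < h2 p 0, h3 p (q+1) = 0 gives ¬ q+1 < h2 p 0, so s p := h2 p 0 = q+1 ≥ 2;
h3 (p+1) q = 0 gives ¬ q < h2 (p+1) 0, so h2 (p+1) 0 ≤ q < h2 p 0: p is a corner of the face,
q = s p - 1 and h3 p (s p - 1) = 1. The map (p,q) ↦ p is injective on these. -/
def StMx : Prop := ∀ (B : ℕ) (h1 h2 h3 : ℕ → ℕ → ℕ), PP B h1 h2 h3 →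
  mx1 B h3 ≤ unc B h3 (fun p => h2 p 0) +
    (if h1 1 0 < h1 0 0 ∧ h1 0 1 < h1 0 0 then 1 else 0) +
    (if h2 1 0 < h2 0 0 ∧ h2 0 1 < h2 0 0 then 1 else 0)

/-- **StOne.**

Proof. h3 (p+1) 0 = 1 iff 0 < h3 (p+1) 0 and not 1 < h3 (p+1) 0 iff p+1 < h1 0 0 and not
p+1 < h1 0 1. h1 0 1 ≥ 1 because 0 < h1 0 1 iff 1 < h3 0 0 (n3). h1 0 1 ≤ h1 0 0 ≤ B. So the number
is h1 0 0 - h1 0 1. The same for one2 with h2: 0 < h3 0 (q+1) iff q+1 < h2 0 0 and
1 < h3 0 (q+1) iff 0 < h1 (q+1) 1 iff q+1 < h2 0 1; 1 ≤ h2 0 1 since 0 < h2 0 1 iff 0 < h1 0 1. -/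
def StOne : Prop := ∀ (B : ℕ) (h1 h2 h3 : ℕ → ℕ → ℕ), PP B h1 h2 h3 →
  one1 B h3 + h1 0 1 = h1 0 0 ∧ one2 B h3 + h2 0 1 = h2 0 0

/-- **StNd.**

Proof. First inequality. Let 1 ≤ p ≤ h1 0 1 - 1. Then p < h1 0 1, so 1 < h3 p 0. Either
p ≤ h1 1 1 - 1, or p > h1 1 1 - 1; in the second case not p < h1 1 1 (if h1 1 1 ≥ 1 this is clear; if
h1 1 1 = 0 too), so not 1 < h3 p 1, i.e. h3 p 1 ≤ 1. If moreover h3 (p+1) 0 = h3 p 0 then p - 1 is an
index of nd1 with a contribution h3 p 0 ≥ 2 ≥ 1; otherwise h3 (p+1) 0 < h3 p 0 and p is a corner of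
(fun p => h3 p 0) with h1 1 1 - 1 < p. So the h1 0 1 - 1 numbers p are distributed over three sets
of sizes ≤ h1 1 1 - 1, ≤ nd1, ≤ dd. (nd1 is at least the number of its indices with nonzero
contribution.) Second inequality: the same with q, h2 0 1 (q < h2 0 1 iff 1 < h3 0 q),
h2 1 1 (q < h2 1 1 iff 1 < h3 1 q). -/
def StNd : Prop := ∀ (B : ℕ) (h1 h2 h3 : ℕ → ℕ → ℕ), PP B h1 h2 h3 →
  h1 0 1 - 1 ≤ nd1 B h3 + (h1 1 1 - 1) + dd B (fun p => h3 p 0) (h1 1 1 - 1) ∧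
  h2 0 1 - 1 ≤ nd2 B h3 + (h2 1 1 - 1) + dd B (fun q => h3 0 q) (h2 1 1 - 1)

/-- **StEq.** The upper bound for m - N.

Proof. Apply StALc (with StALa, StALb) to h3 with the cap (c1,c2,c3), to h2 with (c1,c3,c2), to h1
with (c2,c3,c1) (StCap, StAr), and add. Apply StMx, StOne, StNd, StInt to the three orders of the
coordinates: to (h1,h2,h3); to (h1ᵀ, h3, h2), that is PP B (fun q r => h1 r q) h3 h2; and to
(h2ᵀ, h3ᵀ, h1), that is PP B (fun q r => h2 r q) (fun p q => h3 q p) h1 (these are PP by e12, e13: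
p < h2 r q iff r < h1 p q .. unfold). With A_i := h_i 0 0 - 1, w12 = h1 1 0 - 1, etc. this gives:
intS h3 = a12 + bk, intS h2 = a13 + bk, intS h1 = a23 + bk (StBk);
one1 h3 = A1 - w13, one2 h3 = A2 - w23, one1 h2 = A1 - w12, one2 h2 = A3 - w32, one1 h1 = A2 - w21,
one2 h1 = A3 - w31;
nd1 h3 ≥ w13 - u1 - d13, nd2 h3 ≥ w23 - u2 - d23, nd1 h2 ≥ w12 - u1 - d12, nd2 h2 ≥ w32 - u3 - d32,
nd1 h1 ≥ w21 - u2 - d21, nd2 h1 ≥ w31 - u3 - d31;
mx1 h3 ≤ x12 + f1 + f2, mx1 h2 ≤ x13 + f1 + f3, mx1 h1 ≤ x23 + f2 + f3, where f_i = 1 if W_i < A_i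
and 0 otherwise (W1 = max w12 w13 etc.; h1 1 0 < h1 0 0 iff w12 < A1, because h1 1 0 ≥ 1: 0 < h1 1 0 iff
1 < h2 0 0);
org h_i = A_i + 1 if W_i = A_i (W_i ≤ A_i always; equality iff h1 1 0 = h1 0 0 or h1 0 1 = h1 0 0), else 0.
So N = ∑ NMs ≥ ∑ a + 3 bk + (2 ∑ A - ∑ w) + (∑ w - 2 ∑ u - ∑ d) + ∑ (1 - f_i)(A_i + 1) + 2 dn - ∑ x -
2 ∑ f_i - L (the dnv of h2, h3 are dropped), and m = 1 + ∑ A + ∑ a + bk (StCard), so
m - N ≤ 1 - ∑ A - 2 bk + 2 ∑ u + ∑ d + ∑ x + L - 2 dn + ∑ (2 f_i - (1 - f_i)(A_i + 1)).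
The last sum is ∑ fl. (One may first prove a version for each array and then use omega or linarith.) -/
def StEq : Prop := StAr → StVol → StBk → StInt → StCard → StCap → StALc → StALa → StALb → StMx →
  StOne → StNd → ∀ (B : ℕ) (h1 h2 h3 : ℕ → ℕ → ℕ) (c1 c2 c3 κ : ℕ), Cls B h1 h2 h3 c1 c2 c3 →
  ((dat B h1 h2 h3 c1 c2 c3 κ).m : ℤ) - (dat B h1 h2 h3 c1 c2 c3 κ).N ≤
    1 - (((dat B h1 h2 h3 c1 c2 c3 κ).A1 : ℤ) + (dat B h1 h2 h3 c1 c2 c3 κ).A2 +
      (dat B h1 h2 h3 c1 c2 c3 κ).A3) + X0 (dat B h1 h2 h3 c1 c2 c3 κ) +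
    (fl (dat B h1 h2 h3 c1 c2 c3 κ).A1 (W1 (dat B h1 h2 h3 c1 c2 c3 κ)) +
      fl (dat B h1 h2 h3 c1 c2 c3 κ).A2 (W2 (dat B h1 h2 h3 c1 c2 c3 κ)) +
      fl (dat B h1 h2 h3 c1 c2 c3 κ).A3 (W3 (dat B h1 h2 h3 c1 c2 c3 κ)))

/-! ## Faces -/

/-- **StTr.** A region and its transpose: area, corners.

Proof. Area: both sides count the pairs (p,q) with p,q ≥ 1 and q < s p: ar B s = ∑ p ∈ range B,
#{q ∈ range B : q+1 < s (p+1)} (since s (p+1) - 1 ≤ B) and q+1 < s (p+1) iff p+1 < t (q+1); exchange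
the sums. Corners: the map p ↦ s p - 1 is a bijection from cor B s to cor B t with inverse
q ↦ t q - 1. Indeed let p ∈ cor B s, q := s p - 1 ≥ 1. q < s p gives p < t q. s (p+1) ≤ q gives
¬ p+1 < t q, so t q = p+1 ≥ 2. ¬ q+1 < s p gives ¬ p < t (q+1), so t (q+1) ≤ p < t q. So
q ∈ cor B t (q < B by Sq) and t q - 1 = p. Symmetric for the inverse. Under this bijection the
condition v < s p - 1 becomes v < q. (Finset.card_bij or card_nbij'.) -/
def StTr : Prop := ∀ (B : ℕ) (s t : ℕ → ℕ), Sq B s → Sq B t → Cj s t →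
  ar B s = ar B t ∧ (cor B s).card = (cor B t).card ∧
  (∀ v, ((cor B s).filter (fun p => v < s p - 1)).card = dd B t v) ∧
  (∀ u v, kk B s u v = kk B t v u)

/-- **StAr1.** Lower bound for the area by the widths and the number of corners.

Proof. For p ≥ 1 let C(p) be the statement, for the tail from p on: if s p ≥ 2 then
2 (w_p + (s p - 1)) + e_p² ≤ 2 A_p + 3 e_p, where w_p = #{p' ≥ p : s p' ≥ 2}, e_p = #{p' ∈ cor B s :
p' ≥ p}, A_p = ∑ over p' ≥ p of (s p' - 1) (all inside range B). Also e_p ≤ s p - 1 (the numbers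
s p' - 1, p' ∈ cor, p' ≥ p, are distinct, ≥ 1 and ≤ s p - 1; or by the same induction). Induction
downwards. If s (p+1) ≤ 1: then w_p = 1, e_p = 1 (p is a corner), A_p = s p - 1, and
2 (1 + s p - 1) + 1 = 2 (s p - 1) + 3. If s (p+1) ≥ 2 and p is not a corner (s (p+1) = s p):
w = w' + 1, e = e', A = A' + s p - 1, and C(p+1) gives
2 A + 3 e ≥ 2 w' + 2 (s p - 1) + e² + 2 (s p - 1) ≥ 2 (w' + 1) + 2 (s p - 1) + e². If p is a corner:
e = e' + 1, e' ≤ s (p+1) - 1, so 2 A + 3 e = 2 A' + 3 e' + 2 (s p - 1) + 3 ≥ 2 w' + 2 (s (p+1) - 1) + e'² +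
2 (s p - 1) + 3 ≥ 2 w' + 2 e' + e'² + 3 + 2 (s p - 1) = 2 (w' + 1) + 2 (s p - 1) + e².
C(1) is the claim if s 1 ≥ 2, because w_1 = t 1 - 1 (1 < s p iff p < t 1). If s 1 ≤ 1 then both sides
are 0 (t 1 ≤ 1). -/
def StAr1 : Prop := ∀ (B : ℕ) (s t : ℕ → ℕ), Sq B s → Sq B t → Cj s t →
  2 * ((t 1 - 1) + (s 1 - 1)) + (cor B s).card * (cor B s).card ≤ 2 * ar B s + 3 * (cor B s).card

/-- **StAr2.** More on the number of corners.

Proof. Let C = cor B s, e = |C|. C ⊆ [1, t 1 - 1] (2 ≤ s p iff p < t 1), so e ≤ t 1 - 1; by StTr applied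
to (t,s) also e ≤ s 1 - 1. If t 1 ≥ 2 then p := t 1 - 1 ≥ 1 satisfies 1 < s p and ¬ 1 < s (p+1), so it is
a corner; if s 1 ≥ 2 then 1 < t 1, the same. e² + e ≤ 2 ar: with the notation of StAr1,
e_p (e_p + 1) ≤ 2 A_p by downward induction: at a corner e = e' + 1 and s p - 1 ≥ e
(e_p ≤ s p - 1), so 2 A = 2 A' + 2 (s p - 1) ≥ e' (e' + 1) + 2 (e' + 1) = e (e + 1). -/
def StAr2 : Prop := StTr → ∀ (B : ℕ) (s t : ℕ → ℕ), Sq B s → Sq B t → Cj s t →
  (cor B s).card * (cor B s).card + (cor B s).card ≤ 2 * ar B s ∧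
  (cor B s).card ≤ t 1 - 1 ∧ (cor B s).card ≤ s 1 - 1 ∧
  (2 ≤ t 1 → 1 ≤ (cor B s).card) ∧ (2 ≤ s 1 → 1 ≤ (cor B s).card)

/-- **StG.** A point (p,q) of the region with both coordinates positive is far from (t 1 - 1, s 1 - 1)
if there are many corners.

Proof. The corners p' ≥ p lie in [p, t 1 - 1] (2 ≤ s p' iff p' < t 1): at most t 1 - p of them
(p ≤ t 1 - 1 since s p ≥ q+1 ≥ 2). For a corner p' < p: s p ≤ s (p'+1) < s p', so
s p' - 1 ≥ s p ≥ q+1 and s p' - 1 ≤ s 1 - 1, and the values s p' - 1 of different corners are different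
(if p' < p'' are corners then s p'' ≤ s (p'+1) < s p'): at most s 1 - 1 - q of them. Total
e ≤ (t 1 - p) + (s 1 - 1 - q). -/
def StG : Prop := ∀ (B : ℕ) (s t : ℕ → ℕ), Sq B s → Sq B t → Cj s t →
  ∀ p q, 1 ≤ p → 1 ≤ q → q < s p → p + q + (cor B s).card + 1 ≤ s 1 + t 1

/-- **StDD.** Corners beyond a bound.

Proof. Corners are in [1, t 1 - 1]. Those > u are in (u, t 1 - 1], at most t 1 - 1 - u of them if
u ≤ t 1 - 1. Those ≤ u are in [1,u]. The statements on kk: the filter with an or is contained in the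
union of the two filters and contains both. -/
def StDD : Prop := ∀ (B : ℕ) (s t : ℕ → ℕ), Sq B s → Sq B t → Cj s t → ∀ u v,
  (u ≤ t 1 - 1 → u + dd B s u ≤ t 1 - 1) ∧ (cor B s).card ≤ dd B s u + u ∧
  dd B s u ≤ kk B s u v ∧ kk B s u v ≤ (cor B s).card ∧
  ((cor B s).filter (fun p => v < s p - 1)).card ≤ kk B s u v ∧
  kk B s u v ≤ dd B s u + ((cor B s).filter (fun p => v < s p - 1)).card

/-- **StKm.** κ is at most the number of points.

Proof. By StCard vol = 1 + A1 + A2 + A3 + a12 + a13 + a23 + bk with A_i = h_i 0 0 - 1 ≥ 1. Take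
(p,q,r) with p < h1 q r and p+q+r+3 = κ. By monotonicity (StAr) p ≤ A1, q ≤ A2, r ≤ A3. If at most
one of p, q, r is positive, say p: κ = p+3 ≤ A1 + 3 ≤ 1 + A1 + A2 + A3. If exactly two are positive, say
p, q ≥ 1, r = 0: κ ≤ A1 + A2 + 3 ≤ 1 + A1 + A2 + A3 + a12, as a12 = ar B (fun p => h2 p 0) ≥ h2 1 0 - 1 ≥ 1
(1 < h2 1 0 because (1,1,0) is in D). Similarly for the other pairs: p, r ≥ 1: 1 < h3 1 0, a13 ≥ 1;
q, r ≥ 1: 1 < h3 0 1, a23 ≥ 1. If all three are positive then a12, a13 ≥ 1 and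
κ ≤ A1 + A2 + A3 + 3. -/
def StKm : Prop := StAr → StInt → StCard → ∀ (B : ℕ) (h1 h2 h3 : ℕ → ℕ → ℕ) (κ : ℕ),
  PP B h1 h2 h3 → IsK h1 κ → κ ≤ vol B h3

/-- **StYex.** Existence of a largest point.

Proof. The set of the (p,q,r) in range B × range B × range B with p < h1 q r and Two p q r is finite and not
empty: it contains (1,1,0) or (1,0,1) or (0,1,1) (1 < h1 1 0; 1 < h1 0 1; 1 < h2 0 1 iff 0 < h1 1 1).
Finset.exists_max_image; every (p',q',r') with p' < h1 q' r' is in the box by bd. -/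
def StYex : Prop := ∀ (B : ℕ) (h1 h2 h3 : ℕ → ℕ → ℕ), PP B h1 h2 h3 →
  (2 ≤ h1 1 0 ∨ 2 ≤ h1 0 1 ∨ 2 ≤ h2 0 1) → ∃ p q r, IsY h1 p q r

/-- **StYo.** The facts on the largest point, s := p+q+r.

Proof. s ≥ 2 by Two. κ: κ is the maximum of p'+q'+r'+3 over the points. A point is either Two, and then has
sum ≤ s, or has at most one positive coordinate; a point (a,0,0) has a ≤ A1 := h1 0 0 - 1, and (A1,0,0) is a
point; similarly for the other axes ((0,b,0) is a point iff b < h2 0 0, (0,0,c) iff c < h3 0 0). So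
κ ≥ s + 3 and κ ≥ A_i + 3, and κ is equal to s + 3 or to some A_i + 3 (take the point which attains κ); if
κ ≠ s + 3 then κ > s + 3, so s < A_i for this i. w12 + 1 ≤ s: if h1 1 0 ≤ 1 then w12 = 0 and 1 ≤ s; else
(h1 1 0 - 1, 1, 0) is a point with two positive coordinates and sum w12 + 1. In the same way
w13: (h1 0 1 - 1, 0, 1); w21: (1, h2 1 0 - 1, 0); w23: (0, h2 0 1 - 1, 1); w31: (1, 0, h3 1 0 - 1);
w32: (0, 1, h3 0 1 - 1). (Use e12, e13 to translate into p < h1 q r.) -/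
def StYo : Prop := ∀ (B : ℕ) (h1 h2 h3 : ℕ → ℕ → ℕ) (c1 c2 c3 κ p q r : ℕ),
  PP B h1 h2 h3 → IsK h1 κ → IsY h1 p q r → Yo (dat B h1 h2 h3 c1 c2 c3 κ) (p + q + r)

end Pool.Agent.Helper21.W4
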