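import Pool.Agent.Helper21.W4.Defs

/-!
# Wilf in embedding dimension four: statements, part 3 (inequalities for numbers)

Good Z V : Z ≤ 0 ∨ Z ^ 2 ≤ 18 * V. Remark used throughout: if Z ≤ Y with Y ≥ 0 and Y² ≤ 18 V then
Good Z V (either Z ≤ 0 or Z² ≤ Y²).
-/

set_option autoImplicit false

namespace Pool.Agent.Helper21.W4

open Finset

/-- **StNmono.** Proof. If Z' > 0 then Z > 0 and Z'² ≤ Z² ≤ 18 V ≤ 18 V'. -/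
def StNmono : Prop := ∀ Z V Z' V' : ℤ, Good Z V → Z' ≤ Z → V ≤ V' → Good Z' V'

/-- **StNnf.** Proof. k = 0: StNmono. Let Z' > 0, so Zp > 3k, Zp² ≤ 18 Vp and Z'² ≤ (Zp - 3k)² =
Zp² - 6 k Zp + 9 k². k = 1: if Zp = 4 then Z' = 1 and 1 ≤ 18 (Vp - 1); if Zp ≥ 5 then
Z'² ≤ 18 Vp - 30 + 9 ≤ 18 (Vp - 1). k = 2: Zp ≥ 7, Z'² ≤ 18 Vp - 84 + 36 ≤ 18 (Vp - 2). k = 3: Zp ≥ 10,
Z'² ≤ 18 Vp - 180 + 81 ≤ 18 (Vp - 3). -/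
def StNnf : Prop := ∀ Zp Vp Z' V' k : ℤ, Good Zp Vp → 2 ≤ Vp → 0 ≤ k → k ≤ 3 → Z' ≤ Zp - 3 * k →
  Vp - k ≤ V' → Good Z' V'

/-- **StNeps.** Proof. If Z' > 0 and Z ≤ 0 then Z' ≤ 2, Z'² ≤ 4 ≤ 18 (V + 6). If Z > 0:
Z'² ≤ (Z+2)² = Z² + 4 Z + 4 ≤ 18 V + 108. -/
def StNeps : Prop := ∀ Z V Z' V' : ℤ, Good Z V → Z ≤ 26 → -5 ≤ V → Z' ≤ Z + 2 → V + 6 ≤ V' →
  Good Z' V'

/-- **StNstar.** Proof. Write Z = Zx x, V = Vx x, κ = x.κ. TgtN x says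
κ (2 (Z - κ + 4) + 1) ≤ 9 (V + κ), i.e. 2 κ (Z - κ) ≤ 9 V. V ≥ 0 by Base.km. If Z ≤ 0 the left
side is ≤ 0. Otherwise 2 κ (Z - κ) ≤ Z²/2 ≤ 9 V, because (Z - 2κ)² ≥ 0. -/
def StNstar : Prop := ∀ x : Dat, Base x → Good (Zx x) (Vx x) → TgtN x

/-- **StNzv.** The bounds for Z and V.

Proof. Linear arithmetic with case distinctions (omega after unfolding): put W_i for W1 x etc.,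
g = W1 + W2 + W3 - s, n_i = nf A_i W_i. From Base: Zx x ≤ 1 - ∑ A_i + X0 x + ∑ fl A_i W_i + κ - 4,
Vx x = 1 + ∑ A_i + ∑ a + bk - κ, and W_i ≤ A_i, W_i + 1 ≤ s (maxima of w's).
fl A_i W_i = 2 with A_i ≥ W_i + 1 if n_i = 0, and fl A_i W_i = -(A_i + 1) with A_i = W_i if n_i = 1.
Case κ = s + 3: Zx ≤ X0 - ∑ A_i + s + ∑ fl ≤ X0 - g + ∑ (n_i = 0 : 1; n_i = 1 : -(W_i + 1)) =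
3 - g + X0 - ∑ n_i (W_i + 2); Vx = ∑ A_i - s - 2 + ∑ a + bk ≥ g + ∑ (1 - n_i) - 2 + ∑ a + bk.
Case κ = A_1 + 3, s < A_1: then W_1 < s < A_1, so n_1 = 0, and
Zx ≤ X0 - A_2 - A_3 + 2 + fl A_2 W_2 + fl A_3 W_3 ≤ X0 - W_2 - W_3 + 2 + ∑ over i = 2,3 of (1 or -(W_i + 1)), and
- W_2 - W_3 ≤ - g - 1 because W_1 + 1 ≤ s; Vx = A_2 + A_3 - 2 + ∑ a + bk ≥ W_2 + W_3 + ∑ over i = 2,3 of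
(1 - n_i) - 2 + ∑ a + bk, and W_2 + W_3 ≥ g + 1. The other two cases are the same. -/
def StNzv : Prop := ∀ (x : Dat) (s : ℕ), Base x → Yo x s →
  Zx x ≤ 3 - (((W1 x : ℤ) + W2 x + W3 x) - s) + X0 x - nf x.A1 (W1 x) * ((W1 x : ℤ) + 2) -
    nf x.A2 (W2 x) * ((W2 x : ℤ) + 2) - nf x.A3 (W3 x) * ((W3 x : ℤ) + 2) ∧
  (((W1 x : ℤ) + W2 x + W3 x) - s) + 1 + x.a12 + x.a13 + x.a23 + x.bk - nf x.A1 (W1 x) -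
    nf x.A2 (W2 x) - nf x.A3 (W3 x) ≤ Vx x

/-! ## Pure inequalities -/

/-- **StN1.** Proof. Let Y = 4 + 2 (e+f) and S = e+f ≥ 1. 18 V ≥ 18 S + 9 (e²+e) + 9 (f²+f) =
27 S + 9 (e² + f²) ≥ 27 S + 4.5 S² and Y² = 16 + 16 S + 4 S². For S ≥ 2 the difference
11 S + 0.5 S² - 16 is ≥ 8. For S = 1: e² + f² = 1 and 27 + 9 = 36 = Y². -/
def StN1 : Prop := ∀ e f Z V a b : ℤ, 1 ≤ e → 0 ≤ f → e * e + e ≤ 2 * a → f * f + f ≤ 2 * b →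
  Z ≤ 4 + 2 * (e + f) → e + f + a + b ≤ V → Good Z V

/-- **StN01b.** Proof. Y = 7 + S, S = k1+k2+k3. 18 V ≥ 36 + 18 S + ∑ φ(k_i), where
φ(k) = 18 max(1, (k²+k)/2) is 18 for k = 0 and ≥ 9 k² + 9 k for k ≥ 1. If S = 0: 36 + 54 = 90 ≥ 49. If
S ≥ 1: with j the number of zeros among the k_i, 18 V - Y² ≥ 36 + 18 S + 9 ∑ k² + 9 S + 18 j - 49 - 14 S - S²
= -13 + 13 S + (9 ∑ k² - S²) + 18 j ≥ 0, because S² ≤ 3 ∑ k². -/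
def StN01b : Prop := ∀ k1 k2 k3 a1 a2 a3 Z V : ℤ, 0 ≤ k1 → 0 ≤ k2 → 0 ≤ k3 →
  1 ≤ a1 → 1 ≤ a2 → 1 ≤ a3 → k1 * k1 + k1 ≤ 2 * a1 → k2 * k2 + k2 ≤ 2 * a2 →
  k3 * k3 + k3 ≤ 2 * a3 → Z ≤ 7 + k1 + k2 + k3 → 2 + k1 + k2 + k3 + a1 + a2 + a3 ≤ V → Good Z V

/-- **StN01f.** Proof. Y = 7 + 2e + M, M = k2 + k3. 18 V ≥ 36 + 18 M + 18 e + 9 (e²+e) + φ(k2) + φ(k3), φ as in
StN01b. 18 V - Y² ≥ -13 + 4 M - e + 5 e² - 4 e M - M² + φ(k2) + φ(k3).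
If k2, k3 ≥ 1: φ + φ ≥ 9 (k2² + k3²) + 9 M ≥ 4.5 M² + 9 M, so it is ≥ 13 (M - 1) + (5 e² - e - 4 e M + 3.5 M²), and
3.5 M² - 4 e M ≥ -(8/7) e², 5 e² - (8/7) e² - e ≥ 0.
If k3 = 0, k2 = M ≥ 1: φ + φ ≥ 9 M² + 9 M + 18: it is ≥ 5 + 13 M - e + 5 e² - 4 e M + 8 M² ≥ 0. Symmetric for
k2 = 0. If M = 0: 23 - e + 5 e² ≥ 0. -/
def StN01f : Prop := ∀ e k2 k3 a1 a2 a3 Z V : ℤ, 1 ≤ e → 0 ≤ k2 → 0 ≤ k3 →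
  1 ≤ a2 → 1 ≤ a3 → e * e + e ≤ 2 * a1 → k2 * k2 + k2 ≤ 2 * a2 → k3 * k3 + k3 ≤ 2 * a3 →
  Z ≤ 7 + 2 * e + k2 + k3 → 2 + k2 + k3 + e + a1 + a2 + a3 ≤ V → Good Z V

/-- **StN2b.** Proof. Y = 11 + e + M, M = k2 + k3. For all natural numbers k: 18 max(2,(k²+k)/2) ≥ 9 k² - 9 k + 36
(k = 0, 1: 36; k ≥ 2: 18 k ≥ 36).
Case e = 1 or 2: 18 a1 ≥ 54 ≥ 9 e² - 27 e + 72 . So 18 V - Y² ≥ 72 + 18 M + 9 e² - 27 e + 72 + 9 (k2² + k3²) - 9 M + 72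
- (11 + e + M)² = 95 - 49 e + 8 e² - 13 M - 2 e M - M² + 9 (k2² + k3²). With 9 (k2²+k3²) ≥ 4.5 M²: for e = 2:
≥ 29 - 17 M + 3.5 M² > 0 (discriminant 289 - 406 < 0); for e = 1: ≥ 54 - 15 M + 3.5 M² > 0.
(If 9 e² - 27 e + 72 ≤ 54 is used: e = 1, 2 both give 54.)
Case e ≥ 3: 18 a1 ≥ 9 e² + 9 e: 18 V - Y² ≥ 72 + 18 M + 9 e² + 9 e + 72 - 9 M + 9 (k2²+k3²) - (11 + e + M)² ≥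
23 - 13 e + 8 e² - 13 M - 2 e M + 3.5 M² ≥ 23 - 13 e + 8 e² - (13 + 2e)²/14 ≥ 0 for e ≥ 3. -/
def StN2b : Prop := ∀ e k2 k3 a1 a2 a3 Z V : ℤ, 1 ≤ e → 0 ≤ k2 → 0 ≤ k3 →
  3 ≤ a1 → 2 ≤ a2 → 2 ≤ a3 → e * e + e ≤ 2 * a1 → k2 * k2 + k2 ≤ 2 * a2 → k3 * k3 + k3 ≤ 2 * a3 →
  Z ≤ 11 + e + k2 + k3 → 4 + k2 + k3 + a1 + a2 + a3 ≤ V → Good Z V

/-- **StN2f12.** Proof. Y = 11 + D + M, M = k2 + k3. 18 V ≥ 72 + 18 M + 18 e + 9 (8 + 2 D + e² - 3 e) + (36 + 9 k2² - 9 k2)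
+ (36 + 9 k3² - 9 k3) (as in StN2b). 18 V - Y² ≥ 95 - 9 e + 9 e² - 4 D - D² - 13 M - 2 D M - M² + 9 (k2² + k3²) and
9 (k2²+k3²) ≥ 4.5 M². Decreasing in D ≥ 0, D ≤ 2e: ≥ 95 - 17 e + 5 e² - 13 M - 4 e M + 3.5 M². This quadratic
form is positive definite with minimum ≥ 44 (at e = 19/6, M = 11/3). For a computer:
14 (95 - 17 e + 5 e² - 13 M - 4 e M + 3.5 M²) = (7 M - 4 e - 13)² + 54 e² - 342 e + 1161 and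
54 e² - 342 e + 1161 > 0. -/
def StN2f12 : Prop := ∀ e D k2 k3 a1 a2 a3 Z V : ℤ, 1 ≤ e → 0 ≤ D → D ≤ 2 * e → 0 ≤ k2 → 0 ≤ k3 →
  2 ≤ a2 → 2 ≤ a3 → 2 * D + e * e + 8 ≤ 2 * a1 + 3 * e → k2 * k2 + k2 ≤ 2 * a2 →
  k3 * k3 + k3 ≤ 2 * a3 → Z ≤ 11 + D + k2 + k3 → 4 + k2 + k3 + e + a1 + a2 + a3 ≤ V → Good Z V

/-- **StN2f13.** Proof. Y = 10 + D + x + n. 18 V ≥ 90 + 18 n + 18 e + 9 (2 D + e² - 3 e + 6) + 9 (x² + x) + 9 (n² + n).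
18 V - Y² ≥ 44 - 9 e + 9 e² - 2 D - 11 x + 9 x² + 7 n + 9 n² - (D + x + n)². Decreasing in D ≤ 2 e:
≥ 44 - 13 e + 9 e² - 11 x + 9 x² + 7 n + 9 n² - (2e + x + n)², and (2e+x+n)² ≤ (4/0.55) e² + x²/0.225 + n²/0.225
≤ 7.28 e² + 4.45 x² + 4.45 n². So it is ≥ (44 - 13 e + 1.72 e²) + (4.55 x² - 11 x) + 7 n ≥ 19 - 7 + 0 > 0.
(3 ≤ a12 and 2 ≤ a23 are not needed.) -/
def StN2f13 : Prop := ∀ e D x n a13 a12 a23 Z V : ℤ, 1 ≤ e → 0 ≤ D → D ≤ 2 * e → 0 ≤ x → 0 ≤ n →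
  2 * D + e * e + 6 ≤ 2 * a13 + 3 * e → x * x + x ≤ 2 * a12 → n * n + n ≤ 2 * a23 →
  Z ≤ 10 + D + x + n → 5 + n + e + a12 + a13 + a23 ≤ V → Good Z V

/-- **StN3m.** Proof. Let σ = z + z', Y = 12 + θ' + k + y + σ where θ' = max(θ, -σ) (so Z ≤ Y, θ' ≤ σ, and θ' ≤ H as
-σ ≤ 0 ≤ H). 18 V = 9 (2V) ≥ 9 (16 + 4 D + (e² - 3 e + 2) + 6 H + 4 σ + 2 y (H+2) + z² + z'² - σ) ≥
144 + 36 k + 9 (e-1)(e-2) + 54 H + 27 σ + 4.5 σ² + 18 y (H + 2) using D ≥ k, z² + z'² ≥ σ²/2. Put φ = θ' + σ, 0 ≤ φ ≤ 2σ.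
Y² = (12 + k + y + φ)² = 144 + 24 (k + y + φ) + (k + y + φ)², 24 φ ≤ 24 H + 24 σ. So
F := 18 V - Y² ≥ 12 k + 12 y + 18 y H + 30 H + 3 σ + 4.5 σ² + 9 (e-1)(e-2) - (k + y + φ)², and φ ≤ 2σ.
k = 0, y = 0: F ≥ 30 H + 3 σ + 4.5 σ² - 4 σ² ≥ 0.
k = 0, y = 1: F ≥ 48 H + 12 + 3 σ + 4.5 σ² - (2σ+1)² = 48 H + 11 - σ + 0.5 σ² ≥ 0.
k ≥ 1: e ≥ k, (e-1)(e-2) ≥ (k-1)(k-2).
 y = 0: F ≥ 30 H + 18 - 15 k + 3 σ + 4.5 σ² + 9 k² - (k + 2σ)² = 30 H + 18 - 15 k + 3 σ + (σ - 4k)²/2. If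
 k ≤ 2 H + 1 this is ≥ 3. If k ≥ 2 H + 2: σ ≤ 2 H ≤ k - 2, so 4 k - σ ≥ 3 k and F ≥ 18 - 15 k + 4.5 k² > 0.
 y = 1: F ≥ 48 H + 30 - 15 k + 3 σ + 4.5 σ² + 9 k² - (k + 1 + 2σ)² = 48 H + 21 - 33 k + 3 σ + (σ - 4 (k+1))²/2
 (check: 4.5 σ² - 4 σ² - 4 σ (k+1) - (k+1)² + 9 k² + 30 - 15 k = 0.5 (σ - 4(k+1))² - 8 (k+1)² - (k+1)² + 9 k² + 30 - 15 k
 = 0.5 (σ - 4 (k+1))² + 21 - 33 k). With σ ≤ 2 H: 4 (k+1) - σ ≥ 4 (k+1) - 2 H. If k ≤ H then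
 48 H + 21 - 33 k ≥ 0. If k ≥ H + 1: 4(k+1) - 2H ≥ 2 k + 6 > 0 and
 F ≥ 48 H + 21 - 33 k + 2 (2 (k+1) - H)²; for k = H + j, j ≥ 1: = 15 H - 33 j + 21 + 2 (H + 2 j + 2)² ≥
 21 - 33 j + 8 (j+1)² = 29 - 17 j + 8 j² > 0. -/
def StN3m : Prop := ∀ H e k D y z z' θ a Z V : ℤ, 0 ≤ H → 1 ≤ e → 0 ≤ k → k ≤ e → k ≤ D → 0 ≤ y → y ≤ 1 →
  0 ≤ z → z ≤ H → 0 ≤ z' → z' ≤ H → θ ≤ H → θ ≤ z + z' → 2 * D + e * e + 4 ≤ 2 * a + 3 * e →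
  Z ≤ 12 + θ + k + y + z + z' →
  2 * D + 2 * a + 14 + 6 * H + 4 * (z + z') + 2 * y * (H + 2) + (z * z - z) + (z' * z' - z') ≤ 2 * V →
  Good Z V

/-- **StN3f.** Proof. Let δ = D + k - e ≤ 2e (D ≤ 2k, k ≤ e) and δ ≤ D, τ = z + z', q = δ + τ - 3K, so Z ≤ 12 + q.
9 * 2V ≥ 9 (14 + 8 H + 2 e + (2 δ + e² - 3 e + 4) + 4 τ + (τ²/2 - τ) - 2 K) =
162 + 72 H - 9 e + 18 δ + 9 e² + 27 τ + 4.5 τ² - 18 K.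
If q ≤ -3: Z ≤ 9, and V ≥ 5 (2V ≥ 14 + 2e + 2a - 2K ≥ 14 + 2 - 4 because 2a ≥ 2 D + e² - 3e + 4 ≥ 2; so
V ≥ 7 - ..: in any case 2 V ≥ 12), 81 ≤ 108. Let q ≥ -3.
F := 18 V - (12 + q)² ≥ 18 + 72 H + 54 K + 3 τ + 4.5 τ² - 9 e + 9 e² - 6 δ - q². As a function of δ (q = δ + τ - 3K)
-6δ - q² decreases for q ≥ -3, and δ ≤ 2e, so
F ≥ 18 + 72 H + 54 K + 3 τ + 4.5 τ² - 21 e + 9 e² - (2e + τ - 3K)².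
K = 0: = 18 + 72 H + 3 τ + 3.5 τ² - 21 e + 5 e² - 4 e τ, H ≥ e - 1: ≥ 5 e² + 51 e - 54 + 3.5 τ² - 4 e τ ≥
(27/7) e² + 51 e - 54 > 0.
K = 1: = 63 + 72 H + 9 τ + 3.5 τ² - 9 e + 5 e² - 4 e τ ≥ 63 - 9 e + (27/7) e² > 0.
K = 2: = 90 + 72 H + 15 τ + 3.5 τ² + 3 e + 5 e² - 4 e τ > 0. -/
def StN3f : Prop := ∀ H e k D z z' K a Z V : ℤ, 0 ≤ H → 1 ≤ e → 0 ≤ k → k ≤ e → k ≤ D → D ≤ 2 * k →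
  0 ≤ z → 0 ≤ z' → 0 ≤ K → K ≤ 2 → (K = 0 → e ≤ H + 1) → 2 * D + e * e + 4 ≤ 2 * a + 3 * e →
  Z ≤ 12 + k - e + D + z + z' - 3 * K →
  14 + 8 * H + 2 * e + 2 * a + 4 * (z + z') + (z * z - z) + (z' * z' - z') - 2 * K ≤ 2 * V →
  Good Z V

/-- **StNG.** Proof. σ = z + z', Y = c + k + σ. 18 V ≥ 18 b + 9 (2D + 2a) + 9 (4 σ + σ²/2 - σ) and
2D + 2a ≥ 4 k + e² - 3 e + 4. F := 18 V - Y² ≥ 18 (b+1) - c² + 18 + 36 k + 9 (e² - 3 e) + 27 σ + 4.5 σ² - 2 c (k + σ) -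
(k+σ)². (18 b + 9 · 4 = 18 (b+1) + 18.)
k = 0: e² - 3 e ≥ -2: F ≥ 18 (b+1) - c² + (27 - 2c) σ + 3.5 σ² ≥ 3.5 σ² - σ ≥ 0 (c ≤ 14, σ an integer ≥ 0).
k ≥ 1: e² - 3 e ≥ k² - 3 k (e ≥ k ≥ 1, integers: e² - 3e - k² + 3k = (e-k)(e+k-3), zero or e + k ≥ 3):
F ≥ 18 + 9 k - 2 c k + 8 k² + (27 - 2c) σ + 3.5 σ² - 2 k σ ≥ 18 - 19 k + 8 k² - σ + 3.5 σ² - 2 k σ (c ≤ 14). For k = 1: 7 - 3 σ + 3.5 σ²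
> 0; k = 2: 12 - 5 σ + 3.5 σ² > 0; k ≥ 3: 18 - 19 k + 8 k² - (1 + 2k)²/14 > 0. -/
def StNG : Prop := ∀ c b e k D z z' a Z V : ℤ, 0 ≤ c → c ≤ 14 → c * c ≤ 18 * (b + 1) → 1 ≤ e → 0 ≤ k →
  k ≤ e → k ≤ D → 0 ≤ z → 0 ≤ z' → 2 * D + e * e + 4 ≤ 2 * a + 3 * e → Z ≤ c + k + z + z' →
  2 * b + 2 * D + 2 * a + 4 * (z + z') + (z * z - z) + (z' * z' - z') ≤ 2 * V → Good Z V

/-- **StNF.** Proof. σ = z + z', δ = D + k - e ≤ 2e, δ ≤ D; Z ≤ c + δ + σ. Since 2a ≥ 2D + e² - 3e + 4 and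
D ≥ max(δ,0): 18 V ≥ 18 b + 18 e + 9 (2 max(δ,0) + e² - 3 e + 4) + 27 σ + 4.5 σ² =
18 (b+1) + 18 - 9 e + 9 e² + 18 max(δ,0) + 27 σ + 4.5 σ².
δ < 0: Z ≤ c + σ =: Y, Y² = c² + 2 c σ + σ² ≤ c² + 24 σ + σ² ≤ 18 V.
δ ≥ 0: Y = c + δ + σ ≥ 0, F := 18 V - Y² ≥ (18 (b+1) - c²) + 18 - 9 e + 9 e² + (18 - 2c) δ - δ² + (27 - 2c) σ +
3.5 σ² - 2 δ σ. Since - δ² ≥ - 2 e δ (0 ≤ δ ≤ 2e) this is ≥ a function which is linear in δ and agrees with it at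
δ = 0 and δ = 2e, so it suffices to check these two values.
δ = 0: ≥ 6 + 18 - 9 e + 9 e² + 3 σ + 3.5 σ² > 0 (c ≤ 12).
δ = 2e: ≥ 24 - 9 e + 9 e² + 2 (18 - 24) e - 4 e² + 3 σ + 3.5 σ² - 4 e σ = 24 - 21 e + 5 e² + 3 σ + 3.5 σ² - 4 e σ.
e = 1: 8 - σ + 3.5 σ² > 0. e = 2: 2 - 5 σ + 3.5 σ²: for σ = 0: 2, σ = 1: 0.5, σ ≥ 2: > 0. e = 3: 6 - 9 σ + 3.5 σ²: 6, 0.5, 2,
10.5, .. > 0. e ≥ 4: ≥ 5 e² - 21 e + 24 - (4e - 3)²/14 = (54 e² - 270 e + 327)/14 > 0. (e, σ are integers.) -/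
def StNF : Prop := ∀ c b e k D z z' a Z V : ℤ, 0 ≤ c → c ≤ 12 → c * c + 6 ≤ 18 * (b + 1) → 1 ≤ e →
  0 ≤ k → k ≤ e → k ≤ D → D ≤ 2 * k → 0 ≤ z → 0 ≤ z' → 2 * D + e * e + 4 ≤ 2 * a + 3 * e →
  Z ≤ c + D + k - e + z + z' →
  2 * b + 2 * e + 2 * a + 4 * (z + z') + (z * z - z) + (z' * z' - z') ≤ 2 * V → Good Z V

end Pool.Agent.Helper21.W4
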