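import Pool.Agent.Helper21.W4.St6

set_option autoImplicit false

namespace Pool.Agent.Helper21.W4

open Finset

/-- the two exchanges at the level of PP -/
theorem PP.toPP0 {B : ℕ} {h1 h2 h3 : ℕ → ℕ → ℕ} (H : PP B h1 h2 h3) : PP0 B h1 h2 h3 :=
  ⟨H.e12, H.e13, H.bd⟩

theorem PP.m12 {B : ℕ} {h1 h2 h3 : ℕ → ℕ → ℕ} (H : PP B h1 h2 h3) : 1 < h1 1 0 ↔ 1 < h2 1 0 :=
  H.e12 1 1 0

theorem PP.m13 {B : ℕ} {h1 h2 h3 : ℕ → ℕ → ℕ} (H : PP B h1 h2 h3) : 1 < h1 0 1 ↔ 1 < h3 1 0 :=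
  H.e13 1 0 1

theorem PP.m23 {B : ℕ} {h1 h2 h3 : ℕ → ℕ → ℕ} (H : PP B h1 h2 h3) : 1 < h2 0 1 ↔ 1 < h3 0 1 :=
  (H.e12 0 1 1).symm.trans (H.e13 0 1 1)

theorem anti_ge {f : ℕ → ℕ} (h : ∀ p, f (p + 1) ≤ f p) {a b : ℕ} (hab : a ≤ b) : f b ≤ f a := by
  induction b, hab using Nat.le_induction with
  | base => exact le_rfl
  | succ n _ ih => exact (h n).trans ih

theorem Ar.mono {B : ℕ} {h : ℕ → ℕ → ℕ} (H : Ar B h) {a b c d : ℕ} (h1 : a ≤ c) (h2 : b ≤ d) :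
    h c d ≤ h a b :=
  (anti_ge (f := fun p => h p d) (fun p => H.a1 p d) h1).trans (anti_ge (H.a2 a) h2)

theorem Sq.mono {B : ℕ} {s : ℕ → ℕ} (H : Sq B s) {a b : ℕ} (h : a ≤ b) : s b ≤ s a :=
  anti_ge H.anti h

theorem cor_empty {B : ℕ} {s : ℕ → ℕ} (H : Sq B s) (h : s 1 ≤ 1) : cor B s = ∅ := by
  unfold cor
  rw [filter_eq_empty_iff]
  rintro p _ ⟨h1, h2, _⟩
  have := H.mono h1
  omega

theorem bk_zero {B : ℕ} {h : ℕ → ℕ → ℕ} (H : Ar B h) (h1 : h 1 1 ≤ 1) : bk B h = 0 := by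
  unfold bk
  refine sum_eq_zero fun p _ => sum_eq_zero fun q _ => ?_
  have := H.mono (show 1 ≤ p + 1 by omega) (show 1 ≤ q + 1 by omega)
  omega

/-- TgtN of the data is Tgt -/
theorem tgt_of {B : ℕ} {h1 h2 h3 : ℕ → ℕ → ℕ} {c1 c2 c3 κ : ℕ}
    (h : TgtN (dat B h1 h2 h3 c1 c2 c3 κ)) : Tgt B h1 h2 h3 κ := by
  unfold TgtN dat at h
  unfold Tgt
  push_cast at h ⊢
  have e : (vol B h3 : ℤ) - (NMs B h1 + NMs B h2 + NMs B h3) =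
    (vol B h3 : ℤ) - NMs B h1 - NMs B h2 - NMs B h3 := by ring
  rw [e] at h
  exact h

end Pool.Agent.Helper21.W4
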