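import Mathlib

/-!
# Wilf's conjecture in embedding dimension four: definitions

A finite down-set D of ℕ³ is described by three arrays h1, h2, h3 of natural numbers:
(p,q,r) ∈ D  iff  p < h1 q r  iff  q < h2 p r  iff  r < h3 p q.
So h1 q r is the length of the column of D in direction 1 over (q,r), and so on.
-/

set_option autoImplicit false

namespace Pool.Agent.Helper21.W4

open Finset

/-- three arrays describe the same finite set of triples (which is then a down-set) -/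
structure PP0 (B : ℕ) (h1 h2 h3 : ℕ → ℕ → ℕ) : Prop where
  e12 : ∀ p q r, p < h1 q r ↔ q < h2 p r
  e13 : ∀ p q r, p < h1 q r ↔ r < h3 p q
  bd : ∀ p q r, p < h1 q r → p + 1 < B ∧ q + 1 < B ∧ r + 1 < B

/-- the same, and the three unit vectors belong to the set -/
structure PP (B : ℕ) (h1 h2 h3 : ℕ → ℕ → ℕ) : Prop where
  e12 : ∀ p q r, p < h1 q r ↔ q < h2 p r
  e13 : ∀ p q r, p < h1 q r ↔ r < h3 p q
  bd : ∀ p q r, p < h1 q r → p + 1 < B ∧ q + 1 < B ∧ r + 1 < B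
  n1 : 2 ≤ h1 0 0
  n2 : 2 ≤ h2 0 0
  n3 : 2 ≤ h3 0 0

/-- a finite array of natural numbers, nonincreasing in both arguments -/
structure Ar (B : ℕ) (h : ℕ → ℕ → ℕ) : Prop where
  a1 : ∀ p q, h (p + 1) q ≤ h p q
  a2 : ∀ p q, h p (q + 1) ≤ h p q
  z1 : ∀ p q, B ≤ p + 1 → h p q = 0
  z2 : ∀ p q, B ≤ q + 1 → h p q = 0
  bd : ∀ p q, h p q < B ∨ h p q = 0

/-- a finite nonincreasing sequence -/
structure Sq (B : ℕ) (s : ℕ → ℕ) : Prop where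
  anti : ∀ p, s (p + 1) ≤ s p
  fin : ∀ p, B ≤ p + 1 → s p = 0
  bd : ∀ p, s p < B ∨ s p = 0

/-- two conjugate sequences: both describe the plane region of the pairs (p,q) with q < s p -/
def Cj (s t : ℕ → ℕ) : Prop := ∀ p q, q < s p ↔ p < t q

/-! ### numbers attached to an array -/

/-- the sum of all entries -/
def vol (B : ℕ) (h : ℕ → ℕ → ℕ) : ℕ := ∑ p ∈ range B, ∑ q ∈ range B, h p q

/-- the sum of the interior entries -/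
def intS (B : ℕ) (h : ℕ → ℕ → ℕ) : ℕ := ∑ p ∈ range B, ∑ q ∈ range B, h (p + 1) (q + 1)

/-- the interior entries diminished by one -/
def bk (B : ℕ) (h : ℕ → ℕ → ℕ) : ℕ := ∑ p ∈ range B, ∑ q ∈ range B, (h (p + 1) (q + 1) - 1)

/-- the sum of the entries equal to the next entry in one of the two directions -/
def NMs (B : ℕ) (h : ℕ → ℕ → ℕ) : ℕ :=
  ∑ p ∈ range B, ∑ q ∈ range B, if h (p + 1) q = h p q ∨ h p (q + 1) = h p q then h p q else 0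

def one1 (B : ℕ) (h : ℕ → ℕ → ℕ) : ℕ := ((range B).filter (fun p => h (p + 1) 0 = 1)).card

def one2 (B : ℕ) (h : ℕ → ℕ → ℕ) : ℕ := ((range B).filter (fun q => h 0 (q + 1) = 1)).card

/-- the number of entries 1 both of whose neighbours are 0 -/
def mx1 (B : ℕ) (h : ℕ → ℕ → ℕ) : ℕ :=
  ((range B ×ˢ range B).filter
    (fun x => h x.1 x.2 = 1 ∧ h (x.1 + 1) x.2 = 0 ∧ h x.1 (x.2 + 1) = 0)).card

def nd1 (B : ℕ) (h : ℕ → ℕ → ℕ) : ℕ :=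
  ∑ p ∈ range B, if h (p + 1) 1 ≤ 1 ∧ h (p + 2) 0 = h (p + 1) 0 ∧ 2 ≤ h (p + 1) 0 then h (p + 1) 0 else 0

def nd2 (B : ℕ) (h : ℕ → ℕ → ℕ) : ℕ :=
  ∑ q ∈ range B, if h 1 (q + 1) ≤ 1 ∧ h 0 (q + 2) = h 0 (q + 1) ∧ 2 ≤ h 0 (q + 1) then h 0 (q + 1) else 0

def org (h : ℕ → ℕ → ℕ) : ℕ := if h 1 0 = h 0 0 ∨ h 0 1 = h 0 0 then h 0 0 else 0

/-- the region where the cap is active -/
def inR (h : ℕ → ℕ → ℕ) (ci cj ck p q : ℕ) : Prop :=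
  ci ≤ p ∧ cj ≤ q ∧ 0 < h p q ∧ ck < h p 0 ∧ ck < h 0 q

instance (h : ℕ → ℕ → ℕ) (ci cj ck p q : ℕ) : Decidable (inR h ci cj ck p q) := by
  unfold inR
  infer_instance

/-- the number of maximal elements of the region where the cap is active -/
def rr (B : ℕ) (h : ℕ → ℕ → ℕ) (ci cj ck : ℕ) : ℕ :=
  ((range B ×ˢ range B).filter
    (fun x => inR h ci cj ck x.1 x.2 ∧ ¬ inR h ci cj ck (x.1 + 1) x.2 ∧
      ¬ inR h ci cj ck x.1 (x.2 + 1))).card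

def loss (B : ℕ) (h : ℕ → ℕ → ℕ) (ci cj ck : ℕ) : ℕ := if ck = 1 then 0 else ck * rr B h ci cj ck

/-- the number of r ≥ 1 with r + 1 < cj, h 1 r ≥ 2 such that the rows r and r + 1 are equal -/
def dnv (B : ℕ) (h : ℕ → ℕ → ℕ) (cj : ℕ) : ℕ :=
  ((range B).filter (fun r => 1 ≤ r ∧ r + 1 < cj ∧ 2 ≤ h 1 r ∧ ∀ p ∈ range B, h p (r + 1) = h p r)).card

/-- the array is the minimum of its first row, its first column and (in the block) the cap ck,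
where it is not zero -/
def Cap (h : ℕ → ℕ → ℕ) (ci cj ck : ℕ) : Prop :=
  ∀ p q, 0 < h p q →
    ((ci ≤ p ∧ cj ≤ q) → h p q = min (min (h p 0) (h 0 q)) ck) ∧
    (¬ (ci ≤ p ∧ cj ≤ q) → h p q = min (h p 0) (h 0 q))

/-! ### numbers attached to a sequence (a face) -/

/-- the area of the part of the region with both coordinates positive -/
def ar (B : ℕ) (s : ℕ → ℕ) : ℕ := ∑ p ∈ range B, (s (p + 1) - 1)

/-- the corners (p, s p - 1) of the region with both coordinates positive -/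
def cor (B : ℕ) (s : ℕ → ℕ) : Finset ℕ :=
  (range B).filter (fun p => 1 ≤ p ∧ 2 ≤ s p ∧ s (p + 1) < s p)

/-- the number of corners with first coordinate bigger than u -/
def dd (B : ℕ) (s : ℕ → ℕ) (u : ℕ) : ℕ := ((cor B s).filter (fun p => u < p)).card

/-- the number of corners with first coordinate bigger than u or second bigger than v -/
def kk (B : ℕ) (s : ℕ → ℕ) (u v : ℕ) : ℕ := ((cor B s).filter (fun p => u < p ∨ v < s p - 1)).card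

/-- the number of corners of the face over which the array h is 1 -/
def unc (B : ℕ) (h : ℕ → ℕ → ℕ) (s : ℕ → ℕ) : ℕ := ((cor B s).filter (fun p => h p (s p - 1) = 1)).card

def oc (B : ℕ) (s : ℕ → ℕ) (ci cj : ℕ) : ℕ :=
  ((range B).filter (fun p => ci ≤ p ∧ s p < s (p - 1) ∧ cj ≤ s p)).card

/-! ### the class of down-sets -/

/-- down-sets with property (S1) [a triple belongs to D iff its three projections to the coordinate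
planes do and it is not ≥ c] and property (S2) [the six bounds for the number of outer corners] -/
structure Cls (B : ℕ) (h1 h2 h3 : ℕ → ℕ → ℕ) (c1 c2 c3 : ℕ) : Prop where
  pp : PP B h1 h2 h3
  g1 : 1 ≤ c1
  g2 : 1 ≤ c2
  g3 : 1 ≤ c3
  s1 : ∀ p q r, p < h1 q r ↔
    (q < h2 p 0 ∧ r < h3 p 0 ∧ r < h3 0 q ∧ ¬ (c1 ≤ p ∧ c2 ≤ q ∧ c3 ≤ r))
  gen : (c2 < h2 c1 0 ∧ c3 < h3 c1 0 ∧ c3 < h3 0 c2) ∨ (B ≤ c1 ∧ B ≤ c2 ∧ B ≤ c3)
  o12 : oc B (fun p => h2 p 0) c1 c2 ≤ c3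
  o21 : oc B (fun q => h1 q 0) c2 c1 ≤ c3
  o13 : oc B (fun p => h3 p 0) c1 c3 ≤ c2
  o31 : oc B (fun r => h1 0 r) c3 c1 ≤ c2
  o23 : oc B (fun q => h3 0 q) c2 c3 ≤ c1
  o32 : oc B (fun r => h2 0 r) c3 c2 ≤ c1

/-- κ is the maximum of p+q+r+3 over the down-set -/
def IsK (h1 : ℕ → ℕ → ℕ) (κ : ℕ) : Prop :=
  (∀ p q r, p < h1 q r → p + q + r + 3 ≤ κ) ∧ ∃ p q r, p < h1 q r ∧ p + q + r + 3 = κ

/-- at least two of the three numbers are positive -/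
def Two (p q r : ℕ) : Prop := (1 ≤ p ∧ 1 ≤ q) ∨ (1 ≤ p ∧ 1 ≤ r) ∨ (1 ≤ q ∧ 1 ≤ r)

/-- (p,q,r) has the largest sum among the points with at least two positive coordinates -/
structure IsY (h1 : ℕ → ℕ → ℕ) (p q r : ℕ) : Prop where
  mem : p < h1 q r
  two : Two p q r
  max : ∀ p' q' r', p' < h1 q' r' → Two p' q' r' → p' + q' + r' ≤ p + q + r

/-- the inequality to be proved -/
def Tgt (B : ℕ) (h1 h2 h3 : ℕ → ℕ → ℕ) (κ : ℕ) : Prop :=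
  (κ : ℤ) * (2 * ((vol B h3 : ℤ) - NMs B h1 - NMs B h2 - NMs B h3) + 1) ≤ 9 * vol B h3

/-! ### the numerical data of a down-set -/

/-- m: size; κ; N: sum of the NMs; A: lengths of the axes; w: widths; u: the spine; e: numbers of
corners of the faces; d, k: corners beyond the spine; x: corners with nothing above; a: areas of
the faces; bk: number of points with all coordinates positive; L: losses; dn: equal rows -/
structure Dat where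
  m : ℕ
  κ : ℕ
  N : ℕ
  A1 : ℕ
  A2 : ℕ
  A3 : ℕ
  w12 : ℕ
  w13 : ℕ
  w21 : ℕ
  w23 : ℕ
  w31 : ℕ
  w32 : ℕ
  u1 : ℕ
  u2 : ℕ
  u3 : ℕ
  e12 : ℕ
  e13 : ℕ
  e23 : ℕ
  d12 : ℕ
  d21 : ℕ
  d13 : ℕ
  d31 : ℕ
  d23 : ℕ
  d32 : ℕ
  k12 : ℕ
  k13 : ℕ
  k23 : ℕ
  x12 : ℕ
  x13 : ℕ
  x23 : ℕ
  a12 : ℕ
  a13 : ℕ
  a23 : ℕ
  bk : ℕ
  L : ℕ
  dn : ℕ

/-- the numerical data of the arrays -/
def dat (B : ℕ) (h1 h2 h3 : ℕ → ℕ → ℕ) (c1 c2 c3 κ : ℕ) : Dat where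
  m := vol B h3
  κ := κ
  N := NMs B h1 + NMs B h2 + NMs B h3
  A1 := h1 0 0 - 1
  A2 := h2 0 0 - 1
  A3 := h3 0 0 - 1
  w12 := h1 1 0 - 1
  w13 := h1 0 1 - 1
  w21 := h2 1 0 - 1
  w23 := h2 0 1 - 1
  w31 := h3 1 0 - 1
  w32 := h3 0 1 - 1
  u1 := h1 1 1 - 1
  u2 := h2 1 1 - 1
  u3 := h3 1 1 - 1
  e12 := (cor B (fun p => h2 p 0)).card
  e13 := (cor B (fun p => h3 p 0)).card
  e23 := (cor B (fun q => h3 0 q)).card
  d12 := dd B (fun p => h2 p 0) (h1 1 1 - 1)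
  d21 := dd B (fun q => h1 q 0) (h2 1 1 - 1)
  d13 := dd B (fun p => h3 p 0) (h1 1 1 - 1)
  d31 := dd B (fun r => h1 0 r) (h3 1 1 - 1)
  d23 := dd B (fun q => h3 0 q) (h2 1 1 - 1)
  d32 := dd B (fun r => h2 0 r) (h3 1 1 - 1)
  k12 := kk B (fun p => h2 p 0) (h1 1 1 - 1) (h2 1 1 - 1)
  k13 := kk B (fun p => h3 p 0) (h1 1 1 - 1) (h3 1 1 - 1)
  k23 := kk B (fun q => h3 0 q) (h2 1 1 - 1) (h3 1 1 - 1)
  x12 := unc B h3 (fun p => h2 p 0)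
  x13 := unc B h2 (fun p => h3 p 0)
  x23 := unc B h1 (fun q => h3 0 q)
  a12 := ar B (fun p => h2 p 0)
  a13 := ar B (fun p => h3 p 0)
  a23 := ar B (fun q => h3 0 q)
  bk := bk B h3
  L := loss B h1 c2 c3 c1 + loss B h2 c1 c3 c2 + loss B h3 c1 c2 c3
  dn := dnv B h1 c3

/-- the larger width in direction 1, 2, 3 -/
def W1 (x : Dat) : ℕ := max x.w12 x.w13

def W2 (x : Dat) : ℕ := max x.w21 x.w23

def W3 (x : Dat) : ℕ := max x.w31 x.w32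

/-- contribution of an axis of length A with largest width W -/
def fl (A W : ℕ) : ℤ := if W < A then 2 else -((A : ℤ) + 1)

/-- 1 if the axis of length A is not longer than the largest width W, otherwise 0 -/
def nf (A W : ℕ) : ℤ := if W < A then 0 else 1

/-- the main part of the upper bound for m - N -/
def X0 (x : Dat) : ℤ :=
  2 * ((x.u1 : ℤ) + x.u2 + x.u3) - 2 * x.bk +
    ((x.d12 : ℤ) + x.d21 + x.d13 + x.d31 + x.d23 + x.d32) + ((x.x12 : ℤ) + x.x13 + x.x23) + x.L -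
    2 * x.dn

/-- the general facts about the numerical data -/
structure Base (x : Dat) : Prop where
  hm : x.m = 1 + x.A1 + x.A2 + x.A3 + x.a12 + x.a13 + x.a23 + x.bk
  hE : (x.m : ℤ) - x.N ≤ 1 - ((x.A1 : ℤ) + x.A2 + x.A3) + X0 x +
    (fl x.A1 (W1 x) + fl x.A2 (W2 x) + fl x.A3 (W3 x))
  km : x.κ ≤ x.m
  A1 : 1 ≤ x.A1
  A2 : 1 ≤ x.A2
  A3 : 1 ≤ x.A3
  w12 : x.w12 ≤ x.A1
  w13 : x.w13 ≤ x.A1
  w21 : x.w21 ≤ x.A2
  w23 : x.w23 ≤ x.A2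
  w31 : x.w31 ≤ x.A3
  w32 : x.w32 ≤ x.A3
  d12 : x.u1 + x.d12 ≤ x.w12
  d13 : x.u1 + x.d13 ≤ x.w13
  d21 : x.u2 + x.d21 ≤ x.w21
  d23 : x.u2 + x.d23 ≤ x.w23
  d31 : x.u3 + x.d31 ≤ x.w31
  d32 : x.u3 + x.d32 ≤ x.w32
  k12 : x.k12 ≤ x.e12 ∧ x.d12 ≤ x.k12 ∧ x.d21 ≤ x.k12 ∧ x.k12 ≤ x.d12 + x.d21
  k13 : x.k13 ≤ x.e13 ∧ x.d13 ≤ x.k13 ∧ x.d31 ≤ x.k13 ∧ x.k13 ≤ x.d13 + x.d31
  k23 : x.k23 ≤ x.e23 ∧ x.d23 ≤ x.k23 ∧ x.d32 ≤ x.k23 ∧ x.k23 ≤ x.d23 + x.d32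
  x12 : x.x12 ≤ x.e12
  x13 : x.x13 ≤ x.e13
  x23 : x.x23 ≤ x.e23
  e12 : x.e12 ≤ x.w12 ∧ x.e12 ≤ x.w21 ∧ (1 ≤ x.w12 → 1 ≤ x.e12) ∧ (1 ≤ x.w21 → 1 ≤ x.e12)
  e13 : x.e13 ≤ x.w13 ∧ x.e13 ≤ x.w31 ∧ (1 ≤ x.w13 → 1 ≤ x.e13) ∧ (1 ≤ x.w31 → 1 ≤ x.e13)
  e23 : x.e23 ≤ x.w23 ∧ x.e23 ≤ x.w32 ∧ (1 ≤ x.w23 → 1 ≤ x.e23) ∧ (1 ≤ x.w32 → 1 ≤ x.e23)
  a12 : 2 * (x.w12 + x.w21) + x.e12 * x.e12 ≤ 2 * x.a12 + 3 * x.e12
  a13 : 2 * (x.w13 + x.w31) + x.e13 * x.e13 ≤ 2 * x.a13 + 3 * x.e13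
  a23 : 2 * (x.w23 + x.w32) + x.e23 * x.e23 ≤ 2 * x.a23 + 3 * x.e23
  b12 : x.e12 * x.e12 + x.e12 ≤ 2 * x.a12
  b13 : x.e13 * x.e13 + x.e13 ≤ 2 * x.a13
  b23 : x.e23 * x.e23 + x.e23 ≤ 2 * x.a23

/-- s is the maximum of p+q+r over the points of the down-set with at least two positive
coordinates -/
structure Yo (x : Dat) (s : ℕ) : Prop where
  s2 : 2 ≤ s
  k : x.κ = s + 3 ∨ (x.κ = x.A1 + 3 ∧ s < x.A1) ∨ (x.κ = x.A2 + 3 ∧ s < x.A2) ∨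
    (x.κ = x.A3 + 3 ∧ s < x.A3)
  w12 : x.w12 + 1 ≤ s
  w13 : x.w13 + 1 ≤ s
  w21 : x.w21 + 1 ≤ s
  w23 : x.w23 + 1 ≤ s
  w31 : x.w31 + 1 ≤ s
  w32 : x.w32 + 1 ≤ s

/-- types 0 and 1: all c ≥ 2 -/
structure T01 (x : Dat) : Prop where
  u1 : x.u1 = min x.w12 x.w13 ∧ 1 ≤ x.u1
  u2 : x.u2 = min x.w21 x.w23 ∧ 1 ≤ x.u2
  u3 : x.u3 = min x.w31 x.w32 ∧ 1 ≤ x.u3
  x12 : x.x12 = x.k12
  x13 : x.x13 = x.k13
  x23 : x.x23 = x.k23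
  sp : x.u1 + x.u2 + x.u3 ≤ x.bk + 2
  L : x.L + 2 * (x.u1 + x.u2 + x.u3) ≤ 2 * x.bk + 4

/-- type 2: c = (c1, c2, 1) with c1, c2 ≥ 2 -/
structure T2 (x : Dat) : Prop where
  u1 : x.u1 = min x.w12 x.w13 ∧ 2 ≤ x.u1
  u2 : x.u2 = min x.w21 x.w23 ∧ 2 ≤ x.u2
  u3 : x.u3 = min x.w31 x.w32 ∧ 1 ≤ x.u3
  x13 : x.x13 = x.k13
  x23 : x.x23 = x.k23
  sp : x.u1 + x.u2 + x.u3 ≤ x.bk + 2
  L : x.L + 2 * (x.u1 + x.u2 + x.u3) ≤ 2 * x.bk + 8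

/-- the numbers of a face with one horizontal axis (spine u, width w) and the vertical axis, for
the cap at height h = H + 2: n corners at height ≥ h, y of them beyond the spine; t corners at
height < h, z of them beyond the spine; al: width of the face at height h -/
structure F3 (H u w a e d k n t y z al : ℕ) : Prop where
  e : e = n + t
  d : d = y + z
  k : k = n + z
  n1 : 1 ≤ n
  zt : z ≤ t
  yn : y ≤ n
  ya : 1 ≤ y → u + 1 ≤ al ∧ t = z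
  nt : n + t ≤ u + y + z
  na : n ≤ al
  a : 2 * w + 2 * (H + 1) * al + 2 * n + t * t ≤ 2 * a + 2 + t

/-- type 3: c = (1, 1, H + 2) -/
structure T3 (x : Dat) (H ε n t y z al n' t' y' z' al' : ℕ) : Prop where
  u1 : x.u1 = min x.w12 x.w13 ∧ 1 ≤ x.u1
  u2 : x.u2 = min x.w21 x.w23 ∧ 1 ≤ x.u2
  u3 : x.u3 = H + 1
  x12 : x.x12 = x.k12
  x13 : x.x13 = x.k13
  x23 : x.x23 = x.k23
  f13 : F3 H x.u1 x.w13 x.a13 x.e13 x.d13 x.k13 n t y z al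
  f23 : F3 H x.u2 x.w23 x.a23 x.e23 x.d23 x.k23 n' t' y' z' al'
  d31 : x.d31 = n
  d32 : x.d32 = n'
  n2 : n ≤ 2
  n2' : n' ≤ 2
  s13 : x.w31 < x.A3 → n = 1 ∧ t ≤ H
  s23 : x.w32 < x.A3 → n' = 1 ∧ t' ≤ H
  s12 : x.e12 + (if x.w12 < x.A1 then 1 else 0) + (if x.w21 < x.A2 then 1 else 0) ≤ H + 3
  dn : H ≤ x.dn + t + t'
  sp : x.u1 + x.u2 + x.u3 ≤ x.bk + 2
  L : x.L + 2 * (x.u1 + x.u2 + x.u3) ≤ 2 * x.bk + 4 + (H + 2) + 2 * ε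
  ε1 : ε ≤ 1
  ε2 : ε = 1 → H = 0 ∧ 2 ≤ x.e12 ∧ 2 ≤ x.u1 ∧ 2 ≤ x.u2 ∧ 2 ≤ al ∧ 2 ≤ al'

/-- the conclusion in terms of the data -/
def TgtN (x : Dat) : Prop := (x.κ : ℤ) * (2 * ((x.m : ℤ) - x.N) + 1) ≤ 9 * x.m

/-- (Z, V) is good -/
def Good (Z V : ℤ) : Prop := Z ≤ 0 ∨ Z ^ 2 ≤ 18 * V

def Zx (x : Dat) : ℤ := (x.m : ℤ) - x.N + x.κ - 4

def Vx (x : Dat) : ℤ := (x.m : ℤ) - x.κ

/-! ### the set of points and the semigroup side -/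

/-- the points of the down-set -/
def pts (B : ℕ) (h1 : ℕ → ℕ → ℕ) : Finset (ℕ × ℕ × ℕ) :=
  (range B ×ˢ range B ×ˢ range B).filter (fun x => x.1 < h1 x.2.1 x.2.2)

/-- the sum of x_i + 1 over the directions i in which x is the last point of its column -/
def oo (h1 h2 h3 : ℕ → ℕ → ℕ) (x : ℕ × ℕ × ℕ) : ℕ :=
  (if h1 x.2.1 x.2.2 = x.1 + 1 then x.1 + 1 else 0) +
  (if h2 x.1 x.2.2 = x.2.1 + 1 then x.2.1 + 1 else 0) +
  (if h3 x.1 x.2.1 = x.2.2 + 1 then x.2.2 + 1 else 0)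

/-- x is not maximal: it is not the last point of its column for some direction -/
def nonmax (h1 h2 h3 : ℕ → ℕ → ℕ) (x : ℕ × ℕ × ℕ) : Prop :=
  x.1 + 1 < h1 x.2.1 x.2.2 ∨ x.2.1 + 1 < h2 x.1 x.2.2 ∨ x.2.2 + 1 < h3 x.1 x.2.1

instance (h1 h2 h3 : ℕ → ℕ → ℕ) (x : ℕ × ℕ × ℕ) : Decidable (nonmax h1 h2 h3 x) := by
  unfold nonmax
  infer_instance

/-- a finite down-set D of ℕ³ containing the unit vectors which is a set of representatives for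
the homomorphism (p,q,r) ↦ p g1 + q g2 + r g3 -/
structure TD {G : Type} [AddCommGroup G] (D : ℕ → ℕ → ℕ → Prop) (g1 g2 g3 : G) : Prop where
  down : ∀ p q r p' q' r', D p q r → p' ≤ p → q' ≤ q → r' ≤ r → D p' q' r'
  inj : ∀ p q r p' q' r', D p q r → D p' q' r' →
    p • g1 + q • g2 + r • g3 = p' • g1 + q' • g2 + r' • g3 → p = p' ∧ q = q' ∧ r = r'
  nf : ∀ p q r : ℕ, ∃ p' q' r', D p' q' r' ∧
    p' • g1 + q' • g2 + r' • g3 = p • g1 + q • g2 + r • g3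
  fin : ∃ B, ∀ p q r, D p q r → p + 1 < B ∧ q + 1 < B ∧ r + 1 < B
  one : D 1 0 0 ∧ D 0 1 0 ∧ D 0 0 1

end Pool.Agent.Helper21.W4
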