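import Pool.Agent.Helper21.W4.St1

/-!
# The assembly of the array lemma
-/

set_option autoImplicit false

namespace Pool.Agent.Helper21.W4

open Finset

theorem hALc : StALc := by
  intro hA hB B h ci cj ck har h1 h2 h3 h00 hcap
  have ha := hA B h ci cj ck har h1 h2 h3 h00 hcap
  have hb := hB B h ci cj ck har h1 h2 h3 hcap
  have hcard : ((range B ×ˢ range B).filter (fun x => h (x.1 + 1) (x.2 + 1) = 1)).card +
      one1 B h + one2 B h ≤ ((range B ×ˢ range B).filter (fun x => h x.1 x.2 = 1)).card := by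
    unfold one1 one2
    have e1 : ((range B ×ˢ range B).filter (fun x => h (x.1 + 1) (x.2 + 1) = 1)).card =
        (((range B ×ˢ range B).filter (fun x => h (x.1 + 1) (x.2 + 1) = 1)).image
          (fun x : ℕ × ℕ => ((x.1 + 1, x.2 + 1) : ℕ × ℕ))).card := by
      rw [card_image_of_injective]
      intro x y hxy
      have hh := Prod.mk.inj hxy
      ext
      · omega
      · omega
    have e2 : ((range B).filter (fun p => h (p + 1) 0 = 1)).card =
        (((range B).filter (fun p => h (p + 1) 0 = 1)).image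
          (fun p => ((p + 1, 0) : ℕ × ℕ))).card := by
      rw [card_image_of_injective]
      intro x y hxy
      have hh := Prod.mk.inj hxy
      omega
    have e3 : ((range B).filter (fun q => h 0 (q + 1) = 1)).card =
        (((range B).filter (fun q => h 0 (q + 1) = 1)).image
          (fun q => ((0, q + 1) : ℕ × ℕ))).card := by
      rw [card_image_of_injective]
      intro x y hxy
      have hh := Prod.mk.inj hxy
      omega
    rw [e1, e2, e3, ← card_union_of_disjoint, ← card_union_of_disjoint]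
    · apply card_le_card
      intro z hz
      rw [mem_union, mem_union, mem_image, mem_image, mem_image] at hz
      rw [mem_filter, mem_product, mem_range, mem_range]
      have key : h z.1 z.2 = 1 → (z.1 < B ∧ z.2 < B) ∧ h z.1 z.2 = 1 := by
        intro hz1
        refine ⟨⟨?_, ?_⟩, hz1⟩
        · by_contra hc
          have := har.z1 z.1 z.2 (by omega)
          omega
        · by_contra hc
          have := har.z2 z.1 z.2 (by omega)
          omega
      rcases hz with (⟨x, hx, rfl⟩ | ⟨p, hp, rfl⟩) | ⟨q, hq, rfl⟩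
      · exact key (mem_filter.1 hx).2
      · exact key (mem_filter.1 hp).2
      · exact key (mem_filter.1 hq).2
    · rw [disjoint_left]
      intro z hz hz2
      rw [mem_union, mem_image, mem_image] at hz
      rw [mem_image] at hz2
      obtain ⟨q, hq, hqz⟩ := hz2
      have hq1 : z.1 = 0 := by rw [← hqz]
      rcases hz with ⟨x, hx, hxz⟩ | ⟨p, hp, hpz⟩
      · have : z.1 = x.1 + 1 := by rw [← hxz]
        omega
      · have : z.1 = p + 1 := by rw [← hpz]
        omega
    · rw [disjoint_left]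
      intro z hz hz2
      rw [mem_image] at hz hz2
      obtain ⟨q, hq, hqz⟩ := hz2
      obtain ⟨x, hx, hxz⟩ := hz
      have hq1 : z.2 = 0 := by rw [← hqz]
      have : z.2 = x.2 + 1 := by rw [← hxz]
      omega
  have hcard2 : ((range B ×ˢ range B).filter (fun x => h x.1 x.2 = 1)).card ≤
      ((range B ×ˢ range B).filter (fun x =>
        (h (x.1 + 1) x.2 = h x.1 x.2 ∨ h x.1 (x.2 + 1) = h x.1 x.2) ∧ h x.1 x.2 = 1)).card +
      mx1 B h := by
    unfold mx1
    refine le_trans (card_le_card ?_) (card_union_le _ _)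
    intro x hx
    rw [mem_filter] at hx
    rw [mem_union, mem_filter, mem_filter]
    by_cases hnm : h (x.1 + 1) x.2 = h x.1 x.2 ∨ h x.1 (x.2 + 1) = h x.1 x.2
    · exact Or.inl ⟨hx.1, hnm, hx.2⟩
    · refine Or.inr ⟨hx.1, hx.2, ?_, ?_⟩
      · have := har.a1 x.1 x.2
        have h4 : h (x.1 + 1) x.2 ≠ h x.1 x.2 := fun hc => hnm (Or.inl hc)
        omega
      · have := har.a2 x.1 x.2
        have h4 : h x.1 (x.2 + 1) ≠ h x.1 x.2 := fun hc => hnm (Or.inr hc)
        omega
  have hint : intS B h = (∑ x ∈ (range B ×ˢ range B).filter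
      (fun x => 2 ≤ h (x.1 + 1) (x.2 + 1) ∧ ¬ inR h ci cj ck (x.1 + 1) (x.2 + 1)),
      h (x.1 + 1) (x.2 + 1)) + (∑ x ∈ (range B ×ˢ range B).filter
      (fun x => 2 ≤ h (x.1 + 1) (x.2 + 1) ∧ inR h ci cj ck (x.1 + 1) (x.2 + 1)),
      h (x.1 + 1) (x.2 + 1)) +
      ((range B ×ˢ range B).filter (fun x => h (x.1 + 1) (x.2 + 1) = 1)).card := by
    unfold intS
    rw [← sum_product', sum_filter, sum_filter, card_filter, ← sum_add_distrib, ← sum_add_distrib]
    apply sum_congr rfl
    intro x _
    by_cases h5 : 2 ≤ h (x.1 + 1) (x.2 + 1)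
    · by_cases h6 : inR h ci cj ck (x.1 + 1) (x.2 + 1)
      · rw [if_neg (by tauto), if_pos ⟨h5, h6⟩, if_neg (by omega)]
        omega
      · rw [if_pos ⟨h5, h6⟩, if_neg (by tauto), if_neg (by omega), add_zero, add_zero]
    · rw [if_neg (by tauto), if_neg (by tauto)]
      by_cases h7 : h (x.1 + 1) (x.2 + 1) = 1
      · rw [if_pos h7, h7, zero_add]
      · rw [if_neg h7]
        omega
  have hnms : NMs B h = (∑ x ∈ (range B ×ˢ range B).filter
      (fun x => (h (x.1 + 1) x.2 = h x.1 x.2 ∨ h x.1 (x.2 + 1) = h x.1 x.2) ∧ 2 ≤ h x.1 x.2),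
      h x.1 x.2) + ((range B ×ˢ range B).filter (fun x =>
        (h (x.1 + 1) x.2 = h x.1 x.2 ∨ h x.1 (x.2 + 1) = h x.1 x.2) ∧ h x.1 x.2 = 1)).card := by
    unfold NMs
    rw [← sum_product', sum_filter, card_filter, ← sum_add_distrib]
    apply sum_congr rfl
    intro x _
    by_cases hnm : h (x.1 + 1) x.2 = h x.1 x.2 ∨ h x.1 (x.2 + 1) = h x.1 x.2
    · rw [if_pos hnm]
      by_cases h5 : 2 ≤ h x.1 x.2
      · rw [if_pos ⟨hnm, h5⟩, if_neg (by omega), add_zero]
      · rw [if_neg (by tauto)]
        by_cases h7 : h x.1 x.2 = 1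
        · rw [if_pos ⟨hnm, h7⟩, h7]
        · rw [if_neg (by tauto)]
          omega
    · rw [if_neg hnm, if_neg (by tauto), if_neg (by tauto)]
  rw [hint, hnms]
  omega

end Pool.Agent.Helper21.W4
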