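import Pool.Agent.Helper21.W4.St1

/-!
# Lower bound for the area of a face by the widths and the number of corners
-/

set_option autoImplicit false

namespace Pool.Agent.Helper21.W4

open Finset

def eAr (B : ℕ) (s : ℕ → ℕ) (p : ℕ) : ℕ :=
  ∑ i ∈ Ico p B, if 2 ≤ s i ∧ s (i + 1) < s i then 1 else 0

def wAr (B : ℕ) (s : ℕ → ℕ) (p : ℕ) : ℕ := ∑ i ∈ Ico p B, if 2 ≤ s i then 1 else 0

def aAr (B : ℕ) (s : ℕ → ℕ) (p : ℕ) : ℕ := ∑ i ∈ Ico p B, (s i - 1)

theorem eAr_succ {B : ℕ} (s : ℕ → ℕ) {p : ℕ} (hp : p < B) :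
    eAr B s p = (if 2 ≤ s p ∧ s (p + 1) < s p then 1 else 0) + eAr B s (p + 1) :=
  sum_eq_sum_Ico_succ_bot hp _

theorem wAr_succ {B : ℕ} (s : ℕ → ℕ) {p : ℕ} (hp : p < B) :
    wAr B s p = (if 2 ≤ s p then 1 else 0) + wAr B s (p + 1) :=
  sum_eq_sum_Ico_succ_bot hp _

theorem aAr_succ {B : ℕ} (s : ℕ → ℕ) {p : ℕ} (hp : p < B) :
    aAr B s p = (s p - 1) + aAr B s (p + 1) :=
  sum_eq_sum_Ico_succ_bot hp _

theorem zeroAr {B : ℕ} {s : ℕ → ℕ} (hs : Sq B s) : ∀ n p, B - p = n → s p ≤ 1 →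
    eAr B s p = 0 ∧ wAr B s p = 0 ∧ aAr B s p = 0 := by
  intro n
  induction n with
  | zero =>
    intro p hp h1
    have : Ico p B = ∅ := Ico_eq_empty (by omega)
    unfold eAr wAr aAr
    rw [this]
    exact ⟨sum_empty, sum_empty, sum_empty⟩
  | succ n ih =>
    intro p hp h1
    have hpB : p < B := by omega
    have hle : s (p + 1) ≤ 1 := le_trans (hs.anti p) h1
    obtain ⟨h2, h3, h4⟩ := ih (p + 1) (by omega) hle
    rw [eAr_succ s hpB, wAr_succ s hpB, aAr_succ s hpB, h2, h3, h4, if_neg (by omega),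
      if_neg (by omega)]
    refine ⟨rfl, rfl, by omega⟩

theorem mainAr {B : ℕ} {s : ℕ → ℕ} (hs : Sq B s) : ∀ n p, B - p = n → 2 ≤ s p →
    eAr B s p + 1 ≤ s p ∧
    2 * (wAr B s p + (s p - 1)) + eAr B s p * eAr B s p ≤ 2 * aAr B s p + 3 * eAr B s p := by
  intro n
  induction n with
  | zero =>
    intro p hp h1
    have := hs.fin p (by omega)
    omega
  | succ n ih =>
    intro p hp h1
    have hpB : p < B := by omega
    rw [eAr_succ s hpB, wAr_succ s hpB, aAr_succ s hpB, if_pos h1]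
    have hanti := hs.anti p
    by_cases h2 : 2 ≤ s (p + 1)
    · obtain ⟨h3, h4⟩ := ih (p + 1) (by omega) h2
      by_cases h5 : s (p + 1) < s p
      · rw [if_pos ⟨h1, h5⟩]
        refine ⟨by omega, ?_⟩
        generalize eAr B s (p + 1) = e at *
        generalize wAr B s (p + 1) = w at *
        generalize aAr B s (p + 1) = a at *
        obtain ⟨c, hc⟩ : ∃ c, s (p + 1) = e + 1 + c := ⟨s (p + 1) - (e + 1), by omega⟩
        obtain ⟨d, hd⟩ : ∃ d, s p = s (p + 1) + 1 + d := ⟨s p - (s (p + 1) + 1), by omega⟩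
        rw [hc] at h4 hd
        rw [hd]
        have e1 : e + 1 + c - 1 = e + c := by omega
        have e2 : e + 1 + c + 1 + d - 1 = e + 1 + c + d := by omega
        rw [e1] at h4
        rw [e2]
        nlinarith
      · rw [if_neg (by tauto), zero_add]
        have h6 : s (p + 1) = s p := by omega
        rw [h6] at h3 h4
        refine ⟨h3, ?_⟩
        generalize eAr B s (p + 1) = e at *
        generalize wAr B s (p + 1) = w at *
        generalize aAr B s (p + 1) = a at *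
        omega
    · obtain ⟨h3, h4, h5⟩ := zeroAr hs (B - (p + 1)) (p + 1) rfl (by omega)
      rw [h3, h4, h5, if_pos ⟨h1, by omega⟩]
      omega

theorem hAr1 : StAr1 := by
  intro B s t hs ht hst
  have hcor : (cor B s).card = eAr B s 1 := by
    unfold cor eAr
    rw [← card_filter]
    congr 1
    ext x
    rw [mem_filter, mem_filter, mem_range, mem_Ico]
    tauto
  have har : ar B s = aAr B s 1 := by
    unfold ar aAr
    rw [sum_Ico_eq_sum_range]
    rcases Nat.eq_zero_or_pos B with hB | hB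
    · subst hB
      rfl
    · obtain ⟨b, rfl⟩ : ∃ b, B = b + 1 := ⟨B - 1, by omega⟩
      rw [sum_range_succ, hs.fin (b + 1) (by omega)]
      have : b + 1 - 1 = b := by omega
      rw [this]
      rw [zero_tsub, add_zero]
      apply sum_congr rfl
      intro x _
      rw [add_comm 1 x]
  have hw : wAr B s 1 = t 1 - 1 := by
    unfold wAr
    rw [← card_filter]
    have : (Ico 1 B).filter (fun i => 2 ≤ s i) = Ico 1 (t 1) := by
      ext x
      rw [mem_filter, mem_Ico, mem_Ico]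
      have h1 := hst x 1
      have h2 := ht.bd 1
      constructor
      · rintro ⟨⟨h3, h4⟩, h5⟩
        exact ⟨h3, h1.1 (by omega)⟩
      · rintro ⟨h3, h4⟩
        have := h1.2 h4
        exact ⟨⟨h3, by omega⟩, by omega⟩
    rw [this, Nat.card_Ico]
  rw [hcor, har, ← hw]
  by_cases h1 : 2 ≤ s 1
  · exact (mainAr hs (B - 1) 1 rfl h1).2
  · obtain ⟨h3, h4, h5⟩ := zeroAr hs (B - 1) 1 rfl (by omega)
    rw [h3, h4, h5]
    omega

end Pool.Agent.Helper21.W4
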