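import Pool.Agent.Helper21.W4.Asm

set_option autoImplicit false

namespace Pool.Agent.Helper21.W4

open Finset

theorem le_unc (B : ℕ) (h : ℕ → ℕ → ℕ) (s : ℕ → ℕ) : unc B h s ≤ (cor B s).card :=
  card_filter_le _ _

theorem hBase : StBase := by
  intro hAr hVol hBk hInt hCard hCap hALa hALb hALc hMx hOne hNd hEq hTr hAr1 hAr2 hDD hKm
    B h1 h2 h3 c1 c2 c3 κ hC hK
  have hP := hC.pp
  have hP0 := hP.toPP0
  obtain ⟨a1, a2, a3, s12, s21, j12, s13, s31, j13, s23, s32, j23⟩ := hAr B h1 h2 h3 hP0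
  have j21 : Cj (fun q => h1 q 0) (fun p => h2 p 0) := fun p q => (j12 q p).symm
  have j31 : Cj (fun r => h1 0 r) (fun p => h3 p 0) := fun p q => (j13 q p).symm
  have j32 : Cj (fun r => h2 0 r) (fun q => h3 0 q) := fun p q => (j23 q p).symm
  have n1 := hP.n1
  have n2 := hP.n2
  have n3 := hP.n3
  have l1 := a1.a1 0 0
  have l2 := a1.a2 0 0
  have l3 := a2.a1 0 0
  have l4 := a2.a2 0 0
  have l5 := a3.a1 0 0
  have l6 := a3.a2 0 0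
  have l7 : h1 1 1 ≤ h1 1 0 := a1.a2 1 0
  have l8 : h1 1 1 ≤ h1 0 1 := a1.a1 0 1
  have l9 : h2 1 1 ≤ h2 1 0 := a2.a2 1 0
  have l10 : h2 1 1 ≤ h2 0 1 := a2.a1 0 1
  have l11 : h3 1 1 ≤ h3 1 0 := a3.a2 1 0
  have l12 : h3 1 1 ≤ h3 0 1 := a3.a1 0 1
  -- the three pairs
  have d12 := hDD B _ _ s12 s21 j12 (h1 1 1 - 1) (h2 1 1 - 1)
  have d21 := hDD B _ _ s21 s12 j21 (h2 1 1 - 1) (h1 1 1 - 1)
  have d13 := hDD B _ _ s13 s31 j13 (h1 1 1 - 1) (h3 1 1 - 1)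
  have d31 := hDD B _ _ s31 s13 j31 (h3 1 1 - 1) (h1 1 1 - 1)
  have d23 := hDD B _ _ s23 s32 j23 (h2 1 1 - 1) (h3 1 1 - 1)
  have d32 := hDD B _ _ s32 s23 j32 (h3 1 1 - 1) (h2 1 1 - 1)
  have t12 := (hTr B _ _ s12 s21 j12).2.2.1 (h2 1 1 - 1)
  have t13 := (hTr B _ _ s13 s31 j13).2.2.1 (h3 1 1 - 1)
  have t23 := (hTr B _ _ s23 s32 j23).2.2.1 (h3 1 1 - 1)
  have r12 := hAr2 hTr B _ _ s12 s21 j12
  have r13 := hAr2 hTr B _ _ s13 s31 j13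
  have r23 := hAr2 hTr B _ _ s23 s32 j23
  have q12 := hAr1 B _ _ s12 s21 j12
  have q13 := hAr1 B _ _ s13 s31 j13
  have q23 := hAr1 B _ _ s23 s32 j23
  beta_reduce at d12 d21 d13 d31 d23 d32 t12 t13 t23 r12 r13 r23 q12 q13 q23
  have e := hEq hAr hVol hBk hInt hCard hCap hALc hALa hALb hMx hOne hNd B h1 h2 h3 c1 c2 c3 κ hC
  have aux : ∀ a : ℕ, 1 ≤ a - 1 → 2 ≤ a := fun a h => by omega
  refine ⟨hCard hInt B h1 h2 h3 hP, e, hKm hAr hInt hCard B h1 h2 h3 κ hP hK,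
    Nat.le_sub_of_add_le n1, Nat.le_sub_of_add_le n2, Nat.le_sub_of_add_le n3,
    Nat.sub_le_sub_right l1 1, Nat.sub_le_sub_right l2 1, Nat.sub_le_sub_right l3 1,
    Nat.sub_le_sub_right l4 1, Nat.sub_le_sub_right l5 1, Nat.sub_le_sub_right l6 1,
    d12.1 (Nat.sub_le_sub_right l7 1), d13.1 (Nat.sub_le_sub_right l8 1),
    d21.1 (Nat.sub_le_sub_right l9 1), d23.1 (Nat.sub_le_sub_right l10 1),
    d31.1 (Nat.sub_le_sub_right l11 1), d32.1 (Nat.sub_le_sub_right l12 1),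
    ⟨d12.2.2.2.1, d12.2.2.1, ?_, ?_⟩, ⟨d13.2.2.2.1, d13.2.2.1, ?_, ?_⟩, ⟨d23.2.2.2.1, d23.2.2.1, ?_, ?_⟩,
    le_unc _ _ _, le_unc _ _ _, le_unc _ _ _,
    ⟨r12.2.1, r12.2.2.1, fun h => r12.2.2.2.1 (aux _ h), fun h => r12.2.2.2.2 (aux _ h)⟩,
    ⟨r13.2.1, r13.2.2.1, fun h => r13.2.2.2.1 (aux _ h), fun h => r13.2.2.2.2 (aux _ h)⟩,
    ⟨r23.2.1, r23.2.2.1, fun h => r23.2.2.2.1 (aux _ h), fun h => r23.2.2.2.2 (aux _ h)⟩,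
    q12, q13, q23, r12.1, r13.1, r23.1⟩
  · show dd B (fun q => h1 q 0) (h2 1 1 - 1) ≤ kk B (fun p => h2 p 0) (h1 1 1 - 1) (h2 1 1 - 1)
    rw [← t12]
    exact d12.2.2.2.2.1
  · show kk B (fun p => h2 p 0) (h1 1 1 - 1) (h2 1 1 - 1) ≤ _ + dd B (fun q => h1 q 0) (h2 1 1 - 1)
    rw [← t12]
    exact d12.2.2.2.2.2
  · show dd B (fun r => h1 0 r) (h3 1 1 - 1) ≤ kk B (fun p => h3 p 0) (h1 1 1 - 1) (h3 1 1 - 1)
    rw [← t13]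
    exact d13.2.2.2.2.1
  · show kk B (fun p => h3 p 0) (h1 1 1 - 1) (h3 1 1 - 1) ≤ _ + dd B (fun r => h1 0 r) (h3 1 1 - 1)
    rw [← t13]
    exact d13.2.2.2.2.2
  · show dd B (fun r => h2 0 r) (h3 1 1 - 1) ≤ kk B (fun q => h3 0 q) (h2 1 1 - 1) (h3 1 1 - 1)
    rw [← t23]
    exact d23.2.2.2.2.1
  · show kk B (fun q => h3 0 q) (h2 1 1 - 1) (h3 1 1 - 1) ≤ _ + dd B (fun r => h2 0 r) (h3 1 1 - 1)
    rw [← t23]
    exact d23.2.2.2.2.2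

end Pool.Agent.Helper21.W4
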