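import Pool.Agent.Helper21.W4.Asm

set_option autoImplicit false

namespace Pool.Agent.Helper21.W4

open Finset

theorem P1a (hG : Gen) (hLd : StLd) (hN1 : StN1) (hD1 : StD1)
    (B : ℕ) (h1 h2 h3 : ℕ → ℕ → ℕ) (c1 c2 c3 κ p q r : ℕ) (hC : Cls B h1 h2 h3 c1 c2 c3)
    (hK : IsK h1 κ) (hf : h1 1 0 ≤ 1) (hY : IsY h1 p q r) (hp : 1 ≤ p) (hr : 1 ≤ r) :
    Tgt B h1 h2 h3 κ := by
  obtain ⟨hAr, hVol, hSw, hSwT, hCap, hTr, hAr2, hStG, hDD, hYex, hYo, hBase, hNm, hNn, hNe, hNs, hNz⟩ := hG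
  have hP := hC.pp
  have hP0 := hP.toPP0
  obtain ⟨a1, a2, a3, s12, s21, j12, s13, s31, j13, s23, s32, j23⟩ := hAr B h1 h2 h3 hP0
  have hB := hBase B h1 h2 h3 c1 c2 c3 κ hC hK
  have hm := hY.mem
  have hq : q = 0 := by
    by_contra hcon
    have := a1.mono (show 1 ≤ q by omega) (show 0 ≤ r by omega)
    omega
  subst hq
  have h12 : ¬ 1 < h2 1 0 := fun h => by
    have := hP.m12.2 h
    omega
  have h111 : h1 1 1 ≤ 1 := (a1.a2 1 0).trans hf
  have h211 : h2 1 1 ≤ 1 := by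
    by_contra hcon
    have := (hP.e12 1 1 1).2 (by omega)
    omega
  have h311 : h3 1 1 ≤ 1 := by
    by_contra hcon
    have := (hP.e13 1 1 1).2 (by omega)
    omega
  have h01 : 1 < h1 0 1 := by
    have := a1.mono (le_refl 0) hr
    omega
  have h10 : 1 < h3 1 0 := hP.m13.1 h01
  have hL := hLd hAr B h1 h2 h3 c1 c2 c3 hC hf
  have hrp : r < h3 p 0 := (hP.e13 p 0 r).1 hm
  have hg := hStG B _ _ s13 s31 j13 p r hp hr hrp
  refine tgt_of (hD1 hNm hNn hNs hNz hN1 _ (p + 0 + r) hB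
    (hYo B h1 h2 h3 c1 c2 c3 κ p 0 r hP hK hY) ?_ ?_ ?_ ?_ ?_ ?_ ?_ ?_)
  · show h1 1 1 - 1 = 0
    omega
  · show h2 1 1 - 1 = 0
    omega
  · show h3 1 1 - 1 = 0
    omega
  · show bk B h3 = 0
    exact bk_zero a3 h311
  · show loss B h1 c2 c3 c1 + loss B h2 c1 c3 c2 + loss B h3 c1 c2 c3 = 0
    rw [hL.1, hL.2.1, hL.2.2]
  · show (cor B (fun p => h2 p 0)).card = 0
    rw [cor_empty s12 (show h2 1 0 ≤ 1 by omega), card_empty]
  · exact (hAr2 hTr B _ _ s13 s31 j13).2.2.2.2 (show 2 ≤ h3 1 0 by omega)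
  · show p + 0 + r + (cor B (fun p => h3 p 0)).card ≤ (h1 0 1 - 1) + (h3 1 0 - 1) + 1
    beta_reduce at hg
    omega

theorem hP1 : StP1 := by
  intro hG hLd hN1 hD1 hD1a B h1 h2 h3 c1 c2 c3 κ hC hK hf
  have hG' := hG
  obtain ⟨hAr, hVol, hSw, hSwT, hCap, hTr, hAr2, hStG, hDD, hYex, hYo, hBase, hNm, hNn, hNe, hNs, hNz⟩ := hG
  have hP := hC.pp
  have hP0 := hP.toPP0
  obtain ⟨a1, a2, a3, s12, s21, j12, s13, s31, j13, s23, s32, j23⟩ := hAr B h1 h2 h3 hP0
  have hB := hBase B h1 h2 h3 c1 c2 c3 κ hC hK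
  have h12 : ¬ 1 < h2 1 0 := fun h => by
    have := hP.m12.2 h
    omega
  have h111 : h1 1 1 ≤ 1 := (a1.a2 1 0).trans hf
  have h211 : h2 1 1 ≤ 1 := by
    by_contra hcon
    have := (hP.e12 1 1 1).2 (by omega)
    omega
  have h311 : h3 1 1 ≤ 1 := by
    by_contra hcon
    have := (hP.e13 1 1 1).2 (by omega)
    omega
  have hL := hLd hAr B h1 h2 h3 c1 c2 c3 hC hf
  by_cases hA : 2 ≤ h1 0 1 ∨ 2 ≤ h2 0 1
  · obtain ⟨p, q, r, hY⟩ := hYex B h1 h2 h3 hP (Or.inr hA)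
    have hm := hY.mem
    have hn : ¬ (1 ≤ p ∧ 1 ≤ q) := by
      rintro ⟨hp, hq⟩
      have := a1.mono hq (show 0 ≤ r by omega)
      omega
    rcases hY.two with h | h | h
    · exact absurd h hn
    · exact P1a hG' hLd hN1 hD1 B h1 h2 h3 c1 c2 c3 κ p q r hC hK hf hY h.1 h.2
    · have hC' := (hSw B h1 h2 h3 c1 c2 c3 hC).1
      have hT := hSwT hVol B h1 h2 h3 κ hP
      refine hT.1 (P1a hG' hLd hN1 hD1 B h2 h1 _ c2 c1 c3 κ q p r hC' (hT.2.2.1 hK) (by omega)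
        (hT.2.2.2.2.1 p q r hY) h.1 h.2)
  · push Not at hA
    have h13 : ¬ 1 < h3 1 0 := fun h => by
      have := hP.m13.2 h
      omega
    have h23 : ¬ 1 < h3 0 1 := fun h => by
      have := hP.m23.2 h
      omega
    refine tgt_of (hD1a _ hB ?_ ?_ ?_ ?_ ?_ ?_ ?_ ?_ ?_)
    · show h1 1 1 - 1 = 0
      omega
    · show h2 1 1 - 1 = 0
      omega
    · show h3 1 1 - 1 = 0
      omega
    · show bk B h3 = 0
      exact bk_zero a3 h311
    · show loss B h1 c2 c3 c1 + loss B h2 c1 c3 c2 + loss B h3 c1 c2 c3 = 0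
      rw [hL.1, hL.2.1, hL.2.2]
    · show (cor B (fun p => h2 p 0)).card = 0
      rw [cor_empty s12 (show h2 1 0 ≤ 1 by omega), card_empty]
    · show (cor B (fun p => h3 p 0)).card = 0
      rw [cor_empty s13 (show h3 1 0 ≤ 1 by omega), card_empty]
    · show (cor B (fun q => h3 0 q)).card = 0
      rw [cor_empty s23 (show h3 0 1 ≤ 1 by omega), card_empty]
    · show κ = h1 0 0 - 1 + 3 ∨ κ = h2 0 0 - 1 + 3 ∨ κ = h3 0 0 - 1 + 3
      obtain ⟨p, q, r, hm, hs⟩ := hK.2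
      have n1 := hP.n1
      have n2 := hP.n2
      have n3 := hP.n3
      have k1 := hK.1 (h1 0 0 - 1) 0 0 (by omega)
      have k2 := hK.1 0 (h2 0 0 - 1) 0 ((hP.e12 _ _ _).2 (by omega))
      have k3 := hK.1 0 0 (h3 0 0 - 1) ((hP.e13 _ _ _).2 (by omega))
      have hn1 : ¬ (1 ≤ p ∧ 1 ≤ q) := by
        rintro ⟨hp, hq⟩
        have := a1.mono hq (show 0 ≤ r by omega)
        omega
      have hn2 : ¬ (1 ≤ p ∧ 1 ≤ r) := by
        rintro ⟨hp, hr⟩
        have := a1.mono (show 0 ≤ q by omega) hr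
        omega
      have hn3 : ¬ (1 ≤ q ∧ 1 ≤ r) := by
        rintro ⟨hq, hr⟩
        have := a1.mono hq hr
        have := (hP.e12 0 1 1).1 (by omega)
        omega
      by_cases hp : 1 ≤ p
      · have hq : q = 0 := by omega
        have hr : r = 0 := by omega
        subst hq hr
        left
        omega
      · have hp0 : p = 0 := by omega
        subst hp0
        by_cases hq : 1 ≤ q
        · have hr : r = 0 := by omega
          subst hr
          have := (hP.e12 0 q 0).1 hm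
          right
          left
          omega
        · have hq0 : q = 0 := by omega
          subst hq0
          have := (hP.e13 0 0 r).1 hm
          right
          right
          omega

end Pool.Agent.Helper21.W4
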