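import Pool.Agent.Helper21.W4.Asm

set_option autoImplicit false

namespace Pool.Agent.Helper21.W4

open Finset

/-- the three spines are minima of widths -/
theorem mus (hSw : StSw) (hMU : StMU)
    {B : ℕ} {h1 h2 h3 : ℕ → ℕ → ℕ} {c1 c2 c3 : ℕ} (hC : Cls B h1 h2 h3 c1 c2 c3) (h111 : 2 ≤ h1 1 1) :
    2 ≤ h2 1 1 ∧ 2 ≤ h3 1 1 ∧
    ((2 ≤ c2 ∨ 2 ≤ c3) → h1 1 1 = min (h1 1 0) (h1 0 1)) ∧
    ((2 ≤ c1 ∨ 2 ≤ c3) → h2 1 1 = min (h2 1 0) (h2 0 1)) ∧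
    ((2 ≤ c1 ∨ 2 ≤ c2) → h3 1 1 = min (h3 1 0) (h3 0 1)) := by
  have hP := hC.pp
  have h211 : 2 ≤ h2 1 1 := (hP.e12 1 1 1).1 (by omega)
  have h311 : 2 ≤ h3 1 1 := (hP.e13 1 1 1).1 (by omega)
  have hA := (hSw B h1 h2 h3 c1 c2 c3 hC).1
  have hB := (hSw B h1 h2 h3 c1 c2 c3 hC).2
  have hBA := (hSw _ _ _ _ _ _ _ hB).1
  refine ⟨h211, h311, fun h => hMU _ _ _ _ _ _ _ hC h111 h, fun h => hMU _ _ _ _ _ _ _ hA h211 h,
    fun h => hMU _ _ _ _ _ _ _ hBA h311 h⟩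

theorem hP3 : StP3 := by
  intro hG hMU hUa hSp hLa hN01b hN01f hE1 hE2 B h1 h2 h3 c1 c2 c3 κ p q r hC hK h111 hc1 hc2 hc3 hY hloc
  obtain ⟨hAr, hVol, hSw, hSwT, hCap, hTr, hAr2, hStG, hDD, hYex, hYo, hBase, hNm, hNn, hNe, hNs, hNz⟩ := hG
  have hP := hC.pp
  have hP0 := hP.toPP0
  obtain ⟨a1, a2, a3, s12, s21, j12, s13, s31, j13, s23, s32, j23⟩ := hAr B h1 h2 h3 hP0
  have hB := hBase B h1 h2 h3 c1 c2 c3 κ hC hK
  obtain ⟨h211, h311, u1, u2, u3⟩ := mus hSw hMU hC h111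
  have u1 := u1 (Or.inl hc2)
  have u2 := u2 (Or.inl hc1)
  have u3 := u3 (Or.inl hc1)
  have hA' := (hSw B h1 h2 h3 c1 c2 c3 hC).1
  have hB' := (hSw B h1 h2 h3 c1 c2 c3 hC).2
  have hAB := (hSw _ _ _ _ _ _ _ hA').2
  have hT : T01 (dat B h1 h2 h3 c1 c2 c3 κ) := by
    refine ⟨⟨?_, ?_⟩, ⟨?_, ?_⟩, ⟨?_, ?_⟩, ?_, ?_, ?_, ?_, ?_⟩
    · show h1 1 1 - 1 = min (h1 1 0 - 1) (h1 0 1 - 1)
      omega
    · show 1 ≤ h1 1 1 - 1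
      omega
    · show h2 1 1 - 1 = min (h2 1 0 - 1) (h2 0 1 - 1)
      omega
    · show 1 ≤ h2 1 1 - 1
      omega
    · show h3 1 1 - 1 = min (h3 1 0 - 1) (h3 0 1 - 1)
      omega
    · show 1 ≤ h3 1 1 - 1
      omega
    · exact hUa hAr B h1 h2 h3 c1 c2 c3 hC h111 hc3 u1 u2
    · exact hUa hAr B (fun q r => h1 r q) h3 h2 c1 c3 c2 hB' h111 hc2 (u1.trans (min_comm _ _)) u3
    · exact hUa hAr B (fun q r => h2 r q) (fun p q => h3 q p) h1 c2 c3 c1 hAB h211 hc1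
        (u2.trans (min_comm _ _)) (u3.trans (min_comm _ _))
    · exact hSp B h1 h2 h3 hP h111
    · exact hLa hAr hCap B h1 h2 h3 c1 c2 c3 hC h111 hc1 hc2 hc3
  have hm := hY.mem
  have hYo' := hYo B h1 h2 h3 c1 c2 c3 κ p q r hP hK hY
  rcases hloc with hr | ⟨hp, hq, hr⟩
  · subst hr
    have hpq : 1 ≤ p ∧ 1 ≤ q := by
      rcases hY.two with h | h | h <;> omega
    have hqs : q < h2 p 0 := (hP.e12 p q 0).1 hm
    have hg := hStG B _ _ s12 s21 j12 p q hpq.1 hpq.2 hqs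
    refine tgt_of (hE2 hNm hNn hNs hNz hN01f _ (p + q + 0) hB hYo' hT ?_)
    show p + q + 0 + (cor B (fun p => h2 p 0)).card ≤ (h1 1 0 - 1) + (h2 1 0 - 1) + 1
    have m12 := hP.m12
    beta_reduce at hg
    omega
  · refine tgt_of (hE1 hNm hNn hNs hNz hN01b _ (p + q + r) hB hYo' hT ?_)
    show p + q + r ≤ (h1 1 1 - 1) + (h2 1 1 - 1) + (h3 1 1 - 1)
    have b1 := a1.mono hq hr
    have b2 := a2.mono hp hr
    have b3 := a3.mono hp hq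
    have k2 := (hP.e12 p q r).1 hm
    have k3 := (hP.e13 p q r).1 hm
    omega

end Pool.Agent.Helper21.W4
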