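import Pool.Agent.Helper21.W4.M_P3

set_option autoImplicit false

namespace Pool.Agent.Helper21.W4

open Finset

theorem three_le {B : ℕ} {h1 h2 h3 : ℕ → ℕ → ℕ} (H : PP B h1 h2 h3) : 3 ≤ B := by
  have := (H.bd 1 0 0 (by have := H.n1; omega)).1
  omega

theorem hP4 : StP4 := by
  intro hG hMU hUa hSp hLb hN2b hN2f12 hN2f13 hF1 hF2 hF3 B h1 h2 h3 c1 c2 κ p q r hC hK h111 hc1 hc2 hY hloc
  obtain ⟨hAr, hVol, hSw, hSwT, hCap, hTr, hAr2, hStG, hDD, hYex, hYo, hBase, hNm, hNn, hNe, hNs, hNz⟩ := hG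
  have hP := hC.pp
  have hP0 := hP.toPP0
  have hB3 := three_le hP
  obtain ⟨a1, a2, a3, s12, s21, j12, s13, s31, j13, s23, s32, j23⟩ := hAr B h1 h2 h3 hP0
  have hB := hBase B h1 h2 h3 c1 c2 1 κ hC hK
  obtain ⟨h211, h311, u1, u2, u3⟩ := mus hSw hMU hC h111
  have u1 := u1 (Or.inl hc2)
  have u2 := u2 (Or.inl hc1)
  have u3 := u3 (Or.inl hc1)
  have hA' := (hSw B h1 h2 h3 c1 c2 1 hC).1
  have hB' := (hSw B h1 h2 h3 c1 c2 1 hC).2
  have hAB := (hSw _ _ _ _ _ _ _ hA').2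
  have hgen : c2 < h2 c1 0 ∧ 1 < h3 c1 0 ∧ 1 < h3 0 c2 := by
    rcases hC.gen with h | h
    · exact h
    · omega
  have g1 : c1 < h1 1 0 := by
    have k1 := (hP.e12 c1 c2 0).2 hgen.1
    have := a1.mono (show 1 ≤ c2 by omega) (le_refl 0)
    omega
  have g2 : c1 < h1 0 1 := (hP.e13 c1 0 1).2 hgen.2.1
  have g3 : c2 < h2 1 0 := by
    have := a2.mono (show 1 ≤ c1 by omega) (le_refl 0)
    omega
  have g4 : c2 < h2 0 1 := (hP.e12 0 c2 1).1 ((hP.e13 0 c2 1).2 hgen.2.2)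
  have hT : T2 (dat B h1 h2 h3 c1 c2 1 κ) := by
    refine ⟨⟨?_, ?_⟩, ⟨?_, ?_⟩, ⟨?_, ?_⟩, ?_, ?_, ?_, ?_⟩
    · show h1 1 1 - 1 = min (h1 1 0 - 1) (h1 0 1 - 1)
      omega
    · show 2 ≤ h1 1 1 - 1
      omega
    · show h2 1 1 - 1 = min (h2 1 0 - 1) (h2 0 1 - 1)
      omega
    · show 2 ≤ h2 1 1 - 1
      omega
    · show h3 1 1 - 1 = min (h3 1 0 - 1) (h3 0 1 - 1)
      omega
    · show 1 ≤ h3 1 1 - 1
      omega
    · exact hUa hAr B (fun q r => h1 r q) h3 h2 c1 1 c2 hB' h111 hc2 (u1.trans (min_comm _ _)) u3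
    · exact hUa hAr B (fun q r => h2 r q) (fun p q => h3 q p) h1 c2 1 c1 hAB h211 hc1
        (u2.trans (min_comm _ _)) (u3.trans (min_comm _ _))
    · exact hSp B h1 h2 h3 hP h111
    · exact hLb hAr hCap B h1 h2 h3 c1 c2 hC h111 hc1 hc2
  have hm := hY.mem
  have hYo' := hYo B h1 h2 h3 c1 c2 1 κ p q r hP hK hY
  rcases hloc with hr | hq | ⟨hp, hq, hr⟩
  · subst hr
    have hpq : 1 ≤ p ∧ 1 ≤ q := by
      rcases hY.two with h | h | h <;> omega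
    have hqs : q < h2 p 0 := (hP.e12 p q 0).1 hm
    have hg := hStG B _ _ s12 s21 j12 p q hpq.1 hpq.2 hqs
    refine tgt_of (hF2 hNm hNn hNs hNz hN2f12 _ (p + q + 0) hB hYo' hT ?_)
    show p + q + 0 + (cor B (fun p => h2 p 0)).card ≤ (h1 1 0 - 1) + (h2 1 0 - 1) + 1
    beta_reduce at hg
    omega
  · subst hq
    have hpr : 1 ≤ p ∧ 1 ≤ r := by
      rcases hY.two with h | h | h <;> omega
    have hqs : r < h3 p 0 := (hP.e13 p 0 r).1 hm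
    have hg := hStG B _ _ s13 s31 j13 p r hpr.1 hpr.2 hqs
    refine tgt_of (hF3 hNm hNn hNs hNz hN2f13 _ (p + 0 + r) hB hYo' hT ?_)
    show p + 0 + r + (cor B (fun p => h3 p 0)).card ≤ (h1 0 1 - 1) + (h3 1 0 - 1) + 1
    have h13 := hP.m13
    beta_reduce at hg
    omega
  · refine tgt_of (hF1 hNm hNn hNs hNz hN2b _ (p + q + r) hB hYo' hT ?_)
    show p + q + r ≤ (h1 1 1 - 1) + (h2 1 1 - 1) + (h3 1 1 - 1)
    have b1 := a1.mono hq hr
    have b2 := a2.mono hp hr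
    have b3 := a3.mono hp hq
    have k2 := (hP.e12 p q r).1 hm
    have k3 := (hP.e13 p q r).1 hm
    omega

end Pool.Agent.Helper21.W4
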