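import Pool.Agent.Helper21.W4.M_P5

set_option autoImplicit false

namespace Pool.Agent.Helper21.W4

open Finset

theorem hP5b (hG : Gen) (hMU : StMU) (hMUt : StMUt) (hUa : StUa) (hUb : StUb) (hSp : StSp) (hLc : StLc)
    (hDn : StDn) (hFa : StFa) (hFb : StFb) (hFc : StFc) (hOc : StOc) (hN3m : StN3m) (hN3f : StN3f)
    (hNG : StNG) (hNF : StNF) (hG1 : StG1) (hG2 : StG2) (hG3 : StG3) (hG4 : StG4) (hG5 : StG5)
    (hG6 : StG6) :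
    ∀ (B : ℕ) (h1 h2 h3 : ℕ → ℕ → ℕ) (h κ p q r : ℕ),
    Cls B h1 h2 h3 1 1 h → IsK h1 κ → 2 ≤ h → 2 ≤ h1 1 1 → IsY h1 p q r →
    (r = 0 ∨ q = 0 ∨ (1 ≤ p ∧ 1 ≤ q ∧ 1 ≤ r)) → Tgt B h1 h2 h3 κ := by
  intro B h1 h2 h3 h κ p q r hC hK hh h111 hY hloc
  obtain ⟨ε, n, t, y, z, al, n', t', y', z', al', hT⟩ :=
    hP5 hG hMU hMUt hUa hUb hSp hLc hDn hFa hFb hFc hOc B h1 h2 h3 h κ hC hK hh h111
  obtain ⟨hAr, hVol, hSw, hSwT, hCap, hTr, hAr2, hStG, hDD, hYex, hYo, hBase, hNm, hNn, hNe, hNs, hNz⟩ := hG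
  have hP := hC.pp
  have hP0 := hP.toPP0
  obtain ⟨a1, a2, a3, s12, s21, j12, s13, s31, j13, s23, s32, j23⟩ := hAr B h1 h2 h3 hP0
  have hB := hBase B h1 h2 h3 1 1 h κ hC hK
  have hm := hY.mem
  have hYo' := hYo B h1 h2 h3 1 1 h κ p q r hP hK hY
  rcases hloc with hr | hq | ⟨hp, hq, hr⟩
  · subst hr
    have hpq : 1 ≤ p ∧ 1 ≤ q := by
      rcases hY.two with h | h | h <;> omega
    have hqs : q < h2 p 0 := (hP.e12 p q 0).1 hm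
    have hg := hStG B _ _ s12 s21 j12 p q hpq.1 hpq.2 hqs
    have m12 := hP.m12
    have hloc : p + q + 0 + (cor B (fun p => h2 p 0)).card ≤ (h1 1 0 - 1) + (h2 1 0 - 1) + 1 := by
      beta_reduce at hg
      omega
    rcases Nat.lt_or_ge (W3 (dat B h1 h2 h3 1 1 h κ)) (dat B h1 h2 h3 1 1 h κ).A3 with hW | hW
    · exact tgt_of (hG3 hNm hNn hNe hNs hNz hN3f _ _ _ _ _ _ _ _ _ _ _ _ _ _ hB hYo' hT hW hloc)
    · exact tgt_of (hG4 hNm hNn hNs hNz hNF _ _ _ _ _ _ _ _ _ _ _ _ _ _ hB hYo' hT hW hloc)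
  · subst hq
    have hpr : 1 ≤ p ∧ 1 ≤ r := by
      rcases hY.two with h | h | h <;> omega
    have hqs : r < h3 p 0 := (hP.e13 p 0 r).1 hm
    have hg := hStG B _ _ s13 s31 j13 p r hpr.1 hpr.2 hqs
    have m13 := hP.m13
    have hloc : p + 0 + r + (cor B (fun p => h3 p 0)).card ≤ (h1 0 1 - 1) + (h3 1 0 - 1) + 1 := by
      beta_reduce at hg
      omega
    rcases Nat.lt_or_ge (W3 (dat B h1 h2 h3 1 1 h κ)) (dat B h1 h2 h3 1 1 h κ).A3 with hW | hW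
    · exact tgt_of (hG5 hNm hNn hNe hNs hNz hN3m _ _ _ _ _ _ _ _ _ _ _ _ _ _ hB hYo' hT hW hloc)
    · exact tgt_of (hG6 hNm hNn hNs hNz hNG _ _ _ _ _ _ _ _ _ _ _ _ _ _ hB hYo' hT hW hloc)
  · have b1 := a1.mono hq hr
    have b2 := a2.mono hp hr
    have b3 := a3.mono hp hq
    have k2 := (hP.e12 p q r).1 hm
    have k3 := (hP.e13 p q r).1 hm
    have hloc : p + q + r ≤ (h1 1 1 - 1) + (h2 1 1 - 1) + (h3 1 1 - 1) := by omega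
    rcases Nat.lt_or_ge (W3 (dat B h1 h2 h3 1 1 h κ)) (dat B h1 h2 h3 1 1 h κ).A3 with hW | hW
    · exact tgt_of (hG1 hNm hNn hNe hNs hNz hN3m _ _ _ _ _ _ _ _ _ _ _ _ _ _ hB hYo' hT hW hloc)
    · exact tgt_of (hG2 hNm hNn hNs hNz hNG _ _ _ _ _ _ _ _ _ _ _ _ _ _ hB hYo' hT hW hloc)

end Pool.Agent.Helper21.W4
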