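import Pool.Agent.Helper21.W4.M_P4

set_option autoImplicit false

namespace Pool.Agent.Helper21.W4

open Finset

theorem hP6 : StP6 := by
  intro hG P1 P2 P3 P4 P5
  obtain ⟨hAr, hVol, hSw, hSwT, hCap, hTr, hAr2, hStG, hDD, hYex, hYo, hBase, hNm, hNn, hNe, hNs, hNz⟩ := hG
  -- a missing face
  have L2 : ∀ (B : ℕ) (h1 h2 h3 : ℕ → ℕ → ℕ) (c1 c2 c3 κ : ℕ), Cls B h1 h2 h3 c1 c2 c3 → IsK h1 κ →
      h1 0 1 ≤ 1 → Tgt B h1 h2 h3 κ := by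
    intro B h1 h2 h3 c1 c2 c3 κ hC hK h
    have hT := hSwT hVol B h1 h2 h3 κ hC.pp
    exact hT.2.1 (P1 B (fun q r => h1 r q) h3 h2 c1 c3 c2 κ (hSw B h1 h2 h3 c1 c2 c3 hC).2
      (hT.2.2.2.1 hK) h)
  have L3 : ∀ (B : ℕ) (h1 h2 h3 : ℕ → ℕ → ℕ) (c1 c2 c3 κ : ℕ), Cls B h1 h2 h3 c1 c2 c3 → IsK h1 κ →
      h2 0 1 ≤ 1 → Tgt B h1 h2 h3 κ := by
    intro B h1 h2 h3 c1 c2 c3 κ hC hK h
    have hT := hSwT hVol B h1 h2 h3 κ hC.pp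
    exact hT.1 (L2 B h2 h1 (fun p q => h3 q p) c2 c1 c3 κ (hSw B h1 h2 h3 c1 c2 c3 hC).1
      (hT.2.2.1 hK) h)
  -- no cap at height 1
  have Q0 : ∀ (B : ℕ) (h1 h2 h3 : ℕ → ℕ → ℕ) (c1 c2 c3 κ p q r : ℕ),
      Cls B h1 h2 h3 c1 c2 c3 → IsK h1 κ → 2 ≤ h1 1 1 → 2 ≤ c1 → 2 ≤ c2 → 2 ≤ c3 → IsY h1 p q r →
      (r = 0 ∨ q = 0 ∨ (1 ≤ p ∧ 1 ≤ q ∧ 1 ≤ r)) → Tgt B h1 h2 h3 κ := by
    intro B h1 h2 h3 c1 c2 c3 κ p q r hC hK h111 hc1 hc2 hc3 hY hloc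
    by_cases hq : q = 0
    · have hT := hSwT hVol B h1 h2 h3 κ hC.pp
      exact hT.2.1 (P3 B (fun q r => h1 r q) h3 h2 c1 c3 c2 κ p r q (hSw B h1 h2 h3 c1 c2 c3 hC).2
        (hT.2.2.2.1 hK) h111 hc1 hc3 hc2 (hT.2.2.2.2.2 p q r hY) (Or.inl hq))
    · refine P3 B h1 h2 h3 c1 c2 c3 κ p q r hC hK h111 hc1 hc2 hc3 hY ?_
      rcases hloc with h | h | h
      · exact Or.inl h
      · exact absurd h hq
      · exact Or.inr h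
  have R0 : ∀ (B : ℕ) (h1 h2 h3 : ℕ → ℕ → ℕ) (c1 c2 c3 κ : ℕ),
      Cls B h1 h2 h3 c1 c2 c3 → IsK h1 κ → 2 ≤ h1 1 1 → 2 ≤ h1 1 0 → 2 ≤ c1 → 2 ≤ c2 → 2 ≤ c3 →
      Tgt B h1 h2 h3 κ := by
    intro B h1 h2 h3 c1 c2 c3 κ hC hK h111 h110 hc1 hc2 hc3
    obtain ⟨p, q, r, hY⟩ := hYex B h1 h2 h3 hC.pp (Or.inl h110)
    have hT := hSwT hVol B h1 h2 h3 κ hC.pp
    by_cases hp : p = 0
    · exact hT.1 (Q0 B h2 h1 (fun p q => h3 q p) c2 c1 c3 κ q p r (hSw B h1 h2 h3 c1 c2 c3 hC).1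
        (hT.2.2.1 hK) ((hC.pp.e12 1 1 1).1 h111) hc2 hc1 hc3 (hT.2.2.2.2.1 p q r hY)
        (Or.inr (Or.inl hp)))
    · exact Q0 B h1 h2 h3 c1 c2 c3 κ p q r hC hK h111 hc1 hc2 hc3 hY (by omega)
  -- one cap at height 1
  have R1 : ∀ (B : ℕ) (h1 h2 h3 : ℕ → ℕ → ℕ) (c1 c2 κ : ℕ),
      Cls B h1 h2 h3 c1 c2 1 → IsK h1 κ → 2 ≤ h1 1 1 → 2 ≤ h1 1 0 → 2 ≤ c1 → 2 ≤ c2 →
      Tgt B h1 h2 h3 κ := by
    intro B h1 h2 h3 c1 c2 κ hC hK h111 h110 hc1 hc2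
    obtain ⟨p, q, r, hY⟩ := hYex B h1 h2 h3 hC.pp (Or.inl h110)
    have hT := hSwT hVol B h1 h2 h3 κ hC.pp
    by_cases hp : p = 0
    · exact hT.1 (P4 B h2 h1 (fun p q => h3 q p) c2 c1 κ q p r (hSw B h1 h2 h3 c1 c2 1 hC).1
        (hT.2.2.1 hK) ((hC.pp.e12 1 1 1).1 h111) hc2 hc1 (hT.2.2.2.2.1 p q r hY)
        (Or.inr (Or.inl hp)))
    · exact P4 B h1 h2 h3 c1 c2 κ p q r hC hK h111 hc1 hc2 hY (by omega)
  -- two caps at height 1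
  have R2 : ∀ (B : ℕ) (h1 h2 h3 : ℕ → ℕ → ℕ) (h κ : ℕ),
      Cls B h1 h2 h3 1 1 h → IsK h1 κ → 2 ≤ h → 2 ≤ h1 1 1 → 2 ≤ h1 1 0 → Tgt B h1 h2 h3 κ := by
    intro B h1 h2 h3 h κ hC hK hh h111 h110
    obtain ⟨p, q, r, hY⟩ := hYex B h1 h2 h3 hC.pp (Or.inl h110)
    have hT := hSwT hVol B h1 h2 h3 κ hC.pp
    by_cases hp : p = 0
    · exact hT.1 (P5 B h2 h1 (fun p q => h3 q p) h κ q p r (hSw B h1 h2 h3 1 1 h hC).1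
        (hT.2.2.1 hK) hh ((hC.pp.e12 1 1 1).1 h111) (hT.2.2.2.2.1 p q r hY)
        (Or.inr (Or.inl hp)))
    · exact P5 B h1 h2 h3 h κ p q r hC hK hh h111 hY (by omega)
  intro B h1 h2 h3 c1 c2 c3 κ hC hK
  by_cases f12 : h1 1 0 ≤ 1
  · exact P1 B h1 h2 h3 c1 c2 c3 κ hC hK f12
  by_cases f13 : h1 0 1 ≤ 1
  · exact L2 B h1 h2 h3 c1 c2 c3 κ hC hK f13
  by_cases f23 : h2 0 1 ≤ 1
  · exact L3 B h1 h2 h3 c1 c2 c3 κ hC hK f23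
  by_cases h111 : h1 1 1 ≤ 1
  · exact P2 B h1 h2 h3 c1 c2 c3 κ hC hK (by omega) (by omega) (by omega) h111
  have h111' : 2 ≤ h1 1 1 := by omega
  have h211 : 2 ≤ h2 1 1 := (hC.pp.e12 1 1 1).1 h111'
  have h110 : 2 ≤ h1 1 0 := by omega
  have h101 : 2 ≤ h1 0 1 := by omega
  have h201 : 2 ≤ h2 0 1 := by omega
  have h210 : 2 ≤ h2 1 0 := hC.pp.m12.1 h110
  have hT := hSwT hVol B h1 h2 h3 κ hC.pp
  have hA := (hSw B h1 h2 h3 c1 c2 c3 hC).1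
  have hB := (hSw B h1 h2 h3 c1 c2 c3 hC).2
  have hTA := hSwT hVol B h2 h1 (fun p q => h3 q p) κ hA.pp
  have hAB := (hSw B h2 h1 (fun p q => h3 q p) c2 c1 c3 hA).2
  have hKA := hT.2.2.1 hK
  have hKB := hT.2.2.2.1 hK
  have hKAB := hTA.2.2.2.1 hKA
  have g1 := hC.g1
  have g2 := hC.g2
  have g3 := hC.g3
  by_cases e3 : c3 = 1
  · subst e3
    by_cases e1 : c1 = 1
    · subst e1
      by_cases e2 : c2 = 1
      · subst e2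
        exact absurd ((hC.s1 1 1 1).1 (by omega)).2.2.2 (by omega)
      · -- (1, h, 1)
        exact hT.2.1 (R2 B (fun q r => h1 r q) h3 h2 c2 κ hB hKB (by omega) h111' h101)
    · by_cases e2 : c2 = 1
      · -- (h, 1, 1)
        subst e2
        exact hT.1 (hTA.2.1 (R2 B (fun q r => h2 r q) (fun p q => h3 q p) h1 c1 κ hAB hKAB
          (by omega) h211 h201))
      · exact R1 B h1 h2 h3 c1 c2 κ hC hK h111' h110 (by omega) (by omega)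
  · by_cases e2 : c2 = 1
    · subst e2
      by_cases e1 : c1 = 1
      · subst e1
        exact R2 B h1 h2 h3 c3 κ hC hK (by omega) h111' h110
      · exact hT.2.1 (R1 B (fun q r => h1 r q) h3 h2 c1 c3 κ hB hKB h111' h101 (by omega) (by omega))
    · by_cases e1 : c1 = 1
      · subst e1
        exact hT.1 (hTA.2.1 (R1 B (fun q r => h2 r q) (fun p q => h3 q p) h1 c2 c3 κ hAB hKAB
          h211 h201 (by omega) (by omega)))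
      · exact R0 B h1 h2 h3 c1 c2 c3 κ hC hK h111' h110 (by omega) (by omega) (by omega)

end Pool.Agent.Helper21.W4
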