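import Pool.Agent.Helper67.WI.Sgp3

/-!
# The multiplicity is at least the embedding dimension (here: four)
-/

set_option autoImplicit false

namespace Pool.Agent.Helper21.W4

open Finset Pool.Agent.Helper67.WI

theorem four_le_mult (S : AddSubmonoid ℕ) (hS : {n | n ∉ S}.Finite) (hc : 1 ≤ cond S)
    (he : embDim S = 4) : 4 ≤ mult S := by
  classical
  obtain ⟨r, hr, a, hinj, hgen⟩ := exists_enum hS hc
  have hr3 : r = 3 := by omega
  subst hr3
  rw [← card_nfSet hS hc hgen]
  have hsub : insert (0 : Fin 3 → ℕ) ((univ : Finset (Fin 3)).image (fun i => (Pi.single i 1 : Fin 3 → ℕ))) ⊆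
      nfSet S a := by
    intro x hx
    rw [mem_insert, mem_image] at hx
    rw [mem_nfSet hS hc hgen]
    rcases hx with rfl | ⟨i, _, rfl⟩
    · exact IsNF_down hgen (IsNF_single hS hinj hgen 0) 0 (by
        intro i
        exact Nat.zero_le _)
    · exact IsNF_single hS hinj hgen i
  refine le_trans ?_ (card_le_card hsub)
  rw [card_insert_of_notMem, card_image_of_injective]
  · simp
  · intro i j h
    by_contra hij
    have h' : (Pi.single i 1 : Fin 3 → ℕ) = Pi.single j 1 := h
    have h2 := congrFun h' i
    rw [Pi.single_eq_same, Pi.single_eq_of_ne hij] at h2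
    exact one_ne_zero h2
  · rw [mem_image]
    rintro ⟨i, _, h⟩
    have h' : (Pi.single i 1 : Fin 3 → ℕ) = 0 := h
    have h2 := congrFun h' i
    rw [Pi.single_eq_same] at h2
    exact one_ne_zero h2

end Pool.Agent.Helper21.W4
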