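import Pool.Agent.Helper13.W4.M_Km
import Pool.Agent.Helper13.W4.M_One
import Pool.Agent.Helper15.W4.M_Int
import Pool.Agent.Helper15.W4.M_N3f
import Pool.Agent.Helper15.W4.M_N3m
import Pool.Agent.Helper15.W4.M_NF
import Pool.Agent.Helper15.W4.M_NG
import Pool.Agent.Helper17.W4.M_Waf
import Pool.Agent.Helper19.W4.M_F1
import Pool.Agent.Helper19.W4.M_Ts1
import Pool.Agent.Helper2.W4.M_F2
import Pool.Agent.Helper2.W4.M_F3
import Pool.Agent.Helper2.W4.M_G
import Pool.Agent.Helper2.W4.M_Oc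
import Pool.Agent.Helper2.W4.M_Ua
import Pool.Agent.Helper2.W4.M_Ub
import Pool.Agent.Helper21.W4.M_ALc
import Pool.Agent.Helper21.W4.M_Ar1
import Pool.Agent.Helper21.W4.M_Base
import Pool.Agent.Helper28.W4.M_Tr
import Pool.Agent.Helper29.W4.M_La
import Pool.Agent.Helper3.W4.M_Tar
import Pool.Agent.Helper36.W4.M_Wfin
import Pool.Agent.Helper36.W4.M_Wlin
import Pool.Agent.Helper36.W4.M_Wrho
import Pool.Agent.Helper39.W4.M_Fc
import Pool.Agent.Helper4.W4.M_D1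
import Pool.Agent.Helper4.W4.M_Nd
import Pool.Agent.Helper4.W4.M_SwT
import Pool.Agent.Helper41.W4.M_DD
import Pool.Agent.Helper42.W4.M_Ts2
import Pool.Agent.Helper42.W4.M_Wsg
import Pool.Agent.Helper61.W4.M_Eq
import Pool.Agent.Helper67.W4.M_ALb
import Pool.Agent.Helper67.W4.M_D2
import Pool.Agent.Helper7.W4.M_Lc
import Pool.Agent.Helper70.W4.M_Sw
import Pool.Agent.Helper72.W4.M_ALa
import Pool.Agent.Helper75.W4.M_Ar2
import Pool.Agent.Helper75.W4.M_G3
import Pool.Agent.Helper75.W4.M_G4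
import Pool.Agent.Helper75.W4.M_G5
import Pool.Agent.Helper75.W4.M_G6
import Pool.Agent.Helper75.W4.M_Tcl
import Pool.Agent.Helper75.W4.M_Woo
import Pool.Agent.Helper79.W4.M_Ar
import Pool.Agent.Helper79.W4.M_Card
import Pool.Agent.Helper79.W4.M_Tsg
import Pool.Agent.Helper79.W4.M_Yo
import Pool.Agent.Helper8.W4.M_G1
import Pool.Agent.Helper8.W4.M_N2
import Pool.Agent.Helper80.W4.M_Lb
import Pool.Agent.Helper80.W4.M_N1
import Pool.Agent.Helper84.W4.M_Fa
import Pool.Agent.Helper86.W4.M_Vol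
import Pool.Agent.Helper92.W4.M_Fb
import Pool.Agent.Helper95.W4.M_G2
import Pool.Agent.Helper95.W4.M_Nzv
import Pool.Agent.Helper96.W4.M_E
import Pool.Agent.Helper96.W4.M_Mx
import Pool.Agent.Helper98.W4.M_N0
import Pool.Agent.Helper99.W4.M_Cap
import Pool.Agent.Helper99.W4.M_Dn
import Pool.Agent.Helper99.W4.M_Ld
import Pool.Agent.Helper99.W4.M_MU
import Pool.Agent.Helper99.W4.M_Sp
import Pool.Agent.Helper21.W4.M_Base
import Pool.Agent.Helper21.W4.M_P1
import Pool.Agent.Helper21.W4.M_P2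
import Pool.Agent.Helper21.W4.M_P3
import Pool.Agent.Helper21.W4.M_P4
import Pool.Agent.Helper21.W4.M_P5b
import Pool.Agent.Helper21.W4.M_P6
import Pool.Agent.Helper21.W4.StrictB
import Pool.Agent.Helper21.W4.Mult4

/-!
# Wilf's conjecture in embedding dimension four
-/

set_option autoImplicit false

namespace Pool.Agent.Helper21.W4

theorem hGen : Gen := ⟨Pool.Agent.Helper79.W4.hAr,
  Pool.Agent.Helper86.W4.hVol,
  Pool.Agent.Helper70.W4.hSw,
  Pool.Agent.Helper4.W4.hSwT,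
  Pool.Agent.Helper99.W4.hCap,
  Pool.Agent.Helper28.W4.hTr,
  Pool.Agent.Helper75.W4.hAr2,
  Pool.Agent.Helper2.W4.hG,
  Pool.Agent.Helper41.W4.hDD,
  Pool.Agent.Helper79.W4.hYex,
  Pool.Agent.Helper79.W4.hYo,
  hBase Pool.Agent.Helper79.W4.hAr
    Pool.Agent.Helper86.W4.hVol
    Pool.Agent.Helper86.W4.hBk
    Pool.Agent.Helper15.W4.hInt
    Pool.Agent.Helper79.W4.hCard
    Pool.Agent.Helper99.W4.hCap
    Pool.Agent.Helper72.W4.hALa
    Pool.Agent.Helper67.W4.hALb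
    Pool.Agent.Helper21.W4.hALc
    Pool.Agent.Helper96.W4.hMx
    Pool.Agent.Helper13.W4.hOne
    Pool.Agent.Helper4.W4.hNd
    Pool.Agent.Helper61.W4.hEq
    Pool.Agent.Helper28.W4.hTr
    Pool.Agent.Helper21.W4.hAr1
    Pool.Agent.Helper75.W4.hAr2
    Pool.Agent.Helper41.W4.hDD
    Pool.Agent.Helper13.W4.hKm, Pool.Agent.Helper98.W4.hNmono,
  Pool.Agent.Helper98.W4.hNnf,
  Pool.Agent.Helper98.W4.hNeps,
  Pool.Agent.Helper98.W4.hNstar,
  Pool.Agent.Helper95.W4.hNzv⟩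

/-- the inequality for all members of the class -/
theorem core (B : ℕ) (h1 h2 h3 : ℕ → ℕ → ℕ) (c1 c2 c3 κ : ℕ) (hC : Cls B h1 h2 h3 c1 c2 c3)
    (hK : IsK h1 κ) : Tgt B h1 h2 h3 κ :=
  hP6 hGen (hP1 hGen Pool.Agent.Helper99.W4.hLd Pool.Agent.Helper80.W4.hN1 Pool.Agent.Helper4.W4.hD1 Pool.Agent.Helper4.W4.hD1a) (hP2 hGen Pool.Agent.Helper2.W4.hOc Pool.Agent.Helper67.W4.hD2)
    (hP3 hGen Pool.Agent.Helper99.W4.hMU
      Pool.Agent.Helper2.W4.hUa
      Pool.Agent.Helper99.W4.hSp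
      Pool.Agent.Helper29.W4.hLa
      Pool.Agent.Helper80.W4.hN01b
      Pool.Agent.Helper80.W4.hN01f
      Pool.Agent.Helper96.W4.hE1
      Pool.Agent.Helper96.W4.hE2)
    (hP4 hGen Pool.Agent.Helper99.W4.hMU
      Pool.Agent.Helper2.W4.hUa
      Pool.Agent.Helper99.W4.hSp
      Pool.Agent.Helper80.W4.hLb
      Pool.Agent.Helper8.W4.hN2b
      Pool.Agent.Helper8.W4.hN2f12
      Pool.Agent.Helper8.W4.hN2f13
      Pool.Agent.Helper19.W4.hF1
      Pool.Agent.Helper2.W4.hF2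
      Pool.Agent.Helper2.W4.hF3)
    (hP5b hGen Pool.Agent.Helper99.W4.hMU
      Pool.Agent.Helper99.W4.hMUt
      Pool.Agent.Helper2.W4.hUa
      Pool.Agent.Helper2.W4.hUb
      Pool.Agent.Helper99.W4.hSp
      Pool.Agent.Helper7.W4.hLc
      Pool.Agent.Helper99.W4.hDn
      Pool.Agent.Helper84.W4.hFa
      Pool.Agent.Helper92.W4.hFb
      Pool.Agent.Helper39.W4.hFc
      Pool.Agent.Helper2.W4.hOc
      Pool.Agent.Helper15.W4.hN3m
      Pool.Agent.Helper15.W4.hN3f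
      Pool.Agent.Helper15.W4.hNG
      Pool.Agent.Helper15.W4.hNF
      Pool.Agent.Helper8.W4.hG1
      Pool.Agent.Helper95.W4.hG2
      Pool.Agent.Helper75.W4.hG3
      Pool.Agent.Helper75.W4.hG4
      Pool.Agent.Helper75.W4.hG5
      Pool.Agent.Helper75.W4.hG6)
    B h1 h2 h3 c1 c2 c3 κ hC hK

/-- Wilf's inequality in embedding dimension four -/
theorem wilf4 (S : AddSubmonoid ℕ) (hS : {n | n ∉ S}.Finite) (hc : 1 ≤ Pool.Agent.Helper67.WI.cond S)
    (he : Pool.Agent.Helper67.WI.embDim S = 4) :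
    Pool.Agent.Helper67.WI.cond S ≤ 4 * Pool.Agent.Helper67.WI.left S :=
  Pool.Agent.Helper36.W4.hWfin Pool.Agent.Helper79.W4.hAr
    Pool.Agent.Helper86.W4.hVol
    Pool.Agent.Helper19.W4.hTs1
    Pool.Agent.Helper42.W4.hTs2
    Pool.Agent.Helper3.W4.hTar
    Pool.Agent.Helper75.W4.hTcl
    Pool.Agent.Helper79.W4.hTsg
    Pool.Agent.Helper75.W4.hWoo
    Pool.Agent.Helper36.W4.hWrho
    Pool.Agent.Helper17.W4.hWaf
    Pool.Agent.Helper36.W4.hWlin
    Pool.Agent.Helper42.W4.hWsg core S hS hc he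

/-- the strict form when the multiplicity is larger than four -/
theorem wilf4_strict (S : AddSubmonoid ℕ) (hS : {n | n ∉ S}.Finite)
    (hc : 1 ≤ Pool.Agent.Helper67.WI.cond S) (he : Pool.Agent.Helper67.WI.embDim S = 4)
    (hm : 4 < Pool.Agent.Helper67.WI.mult S) :
    Pool.Agent.Helper67.WI.cond S < 4 * Pool.Agent.Helper67.WI.left S :=
  wfin_strict Pool.Agent.Helper79.W4.hAr
    Pool.Agent.Helper86.W4.hVol
    Pool.Agent.Helper19.W4.hTs1
    Pool.Agent.Helper42.W4.hTs2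
    Pool.Agent.Helper3.W4.hTar
    Pool.Agent.Helper75.W4.hTcl
    Pool.Agent.Helper79.W4.hTsg
    Pool.Agent.Helper75.W4.hWoo
    Pool.Agent.Helper36.W4.hWlin
    Pool.Agent.Helper42.W4.hWsg core S hS hc he hm

end Pool.Agent.Helper21.W4
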