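import Pool.Agent.Helper21.W4.Asm

set_option autoImplicit false

namespace Pool.Agent.Helper21.W4

open Finset

theorem hP2 : StP2 := by
  intro hG hOc hD2 B h1 h2 h3 c1 c2 c3 κ hC hK hf12 hf13 hf23 h111
  obtain ⟨hAr, hVol, hSw, hSwT, hCap, hTr, hAr2, hStG, hDD, hYex, hYo, hBase, -⟩ := hG
  have hP := hC.pp
  have hP0 := hP.toPP0
  obtain ⟨a1, a2, a3, s12, s21, j12, s13, s31, j13, s23, s32, j23⟩ := hAr B h1 h2 h3 hP0
  have hB := hBase B h1 h2 h3 c1 c2 c3 κ hC hK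
  have m12 : 1 < h2 1 0 := hP.m12.1 (by omega)
  have m13 : 1 < h3 1 0 := hP.m13.1 (by omega)
  have m23 : 1 < h3 0 1 := hP.m23.1 (by omega)
  -- c = (1,1,1)
  have hc : c1 ≤ 1 ∧ c2 ≤ 1 ∧ c3 ≤ 1 := by
    by_contra hcon
    have := (hC.s1 1 1 1).2 ⟨m12, m13, m23, hcon⟩
    omega
  have e1 : c1 = 1 := le_antisymm hc.1 hC.g1
  have e2 : c2 = 1 := le_antisymm hc.2.1 hC.g2
  have e3 : c3 = 1 := le_antisymm hc.2.2 hC.g3
  subst e1 e2 e3
  have h211 : h2 1 1 ≤ 1 := by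
    by_contra hcon
    have := (hP.e12 1 1 1).2 (by omega)
    omega
  have h311 : h3 1 1 ≤ 1 := by
    by_contra hcon
    have := (hP.e13 1 1 1).2 (by omega)
    omega
  refine tgt_of (hD2 _ hB ?_ ?_ ?_ ?_ ?_ ?_ ?_ ?_ ?_ ?_ ?_)
  · show h1 1 1 - 1 = 0
    omega
  · show h2 1 1 - 1 = 0
    omega
  · show h3 1 1 - 1 = 0
    omega
  · show bk B h3 = 0
    exact bk_zero a3 h311
  · show loss B h1 1 1 1 + loss B h2 1 1 1 + loss B h3 1 1 1 = 0
    unfold loss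
    simp
  · exact (hAr2 hTr B _ _ s12 s21 j12).2.2.2.2 (show 2 ≤ h2 1 0 by omega)
  · exact (hAr2 hTr B _ _ s13 s31 j13).2.2.2.2 (show 2 ≤ h3 1 0 by omega)
  · exact (hAr2 hTr B _ _ s23 s32 j23).2.2.2.2 (show 2 ≤ h3 0 1 by omega)
  · have h := hOc B _ _ s12 s21 j12 (show 2 ≤ h2 1 0 by omega)
    have ho := hC.o12
    show (cor B (fun p => h2 p 0)).card + (if h1 1 0 - 1 < h1 0 0 - 1 then 1 else 0) +
      (if h2 1 0 - 1 < h2 0 0 - 1 then 1 else 0) ≤ 2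
    beta_reduce at h
    have n1 := hP.n1
    have n2 := hP.n2
    split_ifs at h ⊢ <;> omega
  · have h := hOc B _ _ s13 s31 j13 (show 2 ≤ h3 1 0 by omega)
    have ho := hC.o13
    show (cor B (fun p => h3 p 0)).card + (if h1 0 1 - 1 < h1 0 0 - 1 then 1 else 0) +
      (if h3 1 0 - 1 < h3 0 0 - 1 then 1 else 0) ≤ 2
    beta_reduce at h
    have n1 := hP.n1
    have n3 := hP.n3
    split_ifs at h ⊢ <;> omega
  · have h := hOc B _ _ s23 s32 j23 (show 2 ≤ h3 0 1 by omega)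
    have ho := hC.o23
    show (cor B (fun q => h3 0 q)).card + (if h2 0 1 - 1 < h2 0 0 - 1 then 1 else 0) +
      (if h3 0 1 - 1 < h3 0 0 - 1 then 1 else 0) ≤ 2
    beta_reduce at h
    have n2 := hP.n2
    have n3 := hP.n3
    split_ifs at h ⊢ <;> omega

end Pool.Agent.Helper21.W4
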