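import Pool.Agent.Helper21.W4.M_P4

set_option autoImplicit false

namespace Pool.Agent.Helper21.W4

open Finset

/-- the facts on one face of a down-set of type 3 -/
theorem face3 (hTr : StTr) (hFa : StFa) (hFb : StFb) {B H u : ℕ} {s t : ℕ → ℕ} (hs : Sq B s)
    (ht : Sq B t) (hj : Cj s t) (h2 : 2 ≤ s (H + 2)) :
    F3 H u (s 1 - 1) (ar B t) (cor B t).card (dd B t u) (kk B t u (H + 1))
      ((cor B s).filter (fun l => H + 2 ≤ l)).card ((cor B s).filter (fun l => l < H + 2)).card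
      ((cor B s).filter (fun l => H + 2 ≤ l ∧ u < s l - 1)).card
      ((cor B s).filter (fun l => l < H + 2 ∧ u < s l - 1)).card (s (H + 2) - 1) := by
  obtain ⟨f1, f2, f3, f4, f5, f6, f7, f8, f9, f10⟩ := hFa B s t (H + 2) u hs ht hj (by omega) h2
  obtain ⟨t1, t2, t3, t4⟩ := hTr B s t hs ht hj
  have fb := hFb B s (H + 2) hs (by omega) h2
  have e1 : H + 2 - 1 = H + 1 := by omega
  rw [e1] at f4 fb
  refine ⟨?_, ?_, ?_, f5, f6, f7, f8, f9, f10, ?_⟩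
  · rw [← t2]
    exact f1
  · rw [← t3]
    exact f2
  · rw [← t4]
    exact f4
  · rw [← t1]
    exact fb

theorem hP5 : StP5 := by
  intro hG hMU hMUt hUa hUb hSp hLc hDn hFa hFb hFc hOc B h1 h2 h3 h κ hC hK hh h111
  obtain ⟨hAr, hVol, hSw, hSwT, hCap, hTr, hAr2, hStG, hDD, hYex, hYo, hBase, hNm, hNn, hNe, hNs, hNz⟩ := hG
  have hP := hC.pp
  have hP0 := hP.toPP0
  obtain ⟨a1, a2, a3, s12, s21, j12, s13, s31, j13, s23, s32, j23⟩ := hAr B h1 h2 h3 hP0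
  obtain ⟨h211, h311, u1, u2, u3⟩ := mus hSw hMU hC h111
  have v1 := u1 (Or.inr hh)
  have v2 := u2 (Or.inr hh)
  obtain ⟨m3, m21, m31, m32⟩ := hMUt B h1 h2 h3 h hC hh
  have hA' := (hSw B h1 h2 h3 1 1 h hC).1
  have j31 : Cj (fun r => h1 0 r) (fun p => h3 p 0) := fun p q => (j13 q p).symm
  have j32 : Cj (fun r => h2 0 r) (fun q => h3 0 q) := fun p q => (j23 q p).symm
  obtain ⟨H, rfl⟩ : ∃ H, h = H + 2 := ⟨h - 2, by omega⟩
  have k1 : 2 ≤ h1 0 (H + 2) := (hP.e13 1 0 (H + 2)).2 m31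
  have k2 : 2 ≤ h2 0 (H + 2) := (hP.e12 0 1 (H + 2)).1 ((hP.e13 0 1 (H + 2)).2 m32)
  have F1 := face3 (u := h1 1 1 - 1) hTr hFa hFb s31 s13 j31 k1
  have F2 := face3 (u := h2 1 1 - 1) hTr hFa hFb s32 s23 j32 k2
  have c1 := hFc B _ _ (H + 2) s31 s13 j31 (by omega) k1 hC.o31
  have c2 := hFc B _ _ (H + 2) s32 s23 j32 (by omega) k2 hC.o32
  have b1 := (hFa B _ _ (H + 2) (h1 1 1 - 1) s31 s13 j31 (by omega) k1).2.2.1
  have b2 := (hFa B _ _ (H + 2) (h2 1 1 - 1) s32 s23 j32 (by omega) k2).2.2.1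
  obtain ⟨ε, ε1, ε2, hL⟩ := hLc hAr hCap hSp hMU hSw B h1 h2 h3 (H + 2) hC (by omega) h111 m3
  have hx13 := hUb hAr hMUt B h1 h2 h3 (H + 2) hC (by omega) h111 v1
  have hx23 := hUb hAr hMUt B h2 h1 (fun p q => h3 q p) (H + 2) hA' (by omega) h211 v2
  have hx12 := hUa hAr B h1 h2 h3 1 1 (H + 2) hC h111 (by omega) v1 v2
  have hdn := hDn hAr hMUt B h1 h2 h3 (H + 2) hC (by omega)
  have hoc := hOc B _ _ s12 s21 j12 m21
  have ho := hC.o12
  have e1 : h3 1 1 - 1 = H + 1 := by omega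
  have e2 : H + 2 - 1 = H + 1 := by omega
  have e3 : H + 2 - 2 = H := by omega
  rw [e3]
  refine ⟨ε,
    ((cor B (fun r => h1 0 r)).filter (fun l => H + 2 ≤ l)).card,
    ((cor B (fun r => h1 0 r)).filter (fun l => l < H + 2)).card,
    ((cor B (fun r => h1 0 r)).filter (fun l => H + 2 ≤ l ∧ h1 1 1 - 1 < h1 0 l - 1)).card,
    ((cor B (fun r => h1 0 r)).filter (fun l => l < H + 2 ∧ h1 1 1 - 1 < h1 0 l - 1)).card,
    h1 0 (H + 2) - 1,
    ((cor B (fun r => h2 0 r)).filter (fun l => H + 2 ≤ l)).card,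
    ((cor B (fun r => h2 0 r)).filter (fun l => l < H + 2)).card,
    ((cor B (fun r => h2 0 r)).filter (fun l => H + 2 ≤ l ∧ h2 1 1 - 1 < h2 0 l - 1)).card,
    ((cor B (fun r => h2 0 r)).filter (fun l => l < H + 2 ∧ h2 1 1 - 1 < h2 0 l - 1)).card,
    h2 0 (H + 2) - 1,
    ⟨?_, ?_⟩, ⟨?_, ?_⟩, ?_, ?_, ?_, ?_, ?_, ?_, ?_, ?_, c1.1,
    c2.1, ?_, ?_, ?_, ?_, ?_, ?_, ε1, ?_⟩
  · show h1 1 1 - 1 = min (h1 1 0 - 1) (h1 0 1 - 1)
    omega
  · show 1 ≤ h1 1 1 - 1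
    omega
  · show h2 1 1 - 1 = min (h2 1 0 - 1) (h2 0 1 - 1)
    omega
  · show 1 ≤ h2 1 1 - 1
    omega
  · exact e1
  · exact hx12
  · exact hx13
  · exact hx23
  · show F3 H (h1 1 1 - 1) (h1 0 1 - 1) (ar B (fun p => h3 p 0)) (cor B (fun p => h3 p 0)).card
      (dd B (fun p => h3 p 0) (h1 1 1 - 1)) (kk B (fun p => h3 p 0) (h1 1 1 - 1) (h3 1 1 - 1))
      _ _ _ _ _
    rw [e1]
    exact F1
  · show F3 H (h2 1 1 - 1) (h2 0 1 - 1) (ar B (fun q => h3 0 q)) (cor B (fun q => h3 0 q)).card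
      (dd B (fun q => h3 0 q) (h2 1 1 - 1)) (kk B (fun q => h3 0 q) (h2 1 1 - 1) (h3 1 1 - 1))
      _ _ _ _ _
    rw [e1]
    exact F2
  · show dd B (fun r => h1 0 r) (h3 1 1 - 1) = _
    rw [m3]
    exact b1
  · show dd B (fun r => h2 0 r) (h3 1 1 - 1) = _
    rw [m3]
    exact b2
  · intro h
    have h' : h3 1 0 - 1 < h3 0 0 - 1 := h
    have := c1.2 (show h3 1 0 < h3 0 0 by omega)
    exact ⟨this.1, by omega⟩
  · intro h
    have h' : h3 0 1 - 1 < h3 0 0 - 1 := h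
    have := c2.2 (show h3 0 1 < h3 0 0 by omega)
    exact ⟨this.1, by omega⟩
  · show (cor B (fun p => h2 p 0)).card + (if h1 1 0 - 1 < h1 0 0 - 1 then 1 else 0) +
      (if h2 1 0 - 1 < h2 0 0 - 1 then 1 else 0) ≤ H + 3
    beta_reduce at hoc
    have n1 := hP.n1
    have n2 := hP.n2
    split_ifs at hoc ⊢ <;> omega
  · show H ≤ dnv B h1 (H + 2) + _ + _
    omega
  · exact hSp B h1 h2 h3 hP h111
  · exact hL
  · intro h
    obtain ⟨q1, q2, q3, q4, q5, q6⟩ := ε2 h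
    exact ⟨by omega, q2, q3, q4, q5, q6⟩

end Pool.Agent.Helper21.W4
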