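import Pool.Agent.Helper21.W4.St1

/-!
# Wilf in embedding dimension four: statements, part 2 (the types of down-sets)

(p,q,r) ∈ D means p < h1 q r, equivalently q < h2 p r, equivalently r < h3 p q.
-/

set_option autoImplicit false

namespace Pool.Agent.Helper21.W4

open Finset

/-- **StMU.** The spine is the minimum of the two widths, unless c2 = c3 = 1.

Proof. For all p: p < h1 1 1 iff (s1) 1 < h2 p 0 ∧ 1 < h3 p 0 ∧ 1 < h3 0 1 ∧ ¬ (c1 ≤ p ∧ c2 ≤ 1 ∧ c3 ≤ 1).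
The last condition is true because c2 ≥ 2 or c3 ≥ 2. 1 < h3 0 1 holds: take p = 1 (1 < h1 1 1 by
hypothesis). 1 < h2 p 0 iff p < h1 1 0 (e12); 1 < h3 p 0 iff p < h1 0 1 (e13). So p < h1 1 1 iff
p < h1 1 0 ∧ p < h1 0 1, for all p. -/
def StMU : Prop := ∀ (B : ℕ) (h1 h2 h3 : ℕ → ℕ → ℕ) (c1 c2 c3 : ℕ), Cls B h1 h2 h3 c1 c2 c3 →
  2 ≤ h1 1 1 → (2 ≤ c2 ∨ 2 ≤ c3) → h1 1 1 = min (h1 1 0) (h1 0 1)

/-- **StMUt.** In type 3 the spine in direction 3 ends below the cap.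

Proof. gen: the second alternative is impossible (B ≤ 1, but B ≥ 3 as 1 + 1 < B by bd). So
1 < h2 1 0, h < h3 1 0, h < h3 0 1. r < h3 1 1 iff 1 < h1 1 r iff (s1 for (1,1,r)) 1 < h2 1 0 ∧
r < h3 1 0 ∧ r < h3 0 1 ∧ ¬ (h ≤ r) iff r < h. -/
def StMUt : Prop := ∀ (B : ℕ) (h1 h2 h3 : ℕ → ℕ → ℕ) (h : ℕ), Cls B h1 h2 h3 1 1 h → 2 ≤ h →
  h3 1 1 = h ∧ 2 ≤ h2 1 0 ∧ h < h3 1 0 ∧ h < h3 0 1

/-- **StUa.** A corner of the face 12 has nothing above it iff it is beyond the spine, if c3 ≥ 2.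

Proof. Let p be a corner of s := fun p => h2 p 0, q := s p - 1 ≥ 1. Then q < h2 p 0, so
p < h1 q 0 ≤ h1 1 0 (StAr) and 0 < h3 p q. h3 p q = 1 iff ¬ 1 < h3 p q, and 1 < h3 p q iff p < h1 q 1
iff (s1) q < h2 p 0 ∧ 1 < h3 p 0 ∧ 1 < h3 0 q ∧ ¬ (c1 ≤ p ∧ c2 ≤ q ∧ c3 ≤ 1) iff p < h1 0 1 ∧ q < h2 0 1
(1 < h3 p 0 iff p < h1 0 1; 1 < h3 0 q iff 0 < h1 q 1 iff q < h2 0 1). As p < h1 1 0:
p < h1 0 1 iff p < h1 1 1 (= min) iff ¬ (h1 1 1 - 1 < p); as q < h2 p 0 ≤ h2 1 0: q < h2 0 1 iff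
q < h2 1 1 iff ¬ (h2 1 1 - 1 < q). So h3 p q = 1 iff h1 1 1 - 1 < p ∨ h2 1 1 - 1 < q = s p - 1, which
is the condition in kk. (h1 1 1 ≥ 1 and h2 1 1 ≥ 1: h1 1 1 ≥ 2 by hypothesis, 1 < h1 1 1 iff
1 < h2 1 1.) -/
def StUa : Prop := StAr → ∀ (B : ℕ) (h1 h2 h3 : ℕ → ℕ → ℕ) (c1 c2 c3 : ℕ),
  Cls B h1 h2 h3 c1 c2 c3 → 2 ≤ h1 1 1 → 2 ≤ c3 →
  h1 1 1 = min (h1 1 0) (h1 0 1) → h2 1 1 = min (h2 1 0) (h2 0 1) →
  unc B h3 (fun p => h2 p 0) = kk B (fun p => h2 p 0) (h1 1 1 - 1) (h2 1 1 - 1)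

/-- **StUb.** The same for the face 13 of a down-set of type 3.

Proof. Let p be a corner of s := fun p => h3 p 0, r := s p - 1 ≥ 1; r < h3 p 0, so p < h1 0 r ≤ h1 0 1
(StAr), and 0 < h2 p r. 1 < h2 p r iff p < h1 1 r iff (s1) 1 < h2 p 0 ∧ r < h3 p 0 ∧ r < h3 0 1 ∧
¬ (1 ≤ p ∧ 1 ≤ 1 ∧ h ≤ r) iff p < h1 1 0 ∧ r < h, because r < h implies r < h3 0 1 (StMUt) and
1 < h2 p 0 iff p < h1 1 0. As p < h1 0 1: p < h1 1 0 iff p < h1 1 1 iff ¬ (h1 1 1 - 1 < p). r < h iff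
¬ (h3 1 1 - 1 < r) since h3 1 1 = h ≥ 2. So h2 p r = 1 iff h1 1 1 - 1 < p ∨ h3 1 1 - 1 < s p - 1. -/
def StUb : Prop := StAr → StMUt → ∀ (B : ℕ) (h1 h2 h3 : ℕ → ℕ → ℕ) (h : ℕ),
  Cls B h1 h2 h3 1 1 h → 2 ≤ h → 2 ≤ h1 1 1 → h1 1 1 = min (h1 1 0) (h1 0 1) →
  unc B h2 (fun p => h3 p 0) = kk B (fun p => h3 p 0) (h1 1 1 - 1) (h3 1 1 - 1)

/-- **StSp.** The spine is in the interior.

Proof. In bk B h3 = ∑ p q ∈ range B, (h3 (p+1) (q+1) - 1) the index (0,0) contributes h3 1 1 - 1; the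
indices (p,0) with 1 ≤ p, p+1 < h1 1 1 contribute ≥ 1 each (p+1 < h1 1 1 iff 1 < h3 (p+1) 1): h1 1 1 - 2 of
them; the indices (0,q) with 1 ≤ q, q+1 < h2 1 1 contribute ≥ 1 each: h2 1 1 - 2 of them
(h2 1 1 ≥ 2, h3 1 1 ≥ 2 too, by e12, e13). -/
def StSp : Prop := ∀ (B : ℕ) (h1 h2 h3 : ℕ → ℕ → ℕ), PP B h1 h2 h3 → 2 ≤ h1 1 1 →
  (h1 1 1 - 1) + (h2 1 1 - 1) + (h3 1 1 - 1) ≤ bk B h3 + 2

/-- **StLa.** The losses, if all c ≥ 2.

Proof. Let Q be the set of the (p,q,r) with 1 ≤ p,q,r < B and p < h1 q r; |Q| = bk B h3 (for fixed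
p,q ≥ 1 the number of r ≥ 1 with r < h3 p q is h3 p q - 1). Let X ⊆ Q be the spine: the points
(i,1,1), (1,i,1), (1,1,i) in Q; |X| = u1 + u2 + u3 - 2 with u1 = h1 1 1 - 1 etc. Let
T3 := {(p,q,r) : inR h3 c1 c2 c3 p q, 1 ≤ r < c3}, T2 := {(p,q,r) : inR h2 c1 c3 c2 p r, 1 ≤ q < c2},
T1 := {(p,q,r) : inR h1 c2 c3 c1 q r, 1 ≤ p < c1}. By Cap (StCap) h3 p q = c3 on the region of T3, so
T3 ⊆ Q, |T3| = (c3 - 1) |{(p,q) : inR ..}| ≥ (c3 - 1) rr B h3 c1 c2 c3, and loss B h3 c1 c2 c3 = c3 rr ≤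
2 (c3 - 1) rr ≤ 2 |T3| (c3 ≥ 2). The same for T2, T1. The four sets are disjoint: on T3 p ≥ c1,
q ≥ c2, r < c3; on T2 p ≥ c1, q < c2, r ≥ c3; on T1 p < c1, q ≥ c2, r ≥ c3; and each T has two
coordinates ≥ 2, a spine point has at most one. So the sum of the losses is ≤
2 (|T1| + |T2| + |T3|) ≤ 2 (|Q| - |X|). -/
def StLa : Prop := StAr → StCap → ∀ (B : ℕ) (h1 h2 h3 : ℕ → ℕ → ℕ) (c1 c2 c3 : ℕ),
  Cls B h1 h2 h3 c1 c2 c3 → 2 ≤ h1 1 1 → 2 ≤ c1 → 2 ≤ c2 → 2 ≤ c3 →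
  loss B h1 c2 c3 c1 + loss B h2 c1 c3 c2 + loss B h3 c1 c2 c3 +
    2 * ((h1 1 1 - 1) + (h2 1 1 - 1) + (h3 1 1 - 1)) ≤ 2 * bk B h3 + 4

/-- **StLb.** The losses in type 2.

Proof. Notation of StLa with c3 = 1: loss B h3 c1 c2 1 = 0. T1 = {(p,q,r) : (q,r) ∈ R1, 1 ≤ p < c1}, R1 =
{(q,r) : c2 ≤ q, 1 ≤ r, 0 < h1 q r, c1 < h1 q 0, c1 < h1 0 r}; T2 = {(p,q,r) : (p,r) ∈ R2, 1 ≤ q < c2}, R2 =
{(p,r) : c1 ≤ p, 1 ≤ r, 0 < h2 p r, c2 < h2 p 0, c2 < h2 0 r}. T1, T2 ⊆ Q (h1 = c1 on R1, h2 = c2 on R2)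
and T1, T2 are disjoint (p < c1, p ≥ c1). A spine point in T1 has q ≥ 2, so p = r = 1: the spine points
in T1 are the (1,q,1) with (q,1) ∈ R1; let ρ be the number of the q with (q,1) ∈ R1.
Claim: loss B h1 c2 1 c1 = c1 rr1 ≤ 2 (|T1| - ρ) + 2. If rr1 = 0 this is clear (|T1| = (c1-1)|R1| ≥ ρ). Let
rr1 ≥ 1. (q,r) ∈ R1 implies (q,1) ∈ R1 (monotonicity), and different maximal elements of R1 (those counted in
rr) have different q and different r (if (q,r), (q,r') ∈ R1, r < r', then (q,r+1) ∈ R1, so (q,r) is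
not maximal; the same for q), so ρ ≥ rr1 and at most one maximal element has r = 1: |R1| ≥ ρ + rr1 - 1.
So 2 (|T1| - ρ) + 2 = 2 ((c1 - 1) |R1| - ρ) + 2 ≥ 2 (c1 - 1)(ρ + rr1 - 1) - 2 ρ + 2 =
2 (c1 - 2) ρ + 2 (c1 - 1)(rr1 - 1) + 2 ≥ 2 (c1 - 2) rr1 + 2 (c1 - 1)(rr1 - 1) + 2 = (4 c1 - 6) rr1 - 2 c1 + 4,
and this is ≥ c1 rr1 since (3 c1 - 6) rr1 ≥ 3 c1 - 6 ≥ 2 c1 - 4 (c1 ≥ 2).
The same for T2 (spine points (p,1,1), (p,1) ∈ R2). So the losses are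
≤ 2 (|T1 \ X| + |T2 \ X|) + 4 ≤ 2 (|Q| - |X|) + 4 = 2 (bk - (u1 + u2 + u3 - 2)) + 4. -/
def StLb : Prop := StAr → StCap → ∀ (B : ℕ) (h1 h2 h3 : ℕ → ℕ → ℕ) (c1 c2 : ℕ),
  Cls B h1 h2 h3 c1 c2 1 → 2 ≤ h1 1 1 → 2 ≤ c1 → 2 ≤ c2 →
  loss B h1 c2 1 c1 + loss B h2 c1 1 c2 + loss B h3 c1 c2 1 +
    2 * ((h1 1 1 - 1) + (h2 1 1 - 1) + (h3 1 1 - 1)) ≤ 2 * bk B h3 + 8

/-- **StLc.** The losses in type 3.

Proof. The losses of h1, h2 are 0 (their caps are 1); the loss of h3 is h * rr, where rr is the number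
of maximal elements of R := {(p,q) : 1 ≤ p, 1 ≤ q, 0 < h3 p q, h < h3 p 0, h < h3 0 q}, a set which is
closed downwards inside {p,q ≥ 1} (StAr). If rr = 0 take ε = 0 and use StSp. Let rr ≥ 1, so (1,1) ∈ R.
Let ρ = #{p : (p,1) ∈ R}, ρ' = #{q : (1,q) ∈ R}, I = #{(p,q) ∈ R : p,q ≥ 2}, |R| = ρ + ρ' - 1 + I.
T := {(p,q,r) : (p,q) ∈ R, 1 ≤ r < h} ⊆ Q (h3 = h on R by StCap; Q, X as in StLa), |T| = (h-1)|R|, and the
spine points in T are (1,1,r), 1 ≤ r < h, then (p,1,1) with (p,1) ∈ R, p ≥ 2, and (1,q,1) with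
(1,q) ∈ R, q ≥ 2: together (h-1) + (ρ-1) + (ρ'-1). So bk = |Q| ≥ |X| + |T| - |T ∩ X| =
(u1+u2+u3-2) + (h-2)(ρ+ρ'-2) + (h-1) I. The maximal elements (p_1,q_1), .., with p_1 < p_2 < .. have
q_1 > q_2 > ..; so ρ ≥ rr, ρ' ≥ rr, p_j ≥ j, q_j ≥ rr + 1 - j, and the points (p_j, q) with 2 ≤ q ≤ q_j,
j ≥ 2, show I ≥ ∑ over j ≥ 2 of (rr - j) = (rr-1)(rr-2)/2.
It remains to see h rr ≤ h + 2 (h-2)(ρ+ρ'-2) + 2 (h-1) I + 2 ε, for which
h (rr-1) ≤ 4 (h-2)(rr-1) + (h-1)(rr-1)(rr-2) + 2 ε suffices. If rr = 1 or h ≥ 3 (4 (h-2) ≥ h)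
take ε = 0. If h = 2 and rr ≥ 2 take ε = 1: 2 (rr-1) ≤ (rr-1)(rr-2) + 2 for rr = 2, 3 and all
rr ≥ 4. In this case, let (p_1,q_1), (p_2,q_2) be two maximal elements, p_1 < p_2, q_1 > q_2; p_2 ≥ 2,
q_1 ≥ 2. h < h3 p_2 0 gives p_2 < h1 0 h, so 2 ≤ h1 0 h - 1; h < h3 0 q_1 gives q_1 < h2 0 h, so
2 ≤ h2 0 h - 1. With s p = h2 p 0: (p_1+1, q_1) is not in R although h < h3 (p_1+1) 0 (p_1+1 ≤ p_2), so
h3 (p_1+1) q_1 = 0, s (p_1+1) ≤ q_1 < s p_1: p_1 is a corner of s; s p_2 > q_2 ≥ 1, so s (p_1+1) ≥ 2 and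
the largest p with s p ≥ 2 is a corner ≥ p_2 > p_1: two corners. 3 ≤ h1 1 1 = min (h1 1 0) (h1 0 1)
(StMU): (p_2,1,0) ∈ D gives p_2 < h1 1 0, and h1 0 1 ≥ h1 0 h > p_2. 3 ≤ h2 1 1 = min (h2 1 0) (h2 0 1)
(StMU for the first exchange of StSw): (1,q_1,0) ∈ D, h2 0 1 ≥ h2 0 h > q_1. -/
def StLc : Prop := StAr → StCap → StSp → StMU → StSw → ∀ (B : ℕ) (h1 h2 h3 : ℕ → ℕ → ℕ) (h : ℕ),
  Cls B h1 h2 h3 1 1 h → 2 ≤ h → 2 ≤ h1 1 1 → h3 1 1 = h →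
  ∃ ε, ε ≤ 1 ∧
    (ε = 1 → h = 2 ∧ 2 ≤ (cor B (fun p => h2 p 0)).card ∧ 2 ≤ h1 1 1 - 1 ∧ 2 ≤ h2 1 1 - 1 ∧
      2 ≤ h1 0 h - 1 ∧ 2 ≤ h2 0 h - 1) ∧
    loss B h1 1 h 1 + loss B h2 1 h 1 + loss B h3 1 1 h +
      2 * ((h1 1 1 - 1) + (h2 1 1 - 1) + (h3 1 1 - 1)) ≤ 2 * bk B h3 + 4 + h + 2 * ε

/-- **StLd.** No losses if (1,1,0) is not in D.

Proof. rr = 0, because the three regions are empty. h3: c1 ≤ p, c2 ≤ q, 0 < h3 p q imply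
0 < h3 1 1 (StAr), so 1 < h1 1 0, absurd. h2 (region in (p,r)): c1 ≤ p and c2 < h2 p 0 imply
1 < h2 p 0 ≤ h2 1 0, so 1 < h1 1 0. h1 (region in (q,r)): c2 ≤ q and c1 < h1 q 0 imply 1 < h1 1 0. -/
def StLd : Prop := StAr → ∀ (B : ℕ) (h1 h2 h3 : ℕ → ℕ → ℕ) (c1 c2 c3 : ℕ),
  Cls B h1 h2 h3 c1 c2 c3 → h1 1 0 ≤ 1 →
  loss B h1 c2 c3 c1 = 0 ∧ loss B h2 c1 c3 c2 = 0 ∧ loss B h3 c1 c2 c3 = 0

/-- **StDn.** Equal rows in type 3.

Proof. Each r with 1 ≤ r ≤ h - 2 (h - 2 numbers) is counted in dnv B h1 h or is a corner < h of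
fun r => h1 0 r or a corner < h of fun r => h2 0 r. Indeed 2 ≤ h1 1 r: s1 for (1,1,r), StMUt, r < h.
If h1 0 (r+1) < h1 0 r then r is a corner of fun r => h1 0 r, because h1 0 r ≥ h1 0 h ≥ 2 (h < h3 1 0 iff
1 < h1 0 h). The same for h2 0 (r+1) < h2 0 r (h < h3 0 1 iff 0 < h1 1 h iff 1 < h2 0 h). If both are
equalities then the rows r, r+1 of h1 are equal: for all q and p, p < h1 q (r+1) iff
q < h2 p 0 ∧ r+1 < h3 p 0 ∧ r+1 < h3 0 q ∧ ¬ (1 ≤ p ∧ 1 ≤ q ∧ h ≤ r+1); the last condition is true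
(r+1 < h); r+1 < h3 p 0 iff p < h1 0 (r+1) = h1 0 r iff r < h3 p 0; r+1 < h3 0 q iff
q < h2 0 (r+1) = h2 0 r iff r < h3 0 q; so this is equivalent to p < h1 q r. And r + 1 < h = the third
argument of dnv; r < B. -/
def StDn : Prop := StAr → StMUt → ∀ (B : ℕ) (h1 h2 h3 : ℕ → ℕ → ℕ) (h : ℕ),
  Cls B h1 h2 h3 1 1 h → 2 ≤ h →
  h ≤ 2 + dnv B h1 h + ((cor B (fun r => h1 0 r)).filter (fun l => l < h)).card +
    ((cor B (fun r => h2 0 r)).filter (fun l => l < h)).card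

/-- **StFa.** A face of a down-set of type 3: counting. (s is the sequence by height; in the
application s r = h1 0 r, t p = h3 p 0.)

Proof. Let C = cor B s. The first four statements split C by l < h or h ≤ l (h - 1 < l iff h ≤ l);
in kk the corners with l < h are counted iff u < s l - 1. n ≥ 1: the largest l with s l ≥ 2 is ≥ h
and is a corner. y > 0: there is a corner l ≥ h with u < s l - 1 ≤ s h - 1; then for every corner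
l' < h also u < s h - 1 ≤ s l' - 1. The corners with s l - 1 ≤ u have different values s l - 1 in [1,u]
(if l < l' are corners then s l' ≤ s (l+1) < s l), so there are at most u of them, and all others are
counted in y or z. The corners l ≥ h have different values s l - 1 in [1, s h - 1]. -/
def StFa : Prop := ∀ (B : ℕ) (s t : ℕ → ℕ) (h u : ℕ), Sq B s → Sq B t → Cj s t → 2 ≤ h → 2 ≤ s h →
  (cor B s).card = ((cor B s).filter (fun l => h ≤ l)).card +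
    ((cor B s).filter (fun l => l < h)).card ∧
  ((cor B s).filter (fun l => u < s l - 1)).card =
    ((cor B s).filter (fun l => h ≤ l ∧ u < s l - 1)).card +
    ((cor B s).filter (fun l => l < h ∧ u < s l - 1)).card ∧
  dd B s (h - 1) = ((cor B s).filter (fun l => h ≤ l)).card ∧
  kk B s (h - 1) u = ((cor B s).filter (fun l => h ≤ l)).card +
    ((cor B s).filter (fun l => l < h ∧ u < s l - 1)).card ∧
  1 ≤ ((cor B s).filter (fun l => h ≤ l)).card ∧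
  ((cor B s).filter (fun l => l < h ∧ u < s l - 1)).card ≤
    ((cor B s).filter (fun l => l < h)).card ∧
  ((cor B s).filter (fun l => h ≤ l ∧ u < s l - 1)).card ≤
    ((cor B s).filter (fun l => h ≤ l)).card ∧
  (1 ≤ ((cor B s).filter (fun l => h ≤ l ∧ u < s l - 1)).card →
    u + 1 ≤ s h - 1 ∧ ((cor B s).filter (fun l => l < h)).card =
      ((cor B s).filter (fun l => l < h ∧ u < s l - 1)).card) ∧
  ((cor B s).filter (fun l => h ≤ l)).card + ((cor B s).filter (fun l => l < h)).card ≤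
    u + ((cor B s).filter (fun l => h ≤ l ∧ u < s l - 1)).card +
    ((cor B s).filter (fun l => l < h ∧ u < s l - 1)).card ∧
  ((cor B s).filter (fun l => h ≤ l)).card ≤ s h - 1

/-- **StFb.** A face of a down-set of type 3: area.

Proof. Write n, t' for the two numbers of corners. ar B s = ∑ over r ≥ 1 of (s r - 1).
Rows r ≥ h: the sum is ≥ (s h - 1) + (n - 1), because the largest corner ≥ h is ≥ h + n - 1 (n different
numbers ≥ h) and s r - 1 ≥ 1 for h < r ≤ this corner.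
Row 1: s 1 - 1. Rows 2 ≤ r < h: s r - 1 ≥ (s h - 1) + #{corners l : r ≤ l < h} (every corner decreases s
by at least one), so the sum is ≥ (h-2)(s h - 1) + ∑ over the corners l < h of (l - 1), and since the
t' corners are different and ≥ 1, the last sum is ≥ 0 + 1 + .. + (t'-1) = t'(t'-1)/2.
Total: ar ≥ (s 1 - 1) + (h-1)(s h - 1) + (n-1) + t'(t'-1)/2. -/
def StFb : Prop := ∀ (B : ℕ) (s : ℕ → ℕ) (h : ℕ), Sq B s → 2 ≤ h → 2 ≤ s h →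
  2 * (s 1 - 1) + 2 * (h - 1) * (s h - 1) + 2 * ((cor B s).filter (fun l => h ≤ l)).card +
    ((cor B s).filter (fun l => l < h)).card * ((cor B s).filter (fun l => l < h)).card ≤
  2 * ar B s + 2 + ((cor B s).filter (fun l => l < h)).card

/-- **StFc.** A face of a down-set of type 3: consequence of property (S2).

Proof. Let l be a corner with h - 1 ≤ l. Then r := l + 1 ≥ h, s r < s (r-1), and r is counted in
oc B s h 1 iff 1 ≤ s (l+1) iff l + 1 < t 0; l < t 1 ≤ t 0 because s l ≥ 2 (t is nonincreasing). (r < B: Sq.fin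
for l, as s l ≠ 0.) Different l give different r.
If t 1 < t 0 then all corners with h - 1 ≤ l are counted, so there is at most one; the largest l
with s l ≥ 2 is a corner ≥ h; so there is exactly one corner ≥ h and none at h - 1, and the corners
< h lie in [1, h-2]. If t 1 = t 0 then all but at most one (l = t 0 - 1) are counted: at most two
corners ≥ h - 1. -/
def StFc : Prop := ∀ (B : ℕ) (s t : ℕ → ℕ) (h : ℕ), Sq B s → Sq B t → Cj s t → 2 ≤ h → 2 ≤ s h →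
  oc B s h 1 ≤ 1 →
  ((cor B s).filter (fun l => h ≤ l)).card ≤ 2 ∧
  (t 1 < t 0 → ((cor B s).filter (fun l => h ≤ l)).card = 1 ∧
    ((cor B s).filter (fun l => l < h)).card + 2 ≤ h)

/-- **StOc.** Consequence of property (S2) for a face with c = (1,1,*).

Proof. For a corner l the position l+1 ≥ 2 satisfies s (l+1) < s l, and 1 ≤ s (l+1) iff l+1 < t 0, where
l < t 1 (2 ≤ s l). If t 1 < t 0 all positions l+1 are counted in oc B s 1 1, otherwise all but at most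
one (l = t 0 - 1). If s 1 < s 0 the position 1 is counted too (1 ≤ s 1). So
card + [s 1 < s 0] ≤ oc + [t 1 = t 0] and t 1 ≤ t 0. -/
def StOc : Prop := ∀ (B : ℕ) (s t : ℕ → ℕ), Sq B s → Sq B t → Cj s t → 2 ≤ s 1 →
  (cor B s).card + (if t 1 < t 0 then 1 else 0) + (if s 1 < s 0 then 1 else 0) ≤ oc B s 1 1 + 1

end Pool.Agent.Helper21.W4
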