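import Pool.Agent.Helper21.W4.St3

/-!
# Wilf in embedding dimension four: statements, part 4 (the numerical data of the types)

General plan for all modules D..: put K = nf A1 W1 + nf A2 W2 (+ nf A3 W3) and g = W1 + W2 + W3 - s,
Zp := 3 - g + X0 x, Vp := g + 1 + a12 + a13 + a23 + bk (integers). StNzv gives
Zx x ≤ Zp - (sum of nf A_i W_i * (W_i + 2)) and Vp - (sum of nf A_i W_i) ≤ Vx x. nf is 0 or 1, and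
nf A_i W_i = 1 iff A_i ≤ W_i. W_i ≥ 1 if nf A_i W_i = 1 (A_i ≥ 1), so nf * (W_i + 2) ≥ 3 nf. Then the pure
inequality gives Good Zp Vp, StNnf gives Good (Zx x) (Vx x), StNstar gives TgtN x.
Facts used all the time (from Base and u_i = min of the two widths), called EXC:
 if u1 = min w12 w13 then W1 x ≥ u1 + d12 + d13, W1 x - w12 ≥ d13, W1 x - w13 ≥ d12,
because w12 ≥ u1 + d12, w13 ≥ u1 + d13 and one of the widths is u1 (so its d is 0). The same for the indices 2, 3.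
The d's, k's, e's: d12 + d21 ≥ k12 ≥ d12, d21, k12 ≤ e12.
-/

set_option autoImplicit false

namespace Pool.Agent.Helper21.W4

/-- **StD1.** Mode 1: the face 12 is trivial.

Proof. w12 = w21 = 0 (Base.e12: 1 ≤ w12 implies 1 ≤ e12), so W1 = w13, W2 = w23; d12 = d21 = x12 = 0
(≤ k12 ≤ e12 = 0). X0 x ≤ (d13 + d31 + x13) + (d23 + d32 + x23) ≤ 3 e13 + 3 e23. g = w13 + w23 + W3 - s ≥
w23 + (W3 - w31) + e13 - 1 ≥ e23 + e13 - 1. Zp ≤ 4 + 2 (e13 + e23), Vp ≥ e13 + e23 + a13 + a23. StN1 with e = e13,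
f = e23, a = a13, b = a23 gives Good Zp Vp. Vp ≥ 2 (e13 ≥ 1, a13 ≥ 1). -/
def StD1 : Prop := StNmono → StNnf → StNstar → StNzv → StN1 → ∀ (x : Dat) (s : ℕ), Base x → Yo x s →
  x.u1 = 0 → x.u2 = 0 → x.u3 = 0 → x.bk = 0 → x.L = 0 → x.e12 = 0 → 1 ≤ x.e13 →
  s + x.e13 ≤ x.w13 + x.w31 + 1 → TgtN x

/-- **StD1a.** Only the axes.

Proof. All e, hence all w, d, x are 0, W_i = 0 < A_i, fl = 2, X0 x ≤ 0, so m - N ≤ 7 - S with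
S = A1 + A2 + A3 ≥ 3, and 2 (m - N) + 1 ≤ 15 - 2 S ≤ 9. κ ≤ S + 1 (κ = A_i + 3 and the other two are ≥ 1), m ≥ 1 + S
(Base.hm). If 2 (m - N) + 1 ≤ 0 the claim is clear; otherwise κ (2 (m-N) + 1) ≤ (S+1) 9 ≤ 9 m. -/
def StD1a : Prop := ∀ (x : Dat), Base x → x.u1 = 0 → x.u2 = 0 → x.u3 = 0 → x.bk = 0 → x.L = 0 →
  x.e12 = 0 → x.e13 = 0 → x.e23 = 0 → (x.κ = x.A1 + 3 ∨ x.κ = x.A2 + 3 ∨ x.κ = x.A3 + 3) → TgtN x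

/-- **StD2.** Mode 2: c = (1,1,1).

Proof. d's and x's are ≤ the e's: X0 x ≤ 3 (e12 + e13 + e23). m - N ≤ 1 - ∑ A + 3 ∑ e + ∑ fl =: R. Claim R ≤ 4;
then κ (2 (m-N) + 1) ≤ 9 κ ≤ 9 m (if 2 (m-N)+1 ≤ 0 trivial). Let i be free if W_i < A_i (then both w's are
< A_i). Two free indices i, j contradict the hypothesis for the face ij (e ≥ 1 and 1 + 1 + e ≤ 2). If exactly
one index is free, say 1: w12 < A1, w13 < A1, so e12 = 1, e13 = 1, A2 = w21, A3 = w31 (the second ifs are 0), A1 ≥ 2,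
e23 ≤ 2; R = 1 - ∑ A + 3 ∑ e + 2 - (A2 + 1) - (A3 + 1) = 1 - A1 - 2 A2 - 2 A3 + 3 (2 + e23) and A2, A3 ≥ e23 (w23, w32 ≥ e23):
e23 = 1: ≤ 1 - 2 - 4 + 9 = 4; e23 = 2: ≤ 1 - 2 - 8 + 12 = 3. If no index is free: R = - 2 - 2 ∑ A + 3 ∑ e with
A_i ≥ all e of the faces containing i, e ≤ 2: (2,2,2): ≤ -2 - 12 + 18 = 4; (2,2,1): ≤ -2-12+15 = 1; (2,1,1): the two
indices of the face with 2 have A ≥ 2: ≤ -2 - 10 + 12 = 0; (1,1,1): ≤ -2 - 6 + 9 = 1. (omega does it after unfolding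
and case distinctions.) -/
def StD2 : Prop := ∀ (x : Dat), Base x → x.u1 = 0 → x.u2 = 0 → x.u3 = 0 → x.bk = 0 → x.L = 0 →
  1 ≤ x.e12 → 1 ≤ x.e13 → 1 ≤ x.e23 →
  x.e12 + (if x.w12 < x.A1 then 1 else 0) + (if x.w21 < x.A2 then 1 else 0) ≤ 2 →
  x.e13 + (if x.w13 < x.A1 then 1 else 0) + (if x.w31 < x.A3 then 1 else 0) ≤ 2 →
  x.e23 + (if x.w23 < x.A2 then 1 else 0) + (if x.w32 < x.A3 then 1 else 0) ≤ 2 → TgtN x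

/-- **StE1.** Types 0, 1; the largest point is in the interior.

Proof. X0 x ≤ 4 + ∑ d + ∑ k (T01.L, x = k). g ≥ ∑ (W_i - u_i) ≥ ∑ d (EXC). Zp ≤ 7 - g + ∑ d + ∑ k ≤ 7 + ∑ k.
Vp ≥ ∑ d + 1 + ∑ a + (∑ u - 2) ≥ 2 + ∑ k + ∑ a. All e ≥ 1 (w ≥ u ≥ 1), k ≤ e, so k² + k ≤ e² + e ≤ 2 a and a ≥ 1. StN01b. -/
def StE1 : Prop := StNmono → StNnf → StNstar → StNzv → StN01b → ∀ (x : Dat) (s : ℕ), Base x → Yo x s →
  T01 x → s ≤ x.u1 + x.u2 + x.u3 → TgtN x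

/-- **StE2.** Types 0, 1; the largest point is in the face 12.

Proof. g ≥ W3 + (W1 - w12) + (W2 - w21) + e12 - 1 ≥ (u3 + d31 + d32) + d13 + d23 + e12 - 1 (EXC). X0 x ≤ 4 + ∑ d + ∑ k.
Zp ≤ 3 - g + X0 ≤ 8 - u3 - e12 + d12 + d21 + k12 + k13 + k23 ≤ 7 + 2 e12 + k13 + k23 (u3 ≥ 1; d12, d21, k12 ≤ e12).
Vp = g + 1 + ∑ a + bk ≥ (1 + k13 + k23 + e12 - 1) + 1 + ∑ a + (∑ u - 2) ≥ 2 + k13 + k23 + e12 + ∑ a. StN01f with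
e = e12, k2 = k13, k3 = k23, a1 = a12, a2 = a13, a3 = a23. -/
def StE2 : Prop := StNmono → StNnf → StNstar → StNzv → StN01f → ∀ (x : Dat) (s : ℕ), Base x → Yo x s →
  T01 x → s + x.e12 ≤ x.w12 + x.w21 + 1 → TgtN x

/-- **StF1.** Type 2; interior.

Proof. X0 x ≤ 8 + ∑ d + x12 + k13 + k23 with x12 ≤ e12 (T2.L, Base.x12). g ≥ ∑ d (EXC), ∑ u ≥ 5.
Zp ≤ 11 + e12 + k13 + k23. Vp ≥ ∑ d + 1 + ∑ a + 3 ≥ 4 + k13 + k23 + ∑ a. a12 ≥ 3: w12, w21 ≥ 2, Base.a12: for e12 = 1: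
8 + 1 ≤ 2 a12 + 3, e12 = 2: 8 + 4 ≤ 2 a12 + 6, e12 ≥ 3: Base.b12. a13 ≥ 2: w13 ≥ 2, w31 ≥ 1: e13 = 1: 6 + 1 ≤
2 a13 + 3, e13 ≥ 2: Base.b13; a23 the same. StN2b with e = e12. -/
def StF1 : Prop := StNmono → StNnf → StNstar → StNzv → StN2b → ∀ (x : Dat) (s : ℕ), Base x → Yo x s →
  T2 x → s ≤ x.u1 + x.u2 + x.u3 → TgtN x

/-- **StF2.** Type 2; the largest point is in the face 12.

Proof. g ≥ u3 + d31 + d32 + d13 + d23 + e12 - 1 as in StE2. X0 x ≤ 8 + ∑ d + e12 + k13 + k23. With D = d12 + d21 ≤ 2 e12: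
Zp ≤ 3 - g + X0 ≤ 12 - u3 + D + k13 + k23 ≤ 11 + D + k13 + k23. Vp ≥ (1 + k13 + k23 + e12 - 1) + 1 + ∑ a + (∑ u - 2) ≥
4 + k13 + k23 + e12 + ∑ a (∑ u ≥ 5). 2 a12 + 3 e12 ≥ 2 (w12 + w21) + e12² ≥ 2 (4 + D) + e12². a13, a23 ≥ 2 as in StF1. StN2f12. -/
def StF2 : Prop := StNmono → StNnf → StNstar → StNzv → StN2f12 → ∀ (x : Dat) (s : ℕ), Base x → Yo x s →
  T2 x → s + x.e12 ≤ x.w12 + x.w21 + 1 → TgtN x

/-- **StF3.** Type 2; the largest point is in the face 13.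

Proof. g ≥ W2 + (W1 - w13) + (W3 - w31) + e13 - 1 ≥ (u2 + d21 + d23) + d12 + d32 + e13 - 1. X0 x ≤ 8 + ∑ d + e12 + k13 + k23.
With D = d13 + d31 ≤ 2 e13: Zp ≤ 12 - u2 - e13 + D + e12 + k13 + k23 ≤ 10 + D + e12 + k23 (u2 ≥ 2, k13 ≤ e13).
Vp ≥ (2 + k23 + e13 - 1) + 1 + ∑ a + (∑ u - 2) ≥ 5 + k23 + e13 + ∑ a. 2 a13 + 3 e13 ≥ 2 (w13 + w31) + e13² ≥
2 ((2 + d13) + (1 + d31)) + e13² = 2 D + 6 + e13². StN2f13 with e = e13, x = e12, n = k23. -/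
def StF3 : Prop := StNmono → StNnf → StNstar → StNzv → StN2f13 → ∀ (x : Dat) (s : ℕ), Base x → Yo x s →
  T2 x → s + x.e13 ≤ x.w13 + x.w31 + 1 → TgtN x

/-! ### Type 3

Common part of StG1 - StG6. Let D = d12 + d21, w = n + n', M = max n n', τ = t + t', σ = z + z' ≤ τ, k = k12, e = e12,
h = H + 2. From T3: d13 = y + z, d31 = n, d23 = y' + z', d32 = n', k13 = n + z, k23 = n' + z', u3 = H + 1, so
 X0 x ≤ 6 + H + 2ε + ∑ d + ∑ k - 2 dn, ∑ d = D + (y+z) + (y'+z') + w, ∑ k = k12 + w + σ;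
 bk ≥ u1 + u2 + H - 1;  k ≤ D ≤ 2k;  2 a12 + 3 e ≥ 2 (w12 + w21) + e² ≥ 2 D + 4 + e² (u1, u2 ≥ 1);
 dn ≥ H - τ, dn ≥ 0.
 (SB) 2 (y + z + u1 + a13) ≥ 4 (n + t) + 2 (H+1) n + 2 (n - 1) + t² - t: from F3.a with w13 ≥ u1 + y + z (Base.d13),
 u1 + y + z ≥ n + t and al ≥ n. The same for the face 23: 2 (y' + z' + u2 + a23) ≥ 4 (n'+t') + 2 (H+1) n' + 2 (n'-1) + t'² - t'.
 W3 ≥ u3 + M = H + 1 + M (Base.d31, d32). e ≥ 1.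
-/

/-- **StG1.** Type 3, interior, A3 > W3.

Proof. w31, w32 ≤ W3 < A3, so n = n' = 1, t, t' ≤ H (T3.s13, s23), y, y' ≤ 1. nf A3 W3 = 0.
g ≥ (W1 - u1) + (W2 - u2) + (W3 - u3) ≥ d12 + d13 + d21 + d23 + 1 = D + (y+z) + (y'+z') + 1.
Zp = 3 - g + X0 ≤ 12 + 2ε + θ + k + σ with θ = H - 2 dn; θ ≤ H and θ ≤ τ (dn ≥ 0 and dn ≥ H - τ).
Vp = g + 1 + ∑ a + bk ≥ D + a12 + 1 + H + (y+z+u1+a13) + (y'+z'+u2+a23), so by (SB)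
2 Vp ≥ 2 D + 2 a12 + 14 + 6 H + 4 τ + (t²-t) + (t'²-t').
ε = 0: StN3m with y = 0, z = t, z' = t' (Z = Zp ≤ 12 + θ + k + t + t') gives Good Zp Vp; StNnf.
ε = 1: H = 0, so t = t' = z = z' = 0, θ ≤ 0, and u1, u2, al, al' ≥ 2. Now y + z + u1 + a13 ≥ y + u1 + (u1 + y) + al ≥ 6 and the
same for 23 (instead of 3), so Vp ≥ Vb + 6 with Vb := D + a12 + 7, Zp ≤ Zb + 2 with Zb := 12 + θ + k. StN3m (H = 0, y = z = z' = 0) gives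
Good Zb Vb. e ≤ 3 (T3.s12), so Zb ≤ 12 + 3. With K = nf A1 W1 + nf A2 W2 ≤ 2: StNnf: Good (Zb - 3K) (Vb - K); then StNeps for
Zx x ≤ (Zb - 3K) + 2, Vx x ≥ (Vb - K) + 6 (Vb - K ≥ -5). -/
def StG1 : Prop := StNmono → StNnf → StNeps → StNstar → StNzv → StN3m → ∀ (x : Dat)
  (s H ε n t y z al n' t' y' z' al' : ℕ), Base x → Yo x s → T3 x H ε n t y z al n' t' y' z' al' →
  W3 x < x.A3 → s ≤ x.u1 + x.u2 + x.u3 → TgtN x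

/-- **StG2.** Type 3, interior, A3 ≤ W3.

Proof. nf A3 W3 = 1 and W3 + 2 ≥ H + 3 + M. g ≥ D + (y+z) + (y'+z') + M. Put Z1 := Zp - (H + 3 + M), V1 := Vp - 1.
Z1 ≤ 9 + H + 2ε - M + 2w + k + σ - H - 3 - M = 6 + 2ε + 2 (w - M) + k + σ ≤ c + k + t + t', c := 6 + 2 min n n' + 2ε.
V1 ≥ D + M + H - 1 + a12 + (y+z+u1+a13) + (y'+z'+u2+a23), and by (SB) with H ≥ 0: 2 (y+z+u1+a13) ≥ 8 n - 2 + 4 t + t² - t, so
2 V1 ≥ 2 D + 2 a12 + 2 b + 4 τ + (t²-t) + (t'²-t'), b := M + 4 w - 3. n, n' ∈ {1,2}: (min, M, w) = (1,1,2): c ≤ 10, b = 6;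
(1,2,3): c ≤ 10, b = 11; (2,2,4): c ≤ 12, b = 15. In all cases c² ≤ 18 (b+1). StNG gives Good Z1 V1, V1 ≥ 2, and StNnf with
k = nf A1 W1 + nf A2 W2 gives Good (Zx x) (Vx x). -/
def StG2 : Prop := StNmono → StNnf → StNstar → StNzv → StNG → ∀ (x : Dat)
  (s H ε n t y z al n' t' y' z' al' : ℕ), Base x → Yo x s → T3 x H ε n t y z al n' t' y' z' al' →
  x.A3 ≤ W3 x → s ≤ x.u1 + x.u2 + x.u3 → TgtN x

/-- **StG3.** Type 3, the largest point is in the face 12, A3 > W3.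

Proof. n = n' = 1, t, t' ≤ H as in StG1. g ≥ W3 + (W1 - w12) + (W2 - w21) + e - 1 ≥ (H + 2) + (y+z) + (y'+z') + e - 1 (EXC for 1, 2).
Zp ≤ 9 + H + 2ε - 2 dn - g + ∑ d + ∑ k ≤ 12 + 2ε - e + D + k + σ. Vp ≥ 2 H + 1 + e + a12 + (y+z+u1+a13) + (y'+z'+u2+a23), so
2 Vp ≥ 14 + 8 H + 2 e + 2 a12 + 4 τ + (t²-t) + (t'²-t'). Let K = nf A1 W1 + nf A2 W2. If K = 0 then w12 < A1, w21 < A2 and e ≤ H + 1.
ε = 0: StN3f with z = t, z' = t' applied to Z = Zx x ≤ Zp - 3K, V = Vx x ≥ Vp - K.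
ε = 1: H = 0, t = t' = z = z' = 0; as in StG1 y + z + u1 + a13 ≥ 6 etc., so Vx x ≥ Vb + 6, Zx x ≤ Zb + 2 with
Zb := 12 - e + D + k - 3K ≤ 12 + 2e ≤ 18 (e ≤ 3), 2 Vb := 14 + 2 e + 2 a12 - 2K; Good Zb Vb by StN3f; StNeps. -/
def StG3 : Prop := StNmono → StNnf → StNeps → StNstar → StNzv → StN3f → ∀ (x : Dat)
  (s H ε n t y z al n' t' y' z' al' : ℕ), Base x → Yo x s → T3 x H ε n t y z al n' t' y' z' al' →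
  W3 x < x.A3 → s + x.e12 ≤ x.w12 + x.w21 + 1 → TgtN x

/-- **StG4.** Type 3, the largest point is in the face 12, A3 ≤ W3.

Proof. g ≥ (H + 1 + M) + (y+z) + (y'+z') + e - 1. Z1 := Zp - (H+3+M) ≤ 6 + 2ε - H + 2 (w - M) + (D + k - e) + σ ≤
c + D + k - e + t + t', c := 6 + 2 min n n' + 2ε ≤ 12. V1 := Vp - 1 ≥ 2 H - 1 + M + e + a12 + (y+z+u1+a13) + (y'+z'+u2+a23), so (as in StG2)
2 V1 ≥ 2 b + 2 e + 2 a12 + 4 τ + (t²-t) + (t'²-t') with b := M + 4 w - 3. c² + 6 ≤ 18 (b+1): (c,b) = (≤10, 6): 106 ≤ 126; (≤10, 11);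
(≤12, 15): 150 ≤ 288. StNF, then StNnf. -/
def StG4 : Prop := StNmono → StNnf → StNstar → StNzv → StNF → ∀ (x : Dat)
  (s H ε n t y z al n' t' y' z' al' : ℕ), Base x → Yo x s → T3 x H ε n t y z al n' t' y' z' al' →
  x.A3 ≤ W3 x → s + x.e12 ≤ x.w12 + x.w21 + 1 → TgtN x

/-- **StG5.** Type 3, the largest point is in the face 13, A3 > W3.

Proof. n = n' = 1, t, t' ≤ H. e13 = 1 + t. g ≥ W2 + (W1 - w13) + (W3 - w31) + e13 - 1 ≥ (u2 + d21 + d23) + d12 + t = u2 + D + (y'+z') + t.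
Zp ≤ 9 + H + 2ε - 2 dn - g + ∑ d + ∑ k ≤ 13 + H + 2ε - 2 dn - u2 - t + y + 2 z + z' + k. Put X = t - z, X' = t' - z' (≥ 0). u2 ≥ 1 + X': if
y' = 0 then u2 + z' ≥ 1 + t'; if y' ≥ 1 then t' = z' and u2 ≥ 1. With θ := H - 2 dn - X - X': Zp ≤ 12 + 2ε + θ + k + y + z + z', θ ≤ H,
θ ≤ τ - X - X' = z + z'. y ≤ 1.
Vp ≥ D + H + a12 + P + Q, P := t + u1 + a13, Q := 2 u2 + y' + z' + a23. 2 P ≥ 2 t + 4 u1 + 2 y + 2 z + 2 (H+1) al + t² - t (F3.a,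
w13 ≥ u1 + y + z). y = 0: u1 ≥ 1 + X, al ≥ 1: 2 P ≥ 6 + 2 H + 4 z + z² - z (t = z + X, t² - t ≥ z² - z). y = 1: t = z, u1 ≥ 1, al ≥ 2:
2 P ≥ 2 z + 4 + 2 + 2 z + 4 (H+1) + z² - z = 6 + 2 H + 4 z + z² - z + 2 (H + 2). So in both cases
2 P ≥ 6 + 2 H + 4 z + (z² - z) + 2 y (H+2). 2 Q ≥ 6 u2 + 4 (y' + z') + 2 (H+1) al' + t'² - t' ≥ 8 + 2 H + 4 z' + z'² - z'. So
2 Vp ≥ 2 D + 2 a12 + 14 + 6 H + 4 (z+z') + 2 y (H+2) + (z²-z) + (z'²-z'). z, z' ≤ H.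
ε = 0: StN3m, StNnf.
ε = 1: H = 0, t = t' = 0, X = X' = 0, u2 ≥ 2: Zp ≤ 13 + 2 - 2 dn - u2 + y + k ≤ Zb + 2 with Zb := 12 + θ + k + y, θ := - 2 dn. 2 P ≥ 4 u1 + 2 y +
2 al ≥ 12 + 2 y ≥ (6 + 4 y) + 4 (y ≤ 1), 2 Q ≥ 12 + 4 y' + 4 ≥ 8 + 8. So Vp ≥ Vb + 6, 2 Vb := 2 D + 2 a12 + 14 + 4 y; Good Zb Vb by StN3m;
Zb ≤ 16; conclusion as in StG1 with StNnf and StNeps. -/
def StG5 : Prop := StNmono → StNnf → StNeps → StNstar → StNzv → StN3m → ∀ (x : Dat)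
  (s H ε n t y z al n' t' y' z' al' : ℕ), Base x → Yo x s → T3 x H ε n t y z al n' t' y' z' al' →
  W3 x < x.A3 → s + x.e13 ≤ x.w13 + x.w31 + 1 → TgtN x

/-- **StG6.** Type 3, the largest point is in the face 13, A3 ≤ W3.

Proof. g ≥ W2 + (W1 - w13) + (W3 - w31) + e13 - 1 ≥ u2 + d21 + d23 + d12 + (n + t) - 1 = u2 + D + (y'+z') + n + t - 1.
Z1 := Zp - (H+3+M) ≤ 6 + 2ε - M - g + ∑ d + ∑ k ≤ 7 + 2ε - M - u2 - t + y + 2 z + z' + n + 2 n' ... in detail: - g + ∑ d + ∑ k =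
- u2 - n - t + 1 + y + z + w + k + w + σ, so Z1 ≤ 7 + 2ε - M - u2 - n - t + y + z + 2 w + k + σ ≤ (y ≤ n, z ≤ t, u2 ≥ 1)
6 + 2ε - M + 2 w + k + σ ≤ c + k + t + t', c := 6 + 2ε + 2 w - M.
V1 := Vp - 1 ≥ D + H - 1 + a12 + P + Q, P := n + t - 1 + u1 + a13, Q := 2 u2 + y' + z' + a23. 2 P ≥ 2 n + 2 t - 2 + 2 u1 + 2 (u1 + y + z) +
2 (H+1) al + 2 (n-1) + t² - t ≥ 8 n - 2 + 4 t + t² - t (u1 ≥ 1, u1+y+z ≥ n+t, al ≥ n). 2 Q ≥ 2 u2 + 4 (u2 + y' + z') + 2 (H+1) al' + 2 (n'-1) +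
t'² - t' ≥ 8 n' + 4 t' + t'² - t'. So 2 V1 ≥ 2 b + 2 D + 2 a12 + 4 τ + (t²-t) + (t'²-t') with b := 4 w - 2. (n,n'): w = 2: c ≤ 11, b = 6,
121 ≤ 126; w = 3: M = 2, c ≤ 12, b = 10; w = 4: M = 2, c ≤ 14, b = 14, 196 ≤ 270. StNG, StNnf. -/
def StG6 : Prop := StNmono → StNnf → StNstar → StNzv → StNG → ∀ (x : Dat)
  (s H ε n t y z al n' t' y' z' al' : ℕ), Base x → Yo x s → T3 x H ε n t y z al n' t' y' z' al' →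
  x.A3 ≤ W3 x → s + x.e13 ≤ x.w13 + x.w31 + 1 → TgtN x

end Pool.Agent.Helper21.W4
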