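import Pool.Agent.Helper21.W4.St1
import Pool.Agent.Helper67.WI.Sgp3

/-!
# Wilf in embedding dimension four: statements, part 5 (from semigroups to arrays; the weights)
-/

set_option autoImplicit false

namespace Pool.Agent.Helper21.W4

open Finset

/-- **StTs1.** Property (S1).

Proof. Call (p,q,r) a full corner if p,q,r ≥ 1, ¬ D p q r, D (p-1) q r, D p (q-1) r, D p q (r-1).
(1) A full corner satisfies p • g1 + q • g2 + r • g3 = 0. By nf take D p' q' r' with the same value. If p' ≥ 1,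
then D (p-1) q r and D (p'-1) q' r' have the same value (cancel g1: write p = a+1, p' = a'+1, succ_nsmul,
add_right_cancel after rearranging), so a = a', q = q', r = r' by inj and D p q r, absurd. So p' = 0, and in the
same way q' = 0, r' = 0.
(2) Two full corners c, c' are equal: let d_i = min (c_i, c'_i) ≥ 1. c - d and c' - d have the same value
(value(c - d) + value(d) = value(c) = 0 = value(c') = value(c' - d) + value(d)), and both are in D by
down (c - d ≤ (c_1 - 1, c_2, c_3)). So c - d = c' - d by inj and c = c'.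
(3) If ¬ D x but the three projections of x to the coordinate planes are in D, then x ≥ some full corner:
take c ≤ x with ¬ D c and c_1 + c_2 + c_3 minimal (Nat.find or strong induction). c_1 ≥ 1, otherwise
c = (0,c_2,c_3) ≤ (0,x_2,x_3) ∈ D; similarly c_2, c_3 ≥ 1. Minimality: the predecessors are in D.
If there is no full corner, the right alternative holds by (3) and down. If c is a full corner: the equivalence:
D x implies the projections (down) and ¬ c ≤ x (else D c). Conversely if the projections of x are in D and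
¬ c ≤ x, then D x, otherwise x ≥ some full corner by (3), which is c by (2). D c1 c2 0 ≤ (c1,c2,c3-1) etc. -/
def StTs1 : Prop := ∀ (G : Type) [AddCommGroup G] (D : ℕ → ℕ → ℕ → Prop) (g1 g2 g3 : G),
  TD D g1 g2 g3 →
  (∃ c1 c2 c3, 1 ≤ c1 ∧ 1 ≤ c2 ∧ 1 ≤ c3 ∧
    (∀ p q r, D p q r ↔ (D p q 0 ∧ D p 0 r ∧ D 0 q r ∧ ¬ (c1 ≤ p ∧ c2 ≤ q ∧ c3 ≤ r))) ∧
    D c1 c2 0 ∧ D c1 0 c3 ∧ D 0 c2 c3 ∧ c1 • g1 + c2 • g2 + c3 • g3 = 0) ∨
  (∀ p q r, D p q r ↔ (D p q 0 ∧ D p 0 r ∧ D 0 q r))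

/-- **StTs2.** Property (S2).

Proof. Let A be the largest r with D 0 0 r (fin; D 0 0 0 by down from one). Let p be counted: p < B, c1 ≤ p,
s p < s (p-1), c2 ≤ s p. Put q = s p. ¬ D p q 0 (hs), D (p-1) q 0, D p (q-1) 0 (q ≥ c2 ≥ 1). By nf there is
D p' q' r' with p' g1 + q' g2 + r' g3 = p g1 + q g2. p' = 0: otherwise cancel g1, D (p-1) q 0 and D (p'-1) q' r'
have the same value, so p = p', q = q', r' = 0 and D p q 0, absurd. q' = 0 in the same way with D p (q-1) 0.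
So D 0 0 r' and r' • g3 = p • g1 + q • g2; by inj r' is unique; call it u(p). u(p) ≤ A.
u(p) + c3 > A: otherwise D 0 0 (u + c3) and D (p - c1) (q - c2) 0 (≤ (p-1,q,0)) have the same value:
(p - c1) g1 + (q - c2) g2 + (c1 g1 + c2 g2 + c3 g3) = p g1 + q g2 + c3 g3 = (u + c3) g3 and the bracket is 0.
By inj u + c3 = 0, absurd.
u is injective: let p < p' be counted with u(p) = u(p'), q = s p, q' = s p' ≤ q (s is nonincreasing:
D p' (s p' - 1) 0 gives D p (s p' - 1) 0). p g1 + q g2 = p' g1 + q' g2, so (q - q') g2 = (p' - p) g1 (subtract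
p g1 + q' g2). D 0 (q - q') 0 (q - q' ≤ q, (p-1,q,0) ∈ D) and D (p' - p) 0 0 (p' - p ≤ p' - 1), so by inj
p' - p = 0, absurd.
So the number of counted p is at most the size of (A - c3, A] ∩ ℕ, which is ≤ c3. -/
def StTs2 : Prop := ∀ (G : Type) [AddCommGroup G] (D : ℕ → ℕ → ℕ → Prop) (g1 g2 g3 : G),
  TD D g1 g2 g3 → ∀ c1 c2 c3, 1 ≤ c1 → 1 ≤ c2 → 1 ≤ c3 → c1 • g1 + c2 • g2 + c3 • g3 = 0 →
  ∀ (s : ℕ → ℕ), (∀ p q, q < s p ↔ D p q 0) → ∀ B, oc B s c1 c2 ≤ c3

/-- **StTar.** From a down-set to its arrays.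

Proof. Let B be as in fin. h1 q r := the number of p ∈ range B with D p q r (open Classical for the filter),
h2 p r, h3 p q similarly. Because D is closed downwards, {p : D p q r} is an initial segment of ℕ contained in
range B, so p < h1 q r iff D p q r; the same for h2, h3. PP: e12, e13 are clear, bd is fin, n1: D 1 0 0. -/
def StTar : Prop := ∀ (G : Type) [AddCommGroup G] (D : ℕ → ℕ → ℕ → Prop) (g1 g2 g3 : G),
  TD D g1 g2 g3 → ∃ B h1 h2 h3, PP B h1 h2 h3 ∧ (∀ p q r, p < h1 q r ↔ D p q r)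

/-- **StTcl.** From a down-set to a member of the class.

Proof. Take the arrays of StTar; by e12, e13: q < h2 p r iff D p q r, r < h3 p q iff D p q r. Apply StTs1.
First alternative: s1 is the equivalence; gen: D c1 c2 0 iff c2 < h2 c1 0, D c1 0 c3 iff c3 < h3 c1 0, D 0 c2 c3
iff c3 < h3 0 c2. o12: StTs2 for D, (c1,c2,c3), s p = h2 p 0. o21: StTs2 for the down-set
(p,q,r) ↦ D q p r with (g2, g1, g3) (it is TD again) and (c2,c1,c3), s q = h1 q 0. o13: (p,r,q) ↦ D p q r, i.e.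
D' a b c := D a c b, with (g1,g3,g2), (c1,c3,c2), s p = h3 p 0. o31: D' a b c := D b c a, (g3,g1,g2), (c3,c1,c2),
s r = h1 0 r (D' r p 0 = D p 0 r). o23: D' a b c := D c a b, (g2,g3,g1), (c2,c3,c1), s q = h3 0 q. o32:
D' a b c := D c b a, (g3,g2,g1), (c3,c2,c1), s r = h2 0 r. The relation c1 g1 + c2 g2 + c3 g3 = 0 is permuted
(add_comm, abel).
Second alternative: c1 = c2 = c3 = B (B ≥ 3 > 0): in s1 the condition ¬ (B ≤ p ∧ ..) holds for D p q 0
(p + 1 < B); if the left side of s1 fails because.. (the two sides agree since the first three conditions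
imply p < B). gen: the right alternative. The oc's are 0: a counted p satisfies p < B and B ≤ p. -/
def StTcl : Prop := StTs1 → StTs2 → StTar → ∀ (G : Type) [AddCommGroup G]
  (D : ℕ → ℕ → ℕ → Prop) (g1 g2 g3 : G), TD D g1 g2 g3 →
  ∃ B h1 h2 h3 c1 c2 c3, Cls B h1 h2 h3 c1 c2 c3 ∧ (∀ p q r, p < h1 q r ↔ D p q r)

/-- **StTsg.** The normal forms of a numerical semigroup of embedding dimension four.

Proof. D p q r := IsNF S a ![p,q,r], g_i = a i in ZMod (mult S). down: IsNF_down (componentwise ≤ of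
![p',q',r'] and ![p,q,r] by Fin cases). inj: psi_inj; psi a (mult S) ![p,q,r] = (wN a ![p,q,r] : ZMod) =
p • a 0 + q • a 1 + r • a 2 (psi_apply, Fin.sum_univ_three, push_cast, nsmul_eq_mul, ring); from equality of
![p,q,r] and ![p',q',r'] get the components by congrFun. nf: as in the field nf of sgpTile (exists_Ap for the
number wN a ![p,q,r], exists_NF), and every x : Fin 3 → ℕ is ![x 0, x 1, x 2]. fin: B := cond S + mult S + 2:
le_wN and Ap_le give x i ≤ wN a x ≤ cond S + mult S - 1. one: IsNF_single, Pi.single 0 1 = ![1,0,0] etc. -/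
def StTsg : Prop := ∀ (S : AddSubmonoid ℕ) (a : Fin 3 → ℕ), {n | n ∉ S}.Finite →
  1 ≤ Pool.Agent.Helper67.WI.cond S → Function.Injective a →
  (∀ g, (∃ i, a i = g) ↔ (g ∈ Pool.Agent.Helper67.WI.gens S ∧ g ≠ Pool.Agent.Helper67.WI.mult S)) →
  TD (fun p q r => Pool.Agent.Helper67.WI.IsNF S a ![p, q, r])
    ((a 0 : ℕ) : ZMod (Pool.Agent.Helper67.WI.mult S)) ((a 1 : ℕ) : ZMod (Pool.Agent.Helper67.WI.mult S))
    ((a 2 : ℕ) : ZMod (Pool.Agent.Helper67.WI.mult S))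

/-- **StWoo.** The sum of oo over all points and over the points which are not maximal.

Proof. Write the sums over pts as ∑ p q r ∈ range B with the condition p < h1 q r (iff q < h2 p r iff r < h3 p q).
First part, direction 3: ∑ p q, ∑ r, [r < h3 p q and h3 p q = r + 1] (r+1) = ∑ p q, h3 p q = vol B h3: for given p, q
with h3 p q > 0 exactly r = h3 p q - 1 (< B) contributes, and the value is h3 p q; if h3 p q = 0 nothing. The
directions 1, 2 give vol B h1, vol B h2, equal to vol B h3 (StVol).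
Second part, direction 3: the point (p, q, h3 p q - 1), h3 p q > 0, is not maximal iff p+1 < h1 q r or q+1 < h2 p r
with r = h3 p q - 1 (the third alternative r + 1 < h3 p q fails), i.e. r < h3 (p+1) q or r < h3 p (q+1), i.e.
h3 p q ≤ h3 (p+1) q or h3 p q ≤ h3 p (q+1), i.e. (StAr) equality. So the sum is NMs B h3. Direction 2: the point
(p, h2 p r - 1, r) is not maximal iff h2 (p+1) r = h2 p r or h2 p (r+1) = h2 p r: NMs B h2. Direction 1: NMs B h1. -/
def StWoo : Prop := StAr → StVol → ∀ (B : ℕ) (h1 h2 h3 : ℕ → ℕ → ℕ), PP0 B h1 h2 h3 →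
  ∑ x ∈ pts B h1, oo h1 h2 h3 x = 3 * vol B h3 ∧
  ∑ x ∈ (pts B h1).filter (fun x => nonmax h1 h2 h3 x), oo h1 h2 h3 x = NMs B h1 + NMs B h2 + NMs B h3

/-- **StWrho.** Weights on different residues.

Proof. Let s = ∑ o. If κ = 0 then all o are 0 and s = 0. Let κ > 0 and t := s/κ - 1/2 (real). For every x:
o x ρ x ≥ o x t - o x (t - ρ x)⁺ ≥ o x t - κ (t - ρ x)⁺. Sum: ∑ o ρ ≥ s t - κ ∑ over x of (t - ρ x)⁺ ≥
s t - κ ∑ over j ∈ ℕ of (t - j)⁺ (ρ is injective on X; the sum over j is finite: j < t).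
∑ over j of (t - j)⁺ ≤ (t + 1/2)²/2: for t < 0 it is 0; for n ≤ t < n+1, n ∈ ℕ, it is (n+1) t - n (n+1)/2 and
(t + 1/2)²/2 - (n+1) t + n (n+1)/2 = (t - n - 1/2)²/2 ≥ 0. So 2 κ ∑ o ρ ≥ 2 κ (s t - κ (t+1/2)²/2) =
2 κ (s (s/κ - 1/2) - s²/(2κ)) = s² - κ s. -/
def StWrho : Prop := ∀ (α : Type) [DecidableEq α] (X : Finset α) (o ρ : α → ℕ) (κ : ℕ),
  Set.InjOn ρ (X : Set α) → (∀ x ∈ X, o x ≤ κ) →
  (∑ x ∈ X, o x) * (∑ x ∈ X, o x) ≤ κ * (2 * (∑ x ∈ X, o x * ρ x) + ∑ x ∈ X, o x)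

/-- **StWaf.** The weighted sum.

Proof. X = pts B h1, m = vol B h3, N = NMs B h1 + NMs B h2 + NMs B h3, o = oo, ρ = Λ % m. Λ = m (Λ / m) + Λ % m, and Λ / m ≥ 1 on
nonmax points (m > 0). So ∑ Λ o ≥ ∑ ρ o + m N (StWoo). o x ≤ κ (o x ≤ (x.1+1)+(x.2.1+1)+(x.2.2+1) and IsK). StWrho:
(3m)² ≤ κ (2 T + 3 m), T = ∑ o ρ. Tgt times m: m κ (2 (m - N) + 1) ≤ 9 m² (integers). So
2 κ (T + m N) ≥ 9 m² - 3 m κ + 2 κ m N ≥ 2 κ m² - 2 κ m N + κ m - 3 m κ + 2 κ m N = 2 κ (m² - m). κ ≥ 3 > 0 (IsK). Divide. -/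
def StWaf : Prop := StAr → StVol → StWoo → StWrho →
  ∀ (B : ℕ) (h1 h2 h3 : ℕ → ℕ → ℕ) (κ : ℕ) (Λ : ℕ × ℕ × ℕ → ℕ), PP B h1 h2 h3 → IsK h1 κ →
  1 ≤ vol B h3 → Set.InjOn (fun x => Λ x % vol B h3) (pts B h1 : Set (ℕ × ℕ × ℕ)) →
  (∀ x ∈ pts B h1, nonmax h1 h2 h3 x → vol B h3 ≤ Λ x) → Tgt B h1 h2 h3 κ →
  vol B h3 * (vol B h3 - 1) ≤ ∑ x ∈ pts B h1, Λ x * oo h1 h2 h3 x

/-- **StWlin.** The weighted sum for a linear weight.

Proof. All in ℤ. Let L(p,q,r) = C - b1 p - b2 q - b3 r. Direction 1: for (q,r) with n := h1 q r > 0 the only point of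
the column with h1 q r = p + 1 is p = n - 1, it contributes n L(n-1,q,r), and
∑ over p < n of (L(p,q,r) - b1 p) = n (C - b2 q - b3 r) - b1 n (n-1) = n L(n-1,q,r) (∑ over p < n of 2 p = n (n-1)).
So the part of direction 1 is ∑ over the points of (L - b1 p), similarly ∑ (L - b2 q), ∑ (L - b3 r) for directions 2, 3,
and the total is ∑ (3 L - b1 p - b2 q - b3 r) = ∑ (4 L - C). -/
def StWlin : Prop := ∀ (B : ℕ) (h1 h2 h3 : ℕ → ℕ → ℕ) (C b1 b2 b3 : ℤ), PP0 B h1 h2 h3 →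
  ∑ x ∈ pts B h1, (C - b1 * x.1 - b2 * x.2.1 - b3 * x.2.2) * (oo h1 h2 h3 x : ℤ) =
  ∑ x ∈ pts B h1, (4 * (C - b1 * x.1 - b2 * x.2.1 - b3 * x.2.2) - C)

/-- **StWsg.** The normal forms as points.

Proof. m = mult S, c = cond S (library Pool.Agent.Helper67.WI: Sgp, Sgp2, Sgp3). x ↦ ![x.1, x.2.1, x.2.2] is a
bijection pts B h1 → nfSet S a (mem_nfSet; bd gives the bounds by B; inverse y ↦ (y 0, y 1, y 2)). So
card (pts B h1) = m (card_nfSet), and card (pts B h1) = ∑ q r, h1 q r = vol B h1 = vol B h3 (as in StVol: for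
fixed q, r the number of p ∈ range B with p < h1 q r is h1 q r ≤ B); and the sums of c + m - 1 - wN a over pts
and over nfSet agree (Finset.sum_bij or sum_nbij'). Injectivity of (c + m - 1 - wN a x) % m: as in sum_rem of
Sgp3. nonmax: say x.1 + 1 < h1 x.2.1 x.2.2; then ![x.1+1, x.2.1, x.2.2] is a normal form, its wN is
wN a ![x.1,x.2.1,x.2.2] + a 0 ≤ c + m - 1 (Ap_le), and a 0 > m (a_gt). The other two directions: e12, e13. -/
def StWsg : Prop := StVol → ∀ (S : AddSubmonoid ℕ) (a : Fin 3 → ℕ), {n | n ∉ S}.Finite →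
  1 ≤ Pool.Agent.Helper67.WI.cond S →
  (∀ g, (∃ i, a i = g) ↔ (g ∈ Pool.Agent.Helper67.WI.gens S ∧ g ≠ Pool.Agent.Helper67.WI.mult S)) →
  ∀ (B : ℕ) (h1 h2 h3 : ℕ → ℕ → ℕ), PP B h1 h2 h3 →
  (∀ p q r, p < h1 q r ↔ Pool.Agent.Helper67.WI.IsNF S a ![p, q, r]) →
  vol B h3 = Pool.Agent.Helper67.WI.mult S ∧
  (∑ x ∈ pts B h1, (Pool.Agent.Helper67.WI.cond S + Pool.Agent.Helper67.WI.mult S - 1 -
      Pool.Agent.Helper67.WI.wN a ![x.1, x.2.1, x.2.2])) =
    ∑ y ∈ Pool.Agent.Helper67.WI.nfSet S a, (Pool.Agent.Helper67.WI.cond S +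
      Pool.Agent.Helper67.WI.mult S - 1 - Pool.Agent.Helper67.WI.wN a y) ∧
  Set.InjOn (fun x : ℕ × ℕ × ℕ => (Pool.Agent.Helper67.WI.cond S + Pool.Agent.Helper67.WI.mult S - 1 -
      Pool.Agent.Helper67.WI.wN a ![x.1, x.2.1, x.2.2]) % Pool.Agent.Helper67.WI.mult S)
      (pts B h1 : Set (ℕ × ℕ × ℕ)) ∧
  (∀ x ∈ pts B h1, nonmax h1 h2 h3 x → Pool.Agent.Helper67.WI.mult S ≤
    Pool.Agent.Helper67.WI.cond S + Pool.Agent.Helper67.WI.mult S - 1 -
      Pool.Agent.Helper67.WI.wN a ![x.1, x.2.1, x.2.2])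

/-- **StWfin.** Wilf's inequality from the inequality Tgt.

Proof. m = mult S, c = cond S. embDim S = 4 gives, by exists_enum (r + 1 = 4, subst), a : Fin 3 → ℕ injective with
hgen. StTsg and StTcl give the class member with p < h1 q r iff IsNF S a ![p,q,r]. Take κ with IsK (the maximum
of x.1+x.2.1+x.2.2+3 over the finite nonempty set pts B h1). Λ x := c + m - 1 - wN a ![x.1,x.2.1,x.2.2]. StWsg and
StWaf (Tgt by hypothesis) give m (m-1) ≤ ∑ Λ oo. StWlin with C = c + m - 1, b_i = a i (the subtraction in Λ is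
exact by Ap_le; wN a ![p,q,r] = a 0 p + a 1 q + a 2 r): ∑ Λ oo = 4 ∑ Λ - m (c + m - 1) (card pts = m: the sum of
C over pts; card (pts B h1) = vol B h3, or use StWlin with C = 1, b = 0 and StWoo: 3 vol = 3 card), and sum_def:
2 ∑ Λ = 2 m left + m (m-1). So m (m-1) ≤ 4 m left + 2 m (m-1) - m (c + m - 1), i.e. m c ≤ 4 m left, c ≤ 4 left. -/
def StWfin : Prop := StAr → StVol → StTs1 → StTs2 → StTar → StTcl → StTsg → StWoo → StWrho → StWaf →
  StWlin → StWsg →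
  (∀ (B : ℕ) (h1 h2 h3 : ℕ → ℕ → ℕ) (c1 c2 c3 κ : ℕ), Cls B h1 h2 h3 c1 c2 c3 → IsK h1 κ →
    Tgt B h1 h2 h3 κ) →
  ∀ (S : AddSubmonoid ℕ), {n | n ∉ S}.Finite → 1 ≤ Pool.Agent.Helper67.WI.cond S →
    Pool.Agent.Helper67.WI.embDim S = 4 →
    Pool.Agent.Helper67.WI.cond S ≤ 4 * Pool.Agent.Helper67.WI.left S

end Pool.Agent.Helper21.W4
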