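import Pool.Agent.Helper21.W4.St2
import Pool.Agent.Helper21.W4.St4

/-!
# Wilf in embedding dimension four: statements, part 6 (assembly)
-/

set_option autoImplicit false

namespace Pool.Agent.Helper21.W4

/-- **StBase.** All fields of Base for dat.

Proof. hm: StCard. hE: StEq. km: StKm. A_i: PP.n1, n2, n3. w ≤ A: monotonicity (StAr). d12: StDD for the pair
s = fun p => h2 p 0, t = fun q => h1 q 0 with u = h1 1 1 - 1 ≤ h1 1 0 - 1 = t 1 - 1; d21: the same pair exchanged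
(s = fun q => h1 q 0); d13, d31: fun p => h3 p 0, fun r => h1 0 r; d23, d32: fun q => h3 0 q, fun r => h2 0 r. k12: StDD
(k12 = kk B s u v, d21 = #{corners with v < s p - 1} by StTr). x12 ≤ e12: unc is the size of a filter of cor.
e12: StAr2. a12: StAr1 (t 1 - 1 = w12, s 1 - 1 = w21). b12: StAr2. -/
def StBase : Prop := StAr → StVol → StBk → StInt → StCard → StCap → StALa → StALb → StALc → StMx →
  StOne → StNd → StEq → StTr → StAr1 → StAr2 → StDD → StKm →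
  ∀ (B : ℕ) (h1 h2 h3 : ℕ → ℕ → ℕ) (c1 c2 c3 κ : ℕ), Cls B h1 h2 h3 c1 c2 c3 → IsK h1 κ →
  Base (dat B h1 h2 h3 c1 c2 c3 κ)

/-- All general facts, as one hypothesis. -/
def Gen : Prop := StAr ∧ StVol ∧ StSw ∧ StSwT ∧ StCap ∧ StTr ∧ StAr2 ∧ StG ∧ StDD ∧ StYex ∧ StYo ∧
  (∀ (B : ℕ) (h1 h2 h3 : ℕ → ℕ → ℕ) (c1 c2 c3 κ : ℕ), Cls B h1 h2 h3 c1 c2 c3 → IsK h1 κ →
  Base (dat B h1 h2 h3 c1 c2 c3 κ)) ∧ StNmono ∧ StNnf ∧ StNeps ∧ StNstar ∧ StNzv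

/-- **StP1.** The face 12 is trivial.

Proof. bk = 0: h3 (p+1) (q+1) ≤ h3 1 1 and 0 < h3 1 1 would give 1 < h1 1 0; so h3 (p+1) (q+1) = 0. h1 1 1 ≤ 1 etc.
(h1 1 1 ≤ h1 1 0 ≤ 1, h2 1 1: 1 < h2 1 1 iff 1 < h1 1 1; h3 1 1 = 0). L = 0 by StLd. e12 = 0: a corner p of
fun p => h2 p 0 has 1 < h2 p 0 ≤ h2 1 0, so 1 < h1 1 0.
Case A: h1 0 1 ≤ 1 and h2 0 1 ≤ 1: the other faces are trivial too: e13 = e23 = 0, and no point has Two (a point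
with two positive coordinates would give (1,1,0), (1,0,1) or (0,1,1)); the point attaining κ is on an axis:
κ = A_i + 3. StD1a.
Case B: otherwise StYex gives a largest point (p,q,r). Not 1 ≤ p ∧ 1 ≤ q. If 1 ≤ p, 1 ≤ r (so q = 0): StG for the
pair fun p => h3 p 0, fun r => h1 0 r gives p + 0 + r + e13 + 1 ≤ h3 1 0 + h1 0 1, i.e. s + e13 ≤ w13 + w31 + 1; e13 ≥ 1
(StAr2: 2 ≤ h1 0 1); StYo; StD1. If 1 ≤ q, 1 ≤ r (p = 0): exchange the coordinates 1, 2 (StSw, StSwT): in the new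
arrays h2 1 0 ≤ 1 and (q,p,r) is the largest point with first and third coordinate positive: the case done;
StSwT gives Tgt for the old arrays. -/
def StP1 : Prop := Gen → StLd → StN1 → StD1 → StD1a → ∀ (B : ℕ) (h1 h2 h3 : ℕ → ℕ → ℕ) (c1 c2 c3 κ : ℕ),
  Cls B h1 h2 h3 c1 c2 c3 → IsK h1 κ → h1 1 0 ≤ 1 → Tgt B h1 h2 h3 κ

/-- **StP2.** All faces are nontrivial, but (1,1,1) is not in D.

Proof. s1 for (1,1,1): ¬ 1 < h1 1 1, while 1 < h2 1 0 (iff 1 < h1 1 0), 1 < h3 1 0 (iff 1 < h1 0 1), 1 < h3 0 1 (iff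
0 < h1 1 1 .. iff 1 < h2 0 1): so c1, c2, c3 ≤ 1, hence c1 = c2 = c3 = 1. L = 0 by definition of loss. bk = 0:
h3 (p+1) (q+1) ≤ h3 1 1 ≤ 1. u_i = 0. e_f ≥ 1: StAr2. The three inequalities: StOc with o12, o13, o23. StD2. -/
def StP2 : Prop := Gen → StOc → StD2 → ∀ (B : ℕ) (h1 h2 h3 : ℕ → ℕ → ℕ) (c1 c2 c3 κ : ℕ),
  Cls B h1 h2 h3 c1 c2 c3 → IsK h1 κ → 2 ≤ h1 1 0 → 2 ≤ h1 0 1 → 2 ≤ h2 0 1 → h1 1 1 ≤ 1 →
  Tgt B h1 h2 h3 κ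

/-- **StP3.** Types 0, 1, the largest point is in the interior or in the face 12.

Proof. T01 (dat ..): u's: StMU and its permutations (StSw; c_i ≥ 2); x12 = k12: StUa; x13 = k13: StUa for
Cls B (fun q r => h1 r q) h3 h2 c1 c3 c2; x23 = k23: StUa for the composition of the two exchanges
(fun q r => h2 r q, fun p r => h3 r p, h1) with c = (c2,c3,c1); sp: StSp; L: StLa. Location: r = 0: Two gives 1 ≤ p,
1 ≤ q, StG, StE2; all ≥ 1: p ≤ h1 1 1 - 1 etc., StE1. -/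
def StP3 : Prop := Gen → StMU → StUa → StSp → StLa → StN01b → StN01f → StE1 → StE2 →
  ∀ (B : ℕ) (h1 h2 h3 : ℕ → ℕ → ℕ) (c1 c2 c3 κ p q r : ℕ),
  Cls B h1 h2 h3 c1 c2 c3 → IsK h1 κ → 2 ≤ h1 1 1 → 2 ≤ c1 → 2 ≤ c2 → 2 ≤ c3 → IsY h1 p q r →
  (r = 0 ∨ (1 ≤ p ∧ 1 ≤ q ∧ 1 ≤ r)) → Tgt B h1 h2 h3 κ

/-- **StP4.** Type 2, the largest point is in the interior, in the face 12 or in the face 13.

Proof. gen holds (B ≤ 1 is impossible): c2 < h2 c1 0, 1 < h3 c1 0, 1 < h3 0 c2. T2 (dat ..): u's by StMU (permuted),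
2 ≤ u1: h1 1 0 > c1 ((c1,c2,0) ∈ D) and h1 0 1 > c1 ((c1,0,1) ∈ D); 2 ≤ u2: h2 1 0 > c2, h2 0 1 > c2; x13, x23: StUa
permuted (c2, c1 ≥ 2); sp: StSp; L: StLb. Location: StG, StF1, StF2, StF3. -/
def StP4 : Prop := Gen → StMU → StUa → StSp → StLb → StN2b → StN2f12 → StN2f13 → StF1 → StF2 → StF3 →
  ∀ (B : ℕ) (h1 h2 h3 : ℕ → ℕ → ℕ) (c1 c2 κ p q r : ℕ),
  Cls B h1 h2 h3 c1 c2 1 → IsK h1 κ → 2 ≤ h1 1 1 → 2 ≤ c1 → 2 ≤ c2 → IsY h1 p q r →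
  (r = 0 ∨ q = 0 ∨ (1 ≤ p ∧ 1 ≤ q ∧ 1 ≤ r)) → Tgt B h1 h2 h3 κ

/-- **StP5.** Type 3: the numerical facts.

Proof. H = h - 2, n, t, y, z: StFa for s = fun r => h1 0 r, t = fun p => h3 p 0, u = h1 1 1 - 1, height h (2 ≤ h1 0 h by
gen); al = h1 0 h - 1; n', .. : s = fun r => h2 0 r, t = fun q => h3 0 q, u = h2 1 1 - 1, al' = h2 0 h - 1. d13 = #{l :
u < s l - 1} by StTr; kk by StTr. a: StFb. n2, s13: StFc with o31 (c3 = h, c1 = 1, bound c2 = 1); n2', s23: o32. s12: StOc and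
o12 (bound h). dn: StDn. u3 = h - 1: StMUt. x12: StUa (c3 ≥ 2), x13: StUb, x23: StUb after the first exchange.
sp: StSp. L, ε: StLc. -/
def StP5 : Prop := Gen → StMU → StMUt → StUa → StUb → StSp → StLc → StDn → StFa → StFb → StFc → StOc →
  ∀ (B : ℕ) (h1 h2 h3 : ℕ → ℕ → ℕ) (h κ : ℕ),
  Cls B h1 h2 h3 1 1 h → IsK h1 κ → 2 ≤ h → 2 ≤ h1 1 1 →
  ∃ ε n t y z al n' t' y' z' al', T3 (dat B h1 h2 h3 1 1 h κ) (h - 2) ε n t y z al n' t' y' z' al'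

/-- **StP6.** Everything.

Proof. By StSw, StSwT we may permute the coordinates (generated by the two exchanges). If one of
(1,1,0), (1,0,1), (0,1,1) is not in D: move it to the face 12 and use StP1. If all are in D and (1,1,1) is not:
StP2. Now 2 ≤ h1 1 1. StYex gives a largest point. Let j be the number of the c_i equal to 1. If the
second alternative of gen holds then all c_i ≥ B ≥ 3. j = 3: then s1 for (1,1,1) contradicts 1 < h1 1 1.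
j = 0: StP3 after a permutation which moves a zero coordinate of the largest point (if there is one) to the
third place. j = 1: move it to the third place, StP4; if p = 0 exchange 1, 2. j = 2: c = (1,1,h), h ≥ 2 after a
permutation; StP5 and StG1 - StG6 (if p = 0 exchange 1, 2). -/
def StP6 : Prop := Gen →
  (∀ (B : ℕ) (h1 h2 h3 : ℕ → ℕ → ℕ) (c1 c2 c3 κ : ℕ),
    Cls B h1 h2 h3 c1 c2 c3 → IsK h1 κ → h1 1 0 ≤ 1 → Tgt B h1 h2 h3 κ) →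
  (∀ (B : ℕ) (h1 h2 h3 : ℕ → ℕ → ℕ) (c1 c2 c3 κ : ℕ),
    Cls B h1 h2 h3 c1 c2 c3 → IsK h1 κ → 2 ≤ h1 1 0 → 2 ≤ h1 0 1 → 2 ≤ h2 0 1 → h1 1 1 ≤ 1 →
    Tgt B h1 h2 h3 κ) →
  (∀ (B : ℕ) (h1 h2 h3 : ℕ → ℕ → ℕ) (c1 c2 c3 κ p q r : ℕ),
    Cls B h1 h2 h3 c1 c2 c3 → IsK h1 κ → 2 ≤ h1 1 1 → 2 ≤ c1 → 2 ≤ c2 → 2 ≤ c3 → IsY h1 p q r →
    (r = 0 ∨ (1 ≤ p ∧ 1 ≤ q ∧ 1 ≤ r)) → Tgt B h1 h2 h3 κ) →
  (∀ (B : ℕ) (h1 h2 h3 : ℕ → ℕ → ℕ) (c1 c2 κ p q r : ℕ),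
    Cls B h1 h2 h3 c1 c2 1 → IsK h1 κ → 2 ≤ h1 1 1 → 2 ≤ c1 → 2 ≤ c2 → IsY h1 p q r →
    (r = 0 ∨ q = 0 ∨ (1 ≤ p ∧ 1 ≤ q ∧ 1 ≤ r)) → Tgt B h1 h2 h3 κ) →
  (∀ (B : ℕ) (h1 h2 h3 : ℕ → ℕ → ℕ) (h κ p q r : ℕ),
    Cls B h1 h2 h3 1 1 h → IsK h1 κ → 2 ≤ h → 2 ≤ h1 1 1 → IsY h1 p q r →
    (r = 0 ∨ q = 0 ∨ (1 ≤ p ∧ 1 ≤ q ∧ 1 ≤ r)) → Tgt B h1 h2 h3 κ) →
  ∀ (B : ℕ) (h1 h2 h3 : ℕ → ℕ → ℕ) (c1 c2 c3 κ : ℕ), Cls B h1 h2 h3 c1 c2 c3 → IsK h1 κ →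
    Tgt B h1 h2 h3 κ

end Pool.Agent.Helper21.W4
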