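import Pool.Agent.Helper21.W4.St5

/-!
# The strict form: weights on different residues, the weighted sum
-/

set_option autoImplicit false

namespace Pool.Agent.Helper21.W4

open Finset

theorem sum_tri' (n : ℕ) : 2 * ∑ j ∈ range n, (n - j) = n * (n + 1) := by
  induction n with
  | zero => simp
  | succ n ih =>
    have h1 : ∑ j ∈ range (n + 1), (n + 1 - j) = ∑ j ∈ range n, (n - j) + (n + 1) := by
      rw [Finset.sum_range_succ' (fun j => n + 1 - j) n]
      congr 1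
      apply Finset.sum_congr rfl
      intro j _
      omega
    rw [h1, Nat.mul_add, ih]
    ring

theorem term_le {o ρ κ n : ℕ} (h1 : o ≤ κ) : o * n ≤ o * ρ + κ * (n - ρ) := by
  rcases le_total n ρ with h | h
  · rw [Nat.sub_eq_zero_of_le h, Nat.mul_zero, Nat.add_zero]
    exact Nat.mul_le_mul_left _ h
  · obtain ⟨d, rfl⟩ := Nat.exists_eq_add_of_le h
    rw [Nat.add_sub_cancel_left, Nat.mul_add]
    exact Nat.add_le_add_left (Nat.mul_le_mul_right _ h1) _

theorem term_lt {o ρ κ n : ℕ} (h : (o < κ ∧ ρ < n) ∨ (0 < o ∧ n < ρ)) :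
    o * n < o * ρ + κ * (n - ρ) := by
  rcases h with ⟨h1, h2⟩ | ⟨h1, h2⟩
  · obtain ⟨d, rfl⟩ := Nat.exists_eq_add_of_lt h2
    have e : ρ + d + 1 - ρ = d + 1 := by omega
    rw [e]
    have : o * (ρ + d + 1) = o * ρ + o * (d + 1) := by ring
    rw [this]
    exact Nat.add_lt_add_left (Nat.mul_lt_mul_of_pos_right h1 (by omega)) _
  · have : o * n < o * ρ := Nat.mul_lt_mul_of_pos_left h2 h1
    omega

/-- strict rearrangement inequality -/
theorem rho_strict {α : Type} [DecidableEq α] (X : Finset α) (o ρ : α → ℕ) (κ : ℕ)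
    (hρ : Set.InjOn ρ (X : Set α)) (hκ : ∀ x ∈ X, o x ≤ κ) (y : α) (hy : y ∈ X) (hy0 : 0 < o y)
    (hy1 : o y < κ) :
    (∑ x ∈ X, o x) * (∑ x ∈ X, o x) < κ * (2 * (∑ x ∈ X, o x * ρ x) + ∑ x ∈ X, o x) := by
  have h0 : 0 < κ := by omega
  set s := ∑ x ∈ X, o x with hs
  set T := ∑ x ∈ X, o x * ρ x with hT
  have hspos : 0 < s := lt_of_lt_of_le hy0 (single_le_sum (f := o) (fun _ _ => Nat.zero_le _) hy)
  have hQ : ∀ n, ∑ x ∈ X, (n - ρ x) ≤ ∑ j ∈ range n, (n - j) := by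
    intro n
    have e1 : ∑ x ∈ X, (n - ρ x) = ∑ x ∈ X.filter (fun x => ρ x < n), (n - ρ x) := by
      rw [Finset.sum_filter]
      apply Finset.sum_congr rfl
      intro x _
      split_ifs with h
      · rfl
      · omega
    have hinj : Set.InjOn ρ ((X.filter (fun x => ρ x < n) : Finset α) : Set α) := by
      intro x hx y hy hxy
      exact hρ (Finset.mem_coe.2 (Finset.mem_filter.1 (Finset.mem_coe.1 hx)).1)
        (Finset.mem_coe.2 (Finset.mem_filter.1 (Finset.mem_coe.1 hy)).1) hxy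
    have e2 : ∑ x ∈ X.filter (fun x => ρ x < n), (n - ρ x) =
        ∑ j ∈ (X.filter (fun x => ρ x < n)).image ρ, (n - j) :=
      (Finset.sum_image (f := fun j => n - j) hinj).symm
    rw [e1, e2]
    apply Finset.sum_le_sum_of_subset
    intro j hj
    obtain ⟨x, hx, rfl⟩ := Finset.mem_image.1 hj
    exact Finset.mem_range.2 (Finset.mem_filter.1 hx).2
  have hle : ∀ n, 2 * (s * n) ≤ 2 * T + κ * (n * (n + 1)) := by
    intro n
    have h1 : s * n ≤ T + κ * ∑ x ∈ X, (n - ρ x) := by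
      rw [hs, hT, Finset.sum_mul, Finset.mul_sum, ← Finset.sum_add_distrib]
      exact Finset.sum_le_sum fun x hx => term_le (hκ x hx)
    have h2 := Nat.mul_le_mul_left κ (hQ n)
    have h3 := sum_tri' n
    have h4 : κ * (n * (n + 1)) = 2 * (κ * ∑ j ∈ range n, (n - j)) := by rw [← h3]; ring
    omega
  have hlt : ∀ n, ((o y < κ ∧ ρ y < n) ∨ (0 < o y ∧ n < ρ y)) →
      2 * (s * n) < 2 * T + κ * (n * (n + 1)) := by
    intro n hn
    have h1 : s * n < T + κ * ∑ x ∈ X, (n - ρ x) := by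
      rw [hs, hT, Finset.sum_mul, Finset.mul_sum, ← Finset.sum_add_distrib]
      exact Finset.sum_lt_sum (fun x hx => term_le (hκ x hx)) ⟨y, hy, term_lt hn⟩
    have h2 := Nat.mul_le_mul_left κ (hQ n)
    have h3 := sum_tri' n
    have h4 : κ * (n * (n + 1)) = 2 * (κ * ∑ j ∈ range n, (n - j)) := by rw [← h3]; ring
    omega
  -- division with remainder
  obtain ⟨n, r, hr, hsr⟩ : ∃ n r, r < κ ∧ s = κ * n + r :=
    ⟨s / κ, s % κ, Nat.mod_lt _ h0, (Nat.div_add_mod s κ).symm⟩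
  rcases Nat.eq_zero_or_pos r with hr0 | hr0
  · subst hr0
    have hn : 1 ≤ n := by
      rcases Nat.eq_zero_or_pos n with h | h
      · subst h
        simp at hsr
        omega
      · exact h
    obtain ⟨k, rfl⟩ : ∃ k, n = k + 1 := ⟨n - 1, by omega⟩
    rw [Nat.add_zero] at hsr
    rcases lt_trichotomy (ρ y) (k + 1) with h | h | h
    · have := hlt (k + 1) (Or.inl ⟨hy1, h⟩)
      rw [hsr] at this ⊢
      nlinarith
    · have := hlt k (Or.inr ⟨hy0, by omega⟩)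
      rw [hsr] at this ⊢
      nlinarith
    · have := hlt (k + 1) (Or.inr ⟨hy0, h⟩)
      rw [hsr] at this ⊢
      nlinarith
  · have h1 := hle n
    have h2 : κ * (2 * (s * n)) ≤ κ * (2 * T + κ * (n * (n + 1))) := Nat.mul_le_mul_left _ h1
    have h3 : r * r < κ * r := Nat.mul_lt_mul_of_pos_right hr hr0
    rw [hsr] at h2 ⊢
    nlinarith

/-- the weighted sum is larger if κ ≥ 5 -/
theorem waf_strict (hAr : StAr) (hVol : StVol) (hWoo : StWoo) (B : ℕ) (h1 h2 h3 : ℕ → ℕ → ℕ) (κ : ℕ)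
    (Λ : ℕ × ℕ × ℕ → ℕ) (hPP : PP B h1 h2 h3) (hK : IsK h1 κ) (hm : 1 ≤ vol B h3)
    (hinj : Set.InjOn (fun x => Λ x % vol B h3) (pts B h1 : Set (ℕ × ℕ × ℕ)))
    (hnm : ∀ x ∈ pts B h1, nonmax h1 h2 h3 x → vol B h3 ≤ Λ x) (htgt : Tgt B h1 h2 h3 κ)
    (hκ5 : 5 ≤ κ) :
    vol B h3 * (vol B h3 - 1) < ∑ x ∈ pts B h1, Λ x * oo h1 h2 h3 x := by
  have pp0 : PP0 B h1 h2 h3 := ⟨hPP.e12, hPP.e13, hPP.bd⟩
  obtain ⟨w1, w2⟩ := hWoo hAr hVol B h1 h2 h3 pp0
  have hmem : ∀ x ∈ pts B h1, x.1 < h1 x.2.1 x.2.2 := by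
    intro x hx
    simp only [pts, mem_filter] at hx
    exact hx.2
  have ho : ∀ x ∈ pts B h1, oo h1 h2 h3 x ≤ κ := by
    intro x hx
    have := hK.1 x.1 x.2.1 x.2.2 (hmem x hx)
    unfold oo
    split_ifs <;> omega
  -- there is a nonmaximal end
  have hN : 0 < ∑ x ∈ (pts B h1).filter (fun x => nonmax h1 h2 h3 x), oo h1 h2 h3 x := by
    rw [w2]
    by_contra hcon
    have hcon' : NMs B h1 + NMs B h2 + NMs B h3 = 0 := by omega
    have z1 : NMs B h1 = 0 := by omega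
    have z2 : NMs B h2 = 0 := by omega
    have z3 : NMs B h3 = 0 := by omega
    unfold Tgt at htgt
    rw [z1, z2, z3] at htgt
    push_cast at htgt
    have : (1 : ℤ) ≤ vol B h3 := by exact_mod_cast hm
    have : (5 : ℤ) ≤ κ := by exact_mod_cast hκ5
    nlinarith
  obtain ⟨y, hy, hy0⟩ : ∃ y ∈ (pts B h1).filter (fun x => nonmax h1 h2 h3 x), 0 < oo h1 h2 h3 y := by
    by_contra hcon
    push Not at hcon
    have : ∑ x ∈ (pts B h1).filter (fun x => nonmax h1 h2 h3 x), oo h1 h2 h3 x = 0 :=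
      sum_eq_zero fun x hx => by
        have := hcon x hx
        omega
    omega
  rw [mem_filter] at hy
  have hy1 : oo h1 h2 h3 y < κ := by
    have hn := hy.2
    have k0 := hmem y hy.1
    unfold nonmax at hn
    rcases hn with h | h | h
    · have := hK.1 (y.1 + 1) y.2.1 y.2.2 h
      unfold oo
      split_ifs <;> omega
    · have := hK.1 y.1 (y.2.1 + 1) y.2.2 ((hPP.e12 _ _ _).2 h)
      unfold oo
      split_ifs <;> omega
    · have := hK.1 y.1 y.2.1 (y.2.2 + 1) ((hPP.e13 _ _ _).2 h)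
      unfold oo
      split_ifs <;> omega
  have wr := rho_strict (pts B h1) (oo h1 h2 h3) (fun x => Λ x % vol B h3) κ hinj ho y hy.1 hy0 hy1
  rw [w1] at wr
  have key : (∑ x ∈ pts B h1, oo h1 h2 h3 x * (Λ x % vol B h3)) +
      vol B h3 * (NMs B h1 + NMs B h2 + NMs B h3) ≤ ∑ x ∈ pts B h1, Λ x * oo h1 h2 h3 x := by
    rw [← w2, Finset.sum_filter, Finset.mul_sum, ← Finset.sum_add_distrib]
    apply Finset.sum_le_sum
    intro x hx
    have hd := Nat.mod_add_div (Λ x) (vol B h3)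
    by_cases hn : nonmax h1 h2 h3 x
    · rw [if_pos hn]
      have h1' := hnm x hx hn
      have h2' : 1 ≤ Λ x / vol B h3 := (Nat.one_le_div_iff (by omega)).mpr h1'
      calc oo h1 h2 h3 x * (Λ x % vol B h3) + vol B h3 * oo h1 h2 h3 x
          ≤ oo h1 h2 h3 x * (Λ x % vol B h3) + vol B h3 * oo h1 h2 h3 x * (Λ x / vol B h3) := by
            exact Nat.add_le_add_left (Nat.le_mul_of_pos_right (vol B h3 * oo h1 h2 h3 x) h2') _
        _ = (Λ x % vol B h3 + vol B h3 * (Λ x / vol B h3)) * oo h1 h2 h3 x := by ring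
        _ = Λ x * oo h1 h2 h3 x := by rw [hd]
    · rw [if_neg hn, mul_zero, add_zero, mul_comm]
      exact Nat.mul_le_mul_right _ (Nat.mod_le _ _)
  refine lt_of_lt_of_le ?_ key
  have hκ : 3 ≤ κ := by omega
  unfold Tgt at htgt
  obtain ⟨k, hk'⟩ : ∃ k, vol B h3 = k + 1 := ⟨vol B h3 - 1, by omega⟩
  generalize hT : (∑ x ∈ pts B h1, oo h1 h2 h3 x * (Λ x % vol B h3)) = T at wr ⊢
  rw [hk'] at htgt wr ⊢
  generalize NMs B h1 = N1 at *
  generalize NMs B h2 = N2 at *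
  generalize NMs B h3 = N3 at *
  rw [Nat.add_sub_cancel]
  have wr' : ((3 * ((k : ℤ) + 1)) * (3 * ((k : ℤ) + 1))) < κ * (2 * T + 3 * ((k : ℤ) + 1)) := by
    exact_mod_cast wr
  have ht' : (κ : ℤ) * (2 * (((k : ℤ) + 1) - N1 - N2 - N3) + 1) ≤ 9 * ((k : ℤ) + 1) := by
    have := htgt
    push_cast at this
    linarith
  have hk0 : (0 : ℤ) ≤ (k : ℤ) + 1 := by positivity
  have h3' := mul_le_mul_of_nonneg_left ht' hk0
  have hfin : (κ : ℤ) * (((k : ℤ) + 1) * k) < (κ : ℤ) * (T + ((k : ℤ) + 1) * (N1 + N2 + N3)) := by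
    nlinarith
  have hκ0 : (0 : ℤ) < κ := by omega
  have := lt_of_mul_lt_mul_left hfin hκ0.le
  exact_mod_cast this

end Pool.Agent.Helper21.W4
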